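import Mathlib

/-!
Smooth functionals of an isonormal Gaussian process, Sobolev norms, the space `D^∞` of Watanabe,
gradient and divergence.
-/

open MeasureTheory ProbabilityTheory MvPolynomial Filter
open scoped ENNReal NNReal RealInnerProductSpace Topology

namespace Pool.Agent.Helper49.Mal

noncomputable section

/-- An isonormal Gaussian process over the Hilbert space `H` on the probability space `(Ω, P)`:
a linear family (almost surely) of random variables `W h`, centred Gaussian with variance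
`‖h‖²`. -/
structure Isonormal (H : Type*) [NormedAddCommGroup H] [InnerProductSpace ℝ H]
    {Ω : Type*} [MeasurableSpace Ω] (P : Measure Ω) where
  toFun : H → Ω → ℝ
  meas : ∀ h, AEMeasurable (toFun h) P
  add : ∀ g h, toFun (g + h) =ᵐ[P] fun ω => toFun g ω + toFun h ω
  smul : ∀ (c : ℝ) h, toFun (c • h) =ᵐ[P] fun ω => c * toFun h ω
  law : ∀ h, P.map (toFun h) = gaussianReal 0 (‖h‖₊ ^ 2)

variable {H : Type*} [NormedAddCommGroup H] [InnerProductSpace ℝ H]
  {Ω : Type*} [MeasurableSpace Ω] {P : Measure Ω}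

instance : CoeFun (Isonormal H P) fun _ => H → Ω → ℝ := ⟨Isonormal.toFun⟩

/-- The smooth functional `f(W(h_1), …, W(h_d))` given by a polynomial `f` in variables indexed
by vectors of `H`: the variable `X h` is replaced by the Gaussian variable `W h`. -/
def ev (W : Isonormal H P) (f : MvPolynomial H ℝ) (ω : Ω) : ℝ :=
  eval (fun h => W h ω) f

/-- The gradient `grad f = ∑_h (∂_h f)(W) h`, an `H`-valued random variable. -/
def gradPoly (W : Isonormal H P) (f : MvPolynomial H ℝ) (ω : Ω) : H :=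
  ∑ h ∈ f.vars, ev W (pderiv h f) ω • h

/-- The inner product `⟪D^k f, D^k g⟫` in the `k`-fold Hilbert tensor power of `H`, by recursion
on `k` : the derivative of `f` is `∑_h (∂_h f) ⊗ h`. -/
def derivInner (W : Isonormal H P) : ℕ → MvPolynomial H ℝ → MvPolynomial H ℝ → Ω → ℝ
  | 0, f, g => fun ω => ev W f ω * ev W g ω
  | k + 1, f, g => fun ω =>
      ∑ h ∈ f.vars, ∑ h' ∈ g.vars, ⟪h, h'⟫ * derivInner W k (pderiv h f) (pderiv h' g) ω

/-- The Hilbert norm `‖D^k f‖` of the `k`-th Malliavin derivative of `f`. -/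
def derivNorm (W : Isonormal H P) (k : ℕ) (f : MvPolynomial H ℝ) (ω : Ω) : ℝ :=
  Real.sqrt (derivInner W k f f ω)

/-- The Sobolev norm `∑_{k ≤ r} ‖ ‖D^k f‖ ‖_{L^p}` of a smooth functional. -/
def sob (W : Isonormal H P) (p : ℝ≥0) (r : ℕ) (f : MvPolynomial H ℝ) : ℝ≥0∞ :=
  ∑ k ∈ Finset.range (r + 1), eLpNorm (derivNorm W k f) p P

/-- The sequence `u` of smooth functionals represents `F` in `D^p_r`: it is a Cauchy sequence for
the Sobolev norm and converges to `F` in `L^p`. -/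
def Approx (W : Isonormal H P) (p : ℝ≥0) (r : ℕ) (F : Ω → ℝ) (u : ℕ → MvPolynomial H ℝ) :
    Prop :=
  (∀ ε : ℝ≥0∞, 0 < ε → ∃ N, ∀ i ≥ N, ∀ j ≥ N, sob W p r (u i - u j) ≤ ε) ∧
    Tendsto (fun i => eLpNorm (fun ω => ev W (u i) ω - F ω) p P) atTop (𝓝 0)

/-- The Sobolev norm `‖F‖_{p,r}` of `F`: the limit of the norms of the smooth functionals of a
representing sequence (`∞` if there is none). -/
def dNorm (W : Isonormal H P) (p : ℝ≥0) (r : ℕ) (F : Ω → ℝ) : ℝ≥0∞ :=
  ⨅ (u : ℕ → MvPolynomial H ℝ) (_ : Approx W p r F u), limsup (fun i => sob W p r (u i)) atTop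

/-- `F` belongs to `D^∞ = ⋂_{p > 1, r ≥ 1} D^p_r`. -/
def InDinf (W : Isonormal H P) (F : Ω → ℝ) : Prop :=
  ∀ p : ℝ≥0, 1 < p → ∀ r : ℕ, 1 ≤ r → ∃ u : ℕ → MvPolynomial H ℝ, Approx W p r F u

/-- `G` is the gradient of `F` : limit in `L²(Ω; H)` of gradients of smooth functionals converging
to `F` in `L²`. -/
def IsGrad (W : Isonormal H P) (F : Ω → ℝ) (G : Ω → H) : Prop :=
  ∃ u : ℕ → MvPolynomial H ℝ,
    Tendsto (fun i => eLpNorm (fun ω => ev W (u i) ω - F ω) 2 P) atTop (𝓝 0) ∧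
    Tendsto (fun i => eLpNorm (fun ω => gradPoly W (u i) ω - G ω) 2 P) atTop (𝓝 0)

/-- `D` is the divergence of the field `V` : the adjoint relation with the gradient. -/
def IsDiv (W : Isonormal H P) (V : Ω → H) (D : Ω → ℝ) : Prop :=
  AEStronglyMeasurable V P ∧ AEStronglyMeasurable D P ∧ ∀ g : MvPolynomial H ℝ,
    Integrable (fun ω => ⟪V ω, gradPoly W g ω⟫) P ∧ Integrable (fun ω => D ω * ev W g ω) P ∧
    ∫ ω, D ω * ev W g ω ∂P = ∫ ω, ⟪V ω, gradPoly W g ω⟫ ∂P

end

end Pool.Agent.Helper49.Mal
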