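import Pool.Agent.Helper49.Mal.Dinf

open MeasureTheory ProbabilityTheory MvPolynomial Filter
open scoped ENNReal NNReal RealInnerProductSpace Topology

namespace Pool.Agent.Helper49.Mal

noncomputable section

set_option maxHeartbeats 400000

variable {H : Type*} [NormedAddCommGroup H] [InnerProductSpace ℝ H]
  {Ω : Type*} [MeasurableSpace Ω] {P : Measure Ω} [IsProbabilityMeasure P]
  {W : Isonormal H P}

lemma add_mem_Dinf {F G : Ω →ₘ[P] ℝ} (hF : InDinf W F) (hG : InDinf W G) :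
    InDinf W ((F + G : Ω →ₘ[P] ℝ) : Ω → ℝ) := by
  intro p hp r hr
  obtain ⟨u, hu⟩ := hF p hp r hr
  obtain ⟨v, hv⟩ := hG p hp r hr
  exact ⟨_, (Approx.add W hp.le F.aestronglyMeasurable G.aestronglyMeasurable
    hu hv).congr (AEEqFun.coeFn_add F G).symm⟩

lemma zero_mem_Dinf : InDinf W ((0 : Ω →ₘ[P] ℝ) : Ω → ℝ) := by
  refine (InDinf.ev W 0).congr ?_
  filter_upwards [AEEqFun.coeFn_zero (μ := P) (β := ℝ)] with ω hω
  rw [hω]
  simp [ev]

lemma smul_mem_Dinf (c : ℝ) {F : Ω →ₘ[P] ℝ} (hF : InDinf W F) :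
    InDinf W ((c • F : Ω →ₘ[P] ℝ) : Ω → ℝ) := by
  intro p hp r hr
  obtain ⟨u, hu⟩ := hF p hp r hr
  exact ⟨_, (Approx.smul W c hu).congr (AEEqFun.coeFn_smul c F).symm⟩

variable (W) in
/-- `D^∞` as a space of random variables modulo almost sure equality. -/
def DinfSub : Submodule ℝ (Ω →ₘ[P] ℝ) where
  carrier := {F | InDinf W F}
  add_mem' := add_mem_Dinf
  zero_mem' := zero_mem_Dinf
  smul_mem' c _ := smul_mem_Dinf c

variable (W) in
/-- The space `D^∞`. -/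
def Dinf : Type _ := DinfSub W

instance : AddCommGroup (Dinf W) := (DinfSub W).addCommGroup

instance : Module ℝ (Dinf W) := (DinfSub W).module

/-- The random variable (up to almost sure equality) given by an element of `D^∞`. -/
def Dinf.fn (F : Dinf W) : Ω → ℝ := (F.1 : Ω →ₘ[P] ℝ)

lemma Dinf.meas (F : Dinf W) : AEStronglyMeasurable F.fn P := AEEqFun.aestronglyMeasurable _

lemma Dinf.prop (F : Dinf W) : InDinf W F.fn := F.2

lemma Dinf.ext_fn {F G : Dinf W} (h : F.fn =ᵐ[P] G.fn) : F = G := Subtype.ext (AEEqFun.ext h)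

lemma Dinf.add_fn (F G : Dinf W) : (F + G).fn =ᵐ[P] fun ω => F.fn ω + G.fn ω :=
  AEEqFun.coeFn_add (F.1 : Ω →ₘ[P] ℝ) G.1

lemma Dinf.smul_fn (c : ℝ) (F : Dinf W) : (c • F).fn =ᵐ[P] fun ω => c * F.fn ω :=
  AEEqFun.coeFn_smul c (F.1 : Ω →ₘ[P] ℝ)

/-- constructor of elements of `D^∞` -/
def Dinf.of {F : Ω → ℝ} (hF : AEStronglyMeasurable F P) (hD : InDinf W F) : Dinf W :=
  ⟨AEEqFun.mk F hF, hD.congr (AEEqFun.coeFn_mk F hF).symm⟩

lemma Dinf.of_fn {F : Ω → ℝ} (hF : AEStronglyMeasurable F P) (hD : InDinf W F) :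
    (Dinf.of hF hD).fn =ᵐ[P] F := AEEqFun.coeFn_mk F hF

variable {J : H →ₗ[ℝ] H} (hJ : IsJ J)

variable (W) in
include hJ in
lemma exists_der {F : Ω → ℝ} (hF : AEStronglyMeasurable F P) (hD : InDinf W F) :
    ∃ Z : Ω → ℝ, MemLp Z 2 P ∧ IsDer W J F Z ∧ InDinf W Z := by
  obtain ⟨p', r', C, h1, h2, h3, h4, hC, hext⟩ := der_ext W hJ 2 le_rfl 0
  obtain ⟨u, hu⟩ := hD p' h1 r' h2
  obtain ⟨Z, hZ, hFZ, -⟩ := hext F u hF hu
  have hZ2 : MemLp Z 2 P := by exact_mod_cast hZ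
  refine ⟨Z, hZ2, hFZ, fun p hp r hr => ?_⟩
  obtain ⟨p'', r'', C', k1, k2, k3, k4, hC', hext'⟩ := der_ext W hJ (max p 2) (le_max_right _ _) r
  obtain ⟨v, hv⟩ := hD p'' k1 r'' k2
  obtain ⟨Z2, hZ2', hFZ2, hA⟩ := hext' F v hF hv
  have h5 := IsDer.unique W hJ hF hZ2'.1 hZ2.1 hFZ2 hFZ
  exact ⟨_, (hA.mono (le_max_left _ _) le_rfl hZ2'.1).congr h5⟩

variable (W) in
include hJ in
/-- the norm estimate on `D^∞` -/
lemma der_dNorm (p : ℝ≥0) (r : ℕ) : ∃ (p' : ℝ≥0) (r' : ℕ) (C : ℝ≥0), 1 < p' ∧ 1 ≤ r' ∧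
    ∀ F Z : Ω → ℝ, AEStronglyMeasurable F P → AEStronglyMeasurable Z P → IsDer W J F Z →
      dNorm W p r Z ≤ C * dNorm W p' r' F := by
  obtain ⟨p', r', C, h1, h2, h3, h4, hC, hext⟩ := der_ext W hJ (max p 2) (le_max_right _ _) r
  refine ⟨p', r', C + 1, h1, h2, fun F Z hF hZ hFZ => ?_⟩
  have hC0 : ((C + 1 : ℝ≥0) : ℝ≥0∞) ≠ 0 := by simp
  have hCt : ((C + 1 : ℝ≥0) : ℝ≥0∞) ≠ ∞ := ENNReal.coe_ne_top
  rw [mul_comm, ← ENNReal.div_le_iff_le_mul (Or.inl hC0) (Or.inl hCt)]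
  unfold dNorm
  refine le_iInf₂ fun u hu => ?_
  rw [ENNReal.div_le_iff_le_mul (Or.inl hC0) (Or.inl hCt)]
  obtain ⟨Z2, hZ2, hFZ2, hA⟩ := hext F u hF hu
  have h5 := IsDer.unique W hJ hF hZ2.1 hZ hFZ2 hFZ
  have hA2 : Approx W p r Z fun i => der J (u i) :=
    (hA.mono (le_max_left _ _) le_rfl hZ2.1).congr h5
  refine (iInf₂_le _ hA2).trans ?_
  rw [mul_comm, ← ENNReal.limsup_const_mul_of_ne_top hCt]
  refine limsup_le_limsup (Eventually.of_forall fun i => ?_)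
  refine ((sob_mono_p _ (le_max_left _ _) r).trans (hC (u i))).trans ?_
  refine mul_le_mul' ?_ le_rfl
  push_cast
  exact le_self_add

variable (W) in
lemma InDinf.mul {F G : Ω → ℝ} (hF : AEStronglyMeasurable F P) (hG : AEStronglyMeasurable G P)
    (hFD : InDinf W F) (hGD : InDinf W G) : InDinf W fun ω => F ω * G ω := by
  intro p hp r hr
  have h2p : 1 < 2 * p := hp.trans_le (le_mul_of_one_le_left zero_le one_le_two)
  obtain ⟨u, hu⟩ := hFD (2 * p) h2p r hr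
  obtain ⟨v, hv⟩ := hGD (2 * p) h2p r hr
  exact ⟨_, Approx.mul W hp.le hF hG hu hv⟩

variable (W) in
lemma InDinf.memLp {F : Ω → ℝ} (hF : AEStronglyMeasurable F P) (hFD : InDinf W F) (p : ℝ≥0) :
    MemLp F p P := by
  obtain ⟨u, hu⟩ := hFD (max p 2) (one_lt_two.trans_le (le_max_right _ _)) 1 le_rfl
  have h1 := memLp_of_tendsto (fun i => memLp_ev W (u i) (max p 2)) hF hu.2
  exact h1.mono_exponent (by exact_mod_cast le_max_left p 2)

variable (W) in
include hJ in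
/-- the Leibniz rule on `D^∞` -/
lemma IsDer.mul {F G Z Z' : Ω → ℝ} (hF : AEStronglyMeasurable F P)
    (hG : AEStronglyMeasurable G P) (hFD : InDinf W F) (hGD : InDinf W G)
    (hZ : AEStronglyMeasurable Z P) (hZ' : AEStronglyMeasurable Z' P)
    (hFZ : IsDer W J F Z) (hGZ : IsDer W J G Z') :
    IsDer W J (fun ω => F ω * G ω) (fun ω => F ω * Z' ω + G ω * Z ω) := by
  obtain ⟨p', r', C, h1, h2, h3, h4, hC, hext⟩ := der_ext W hJ (2 * 2)
    (le_mul_of_one_le_left zero_le one_le_two) 0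
  obtain ⟨u, hu⟩ := hFD p' h1 r' h2
  obtain ⟨v, hv⟩ := hGD p' h1 r' h2
  obtain ⟨Z1, hZ1, hFZ1, hA⟩ := hext F u hF hu
  obtain ⟨Z2, hZ2, hGZ2, hB⟩ := hext G v hG hv
  have e1 := IsDer.unique W hJ hF hZ1.1 hZ hFZ1 hFZ
  have e2 := IsDer.unique W hJ hG hZ2.1 hZ' hGZ2 hGZ
  have hA' := (hA.congr e1).2
  have hB' := (hB.congr e2).2
  have hu' := (hu.mono h3 (Nat.zero_le _) hF).2
  have hv' := (hv.mono h3 (Nat.zero_le _) hG).2
  have t1 := tendsto_mul_lim (p := 2) one_le_two (fun i => memLp_ev W (u i) _)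
    (fun i => memLp_ev W (v i) _) hF hG hu' hv'
  have t2 := tendsto_mul_lim (p := 2) one_le_two (fun i => memLp_ev W (u i) _)
    (fun i => memLp_ev W (der J (v i)) _) hF hZ' hu' hB'
  have t3 := tendsto_mul_lim (p := 2) one_le_two (fun i => memLp_ev W (v i) _)
    (fun i => memLp_ev W (der J (u i)) _) hG hZ hv' hA'
  refine ⟨fun i => u i * v i, ?_, ?_⟩
  · simp only [ev_mul]
    exact t1
  · have t4 := tendsto_add_lim (p := ((2 : ℝ≥0) : ℝ≥0∞)) (by norm_num)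
      (fun i => (aestronglyMeasurable_ev (u i)).mul (aestronglyMeasurable_ev (W := W) (der J (v i))))
      (fun i => (aestronglyMeasurable_ev (v i)).mul (aestronglyMeasurable_ev (W := W) (der J (u i))))
      (hF.mul hZ') (hG.mul hZ) t2 t3
    simp only [Derivation.leibniz, smul_eq_mul, ev_add, ev_mul]
    exact t4

/-- the derivation on `D^∞` -/
def dFun (F : Dinf W) : Ω → ℝ :=
  Classical.choose (exists_der W hJ F.meas F.prop)

lemma dFun_spec (F : Dinf W) : MemLp (dFun hJ F) 2 P ∧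
    IsDer W J F.fn (dFun hJ F) ∧ InDinf W (dFun hJ F) :=
  Classical.choose_spec (exists_der W hJ F.meas F.prop)

/-- the derivation on `D^∞` with values in `D^∞` -/
def dVal (F : Dinf W) : Dinf W := Dinf.of (dFun_spec hJ F).1.1 (dFun_spec hJ F).2.2

lemma isDer_dVal (F : Dinf W) : IsDer W J F.fn (dVal hJ F).fn :=
  (dFun_spec hJ F).2.1.congr EventuallyEq.rfl (Dinf.of_fn _ _).symm

include hJ in
lemma dVal_unique {F : Dinf W} {Z : Dinf W} (h : IsDer W J F.fn Z.fn) : dVal hJ F = Z :=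
  Dinf.ext_fn (IsDer.unique W hJ F.meas (dVal hJ F).meas Z.meas (isDer_dVal hJ F) h)

/-- the derivation on `D^∞` as a linear map -/
def delta : Dinf W →ₗ[ℝ] Dinf W where
  toFun F := dVal hJ F
  map_add' F G := by
    refine dVal_unique hJ ?_
    exact (IsDer.add F.meas G.meas (dVal hJ F).meas (dVal hJ G).meas
      (isDer_dVal hJ F) (isDer_dVal hJ G)).congr (Dinf.add_fn F G).symm
      (Dinf.add_fn (dVal hJ F) (dVal hJ G)).symm
  map_smul' c F := by
    refine dVal_unique hJ ?_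
    exact (IsDer.smul c (isDer_dVal hJ F)).congr (Dinf.smul_fn c F).symm
      (Dinf.smul_fn c (dVal hJ F)).symm

lemma isDer_delta (F : Dinf W) : IsDer W J F.fn (delta hJ F).fn := isDer_dVal hJ F

variable (W) in
/-- the Gaussian variables are in `D^∞` -/
def Dinf.gauss (h : H) : Dinf W :=
  Dinf.of (F := W h) (W.meas h).aestronglyMeasurable
    ((InDinf.ev W (X h)).congr (Eventually.of_forall fun ω => ev_X h ω))

lemma Dinf.gauss_fn (h : H) : (Dinf.gauss W h).fn =ᵐ[P] W h := Dinf.of_fn _ _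

lemma delta_gauss (h : H) : delta hJ (Dinf.gauss W h) = Dinf.gauss W (J h) := by
  refine dVal_unique hJ ?_
  refine IsDer.congr (F := W h) (Z := W (J h)) (Dinf.gauss_fn h).symm (Dinf.gauss_fn (J h)).symm
    ⟨fun _ => X h, ?_, ?_⟩
  · simp [ev_X]
  · simp [ev_X, der_X]

end

end Pool.Agent.Helper49.Mal
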