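import Pool.Agent.Helper49.Mal.Omega

open MeasureTheory ProbabilityTheory MvPolynomial Filter
open scoped ENNReal NNReal RealInnerProductSpace Topology

namespace Pool.Agent.Helper49.Mal

noncomputable section

set_option maxHeartbeats 400000

lemma eLpNorm_le_of_integral {α : Type*} [MeasurableSpace α] {μ : Measure α} {g : α → ℝ}
    (hg : ∀ x, 0 ≤ g x) {n : ℕ} (hn : n ≠ 0) (hm : MemLp g ((n : ℝ≥0) : ℝ≥0∞) μ) {a : ℝ}
    (ha : 0 ≤ a) (h : ∫ x, g x ^ n ∂μ ≤ a ^ n) : eLpNorm g ((n : ℝ≥0) : ℝ≥0∞) μ ≤ ENNReal.ofReal a := by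
  rw [hm.eLpNorm_eq_integral_rpow_norm (by simpa using hn) (by simp)]
  refine ENNReal.ofReal_le_ofReal ?_
  have h1 : (∫ x, ‖g x‖ ^ ((((n : ℝ≥0) : ℝ≥0∞)).toReal) ∂μ) = ∫ x, g x ^ n ∂μ := by
    refine integral_congr_ae (Eventually.of_forall fun x => ?_)
    simp only [ENNReal.coe_toReal, NNReal.coe_natCast, Real.rpow_natCast]
    rw [Real.norm_of_nonneg (hg x)]
  rw [h1]
  simp only [ENNReal.coe_toReal, NNReal.coe_natCast]
  calc (∫ x, g x ^ n ∂μ) ^ ((n : ℝ)⁻¹) ≤ (a ^ n) ^ ((n : ℝ)⁻¹) :=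
        Real.rpow_le_rpow (integral_nonneg fun x => pow_nonneg (hg x) n) h (by positivity)
    _ = a := Real.pow_rpow_inv_natCast ha hn

lemma integral_le_of_eLpNorm {α : Type*} [MeasurableSpace α] {μ : Measure α} {g : α → ℝ}
    (hg : ∀ x, 0 ≤ g x) {n : ℕ} (hn : n ≠ 0) (hm : MemLp g ((n : ℝ≥0) : ℝ≥0∞) μ) {a : ℝ}
    (ha : 0 ≤ a) (h : eLpNorm g ((n : ℝ≥0) : ℝ≥0∞) μ ≤ ENNReal.ofReal a) :
    ∫ x, g x ^ n ∂μ ≤ a ^ n := by
  rw [hm.eLpNorm_eq_integral_rpow_norm (by simpa using hn) (by simp),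
    ENNReal.ofReal_le_ofReal_iff ha] at h
  have h1 : (∫ x, ‖g x‖ ^ ((((n : ℝ≥0) : ℝ≥0∞)).toReal) ∂μ) = ∫ x, g x ^ n ∂μ := by
    refine integral_congr_ae (Eventually.of_forall fun x => ?_)
    simp only [ENNReal.coe_toReal, NNReal.coe_natCast, Real.rpow_natCast]
    rw [Real.norm_of_nonneg (hg x)]
  rw [h1] at h
  simp only [ENNReal.coe_toReal, NNReal.coe_natCast] at h
  have h0 : 0 ≤ ∫ x, g x ^ n ∂μ := integral_nonneg fun x => pow_nonneg (hg x) n
  calc ∫ x, g x ^ n ∂μ = ((∫ x, g x ^ n ∂μ) ^ ((n : ℝ)⁻¹)) ^ n :=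
        (Real.rpow_inv_natCast_pow h0 hn).symm
    _ ≤ a ^ n := pow_le_pow_left₀ (Real.rpow_nonneg h0 _) h n

variable {H : Type*} [NormedAddCommGroup H] [InnerProductSpace ℝ H]
  {Ω : Type*} [MeasurableSpace Ω] {P : Measure Ω} [IsProbabilityMeasure P]
  {W : Isonormal H P} {J : H →ₗ[ℝ] H} (hJ : IsJ J)

variable (W) in
include hJ in
lemma der_bound_single (m k : ℕ) (hm : m ≠ 0) : ∃ C : ℝ≥0, ∀ f : MvPolynomial H ℝ,
    eLpNorm (derivNorm W k (der J f)) (((2 * m : ℕ) : ℝ≥0) : ℝ≥0∞) P ≤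
      C * sob W ((4 * m : ℕ) : ℝ≥0) (4 * m + k) f := by
  obtain ⟨c, hc, h⟩ := rot_bound m k
  refine ⟨Real.toNNReal (1 + c), fun f => ?_⟩
  obtain ⟨d, e, he, hs, hs', hA, hder⟩ := exists_onb_J hJ f
  rw [eLpNorm_derivNorm W he hs' k (Finset.Subset.refl _), hder f]
  set s1 := sob W ((4 * m : ℕ) : ℝ≥0) (4 * m + k) f with hs1
  have hs1t : s1 ≠ ∞ := (sob_lt_top W f _ _).ne
  have hSle : eLpNorm (S (4 * m + k) (fun _ : Unit => cor e f)) (((4 * m : ℕ) : ℝ≥0) : ℝ≥0∞)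
      (gam (Fin d)) ≤ s1 := by
    have h1 : S (4 * m + k) (fun _ : Unit => cor e f) = ∑ k ∈ Finset.range (4 * m + k + 1),
        T k (fun _ : Unit => cor e f) := by
      funext x
      unfold S
      rw [Finset.sum_apply]
    rw [h1, hs1]
    unfold sob
    refine (eLpNorm_sum_le (fun k _ => (continuous_T k _).aestronglyMeasurable) ?_).trans ?_
    · have : 1 ≤ 4 * m := by omega
      exact_mod_cast this
    · refine Finset.sum_le_sum fun k _ => ?_
      rw [eLpNorm_derivNorm W he hs k (Finset.Subset.refl _)]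
  have hT := memLp_T k (fun _ : Unit => rot (matJ J e) (cor e f)) ((2 * m : ℕ) : ℝ≥0)
  have key : ∀ ε : ℝ, 0 < ε →
      eLpNorm (T k (fun _ : Unit => rot (matJ J e) (cor e f))) (((2 * m : ℕ) : ℝ≥0) : ℝ≥0∞)
        (gam (Fin d)) ≤ ENNReal.ofReal ((1 + c) * (s1.toReal + ε)) := by
    intro ε hε
    have hμ : 0 < s1.toReal + ε := by positivity
    have h1 := integral_le_of_eLpNorm (S_nonneg (4 * m + k) (fun _ : Unit => cor e f))
      (n := 4 * m) (by omega) (memLp_S _ _ _) hμ.le (hSle.trans (by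
        rw [← ENNReal.ofReal_toReal hs1t]
        exact ENNReal.ofReal_le_ofReal (by rw [ENNReal.ofReal_toReal hs1t]; linarith)))
    have h2 := h (Fin d) (matJ J e) hA Unit (fun _ => cor e f) _ hμ h1
    refine eLpNorm_le_of_integral (T_nonneg k _) (by omega) hT (by positivity) (h2.trans ?_)
    rw [mul_pow]
    refine mul_le_mul_of_nonneg_right ?_ (by positivity)
    calc c ≤ 1 + c := by linarith
      _ = (1 + c) ^ 1 := (pow_one _).symm
      _ ≤ (1 + c) ^ (2 * m) := pow_le_pow_right₀ (by linarith) (by omega)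
  have hfin : eLpNorm (T k (fun _ : Unit => rot (matJ J e) (cor e f)))
      (((2 * m : ℕ) : ℝ≥0) : ℝ≥0∞) (gam (Fin d)) ≠ ∞ := hT.2.ne
  have key2 : (eLpNorm (T k (fun _ : Unit => rot (matJ J e) (cor e f)))
      (((2 * m : ℕ) : ℝ≥0) : ℝ≥0∞) (gam (Fin d))).toReal ≤ (1 + c) * s1.toReal := by
    refine le_of_forall_pos_le_add fun ε hε => ?_
    have h1 := key (ε / (1 + c)) (by positivity)
    have h2 := ENNReal.toReal_le_of_le_ofReal (by positivity) h1
    refine h2.trans (le_of_eq ?_)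
    field_simp
  rw [← ENNReal.ofReal_toReal hfin]
  refine (ENNReal.ofReal_le_ofReal key2).trans (le_of_eq ?_)
  rw [ENNReal.ofReal_mul (by positivity), ENNReal.ofReal_toReal hs1t]
  rfl

variable (W) in
include hJ in
/-- continuity of the derivation on smooth functionals -/
theorem der_bound (p : ℝ≥0) (r : ℕ) : ∃ (p' : ℝ≥0) (r' : ℕ) (C : ℝ≥0), 1 < p' ∧ 1 ≤ r' ∧
    p ≤ p' ∧ r ≤ r' ∧ ∀ f : MvPolynomial H ℝ, sob W p r (der J f) ≤ C * sob W p' r' f := by
  obtain ⟨m, hm, hpm⟩ : ∃ m : ℕ, m ≠ 0 ∧ p ≤ ((2 * m : ℕ) : ℝ≥0) := by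
    obtain ⟨n, hn⟩ := exists_nat_ge p
    refine ⟨n + 1, by omega, hn.trans ?_⟩
    exact_mod_cast (by omega : n ≤ 2 * (n + 1))
  choose C hC using fun k => der_bound_single W hJ m k hm
  refine ⟨((4 * m : ℕ) : ℝ≥0), 4 * m + r, ∑ k ∈ Finset.range (r + 1), C k, ?_, by omega, ?_,
    by omega, fun f => ?_⟩
  · exact_mod_cast (by omega : 1 < 4 * m)
  · refine hpm.trans ?_
    exact_mod_cast (by omega : 2 * m ≤ 4 * m)
  · rw [ENNReal.coe_finsetSum, Finset.sum_mul]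
    refine Finset.sum_le_sum fun k hk => ?_
    refine (eLpNorm_le_eLpNorm_of_exponent_le (by exact_mod_cast hpm)
      (aestronglyMeasurable_derivNorm k _)).trans ((hC k f).trans ?_)
    refine mul_le_mul_right ?_ _
    exact sob_mono_r f _ (by have := Finset.mem_range.1 hk; omega)

variable (W) in
include hJ in
lemma integral_der (f : MvPolynomial H ℝ) : ∫ ω, ev W (der J f) ω ∂P = 0 := by
  obtain ⟨d, e, he, hs, hs', hA, hder⟩ := exists_onb_J hJ f
  rw [integral_congr_ae (ev_ae (W := W) hs' (Finset.Subset.refl _)),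
    integral_gc W he (MvPolynomial.continuous_eval _), hder f]
  exact ex_rot hA _

lemma ev_mul (f g : MvPolynomial H ℝ) (ω : Ω) : ev W (f * g) ω = ev W f ω * ev W g ω := by
  unfold ev; rw [map_mul]

lemma ev_add (f g : MvPolynomial H ℝ) (ω : Ω) : ev W (f + g) ω = ev W f ω + ev W g ω := by
  unfold ev; rw [map_add]

lemma ev_sub (f g : MvPolynomial H ℝ) (ω : Ω) : ev W (f - g) ω = ev W f ω - ev W g ω := by
  unfold ev; rw [map_sub]

lemma ev_smul (c : ℝ) (f : MvPolynomial H ℝ) (ω : Ω) : ev W (c • f) ω = c * ev W f ω := by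
  unfold ev; rw [MvPolynomial.smul_eq_C_mul, map_mul, eval_C]

lemma ev_X (h : H) (ω : Ω) : ev W (X h) ω = W h ω := by
  unfold ev; rw [eval_X]

variable (W) in
lemma integrable_ev_mul (f g : MvPolynomial H ℝ) :
    Integrable (fun ω => ev W f ω * ev W g ω) P := by
  have h := memLp_ev W (f * g) 1
  rw [ENNReal.coe_one, memLp_one_iff_integrable] at h
  exact h.congr (Eventually.of_forall fun ω => ev_mul f g ω)

variable (W) in
include hJ in
/-- the derivation is antisymmetric in `L²` -/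
lemma integral_der_anti (f g : MvPolynomial H ℝ) :
    ∫ ω, ev W (der J f) ω * ev W g ω ∂P = -∫ ω, ev W f ω * ev W (der J g) ω ∂P := by
  have h := integral_der W hJ (f * g)
  rw [Derivation.leibniz] at h
  have h2 : ∀ ω, ev W (f • der J g + g • der J f) ω =
      ev W f ω * ev W (der J g) ω + ev W (der J f) ω * ev W g ω := by
    intro ω
    simp only [smul_eq_mul, ev_add, ev_mul]
    ring
  simp only [h2] at h
  rw [integral_add (integrable_ev_mul W _ _) (integrable_ev_mul W _ _)] at h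
  linarith

end

end Pool.Agent.Helper49.Mal
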