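import Pool.Agent.Helper49.Mal.DerBound

open MeasureTheory ProbabilityTheory MvPolynomial Filter
open scoped ENNReal NNReal RealInnerProductSpace Topology

namespace Pool.Agent.Helper49.Mal

noncomputable section

set_option maxHeartbeats 400000

section general

variable {Ω : Type*} [MeasurableSpace Ω] {P : Measure Ω}

lemma exists_limit {p : ℝ≥0} (hp : 1 ≤ p) (f : ℕ → Ω → ℝ) (hf : ∀ i, MemLp (f i) p P)
    (hc : ∀ ε : ℝ≥0∞, 0 < ε → ∃ N, ∀ i ≥ N, ∀ j ≥ N, eLpNorm (fun ω => f i ω - f j ω) p P ≤ ε) :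
    ∃ Z : Ω → ℝ, MemLp Z p P ∧
      Tendsto (fun i => eLpNorm (fun ω => f i ω - Z ω) p P) atTop (𝓝 0) := by
  haveI : Fact ((1 : ℝ≥0∞) ≤ (p : ℝ≥0∞)) := ⟨by exact_mod_cast hp⟩
  have h1 : CauchySeq fun i => (hf i).toLp (f i) := by
    rw [EMetric.cauchySeq_iff]
    intro ε hε
    obtain ⟨N, hN⟩ := hc (min (ε / 2) 1) (lt_min (ENNReal.half_pos hε.ne') one_pos)
    refine ⟨N, fun i hi j hj => ?_⟩
    rw [Lp.edist_toLp_toLp]
    rcases eq_or_ne ε ∞ with h | h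
    · rw [h]
      exact ((hN i hi j hj).trans (min_le_right _ _)).trans_lt ENNReal.one_lt_top
    · exact ((hN i hi j hj).trans (min_le_left _ _)).trans_lt (ENNReal.half_lt_self hε.ne' h)
  obtain ⟨Z, hZ⟩ := cauchySeq_tendsto_of_complete h1
  refine ⟨Z, Lp.memLp Z, ?_⟩
  have h2 := (Lp.tendsto_Lp_iff_tendsto_eLpNorm' _ _).1 hZ
  refine h2.congr fun i => ?_
  refine eLpNorm_congr_ae ?_
  filter_upwards [(hf i).coeFn_toLp] with ω hω
  simp only [Pi.sub_apply, hω]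

lemma memLp_of_tendsto {p : ℝ≥0∞} {f : ℕ → Ω → ℝ} (hf : ∀ i, MemLp (f i) p P) {Z : Ω → ℝ}
    (hZ : AEStronglyMeasurable Z P)
    (h : Tendsto (fun i => eLpNorm (fun ω => f i ω - Z ω) p P) atTop (𝓝 0)) : MemLp Z p P := by
  have h1 := (ENNReal.tendsto_nhds_zero.1 h) 1 one_pos
  obtain ⟨i, hi⟩ := h1.exists
  have h2 : MemLp (fun ω => f i ω - Z ω) p P :=
    ⟨(hf i).1.sub hZ, hi.trans_lt ENNReal.one_lt_top⟩
  have h3 := (hf i).sub h2
  refine h3.ae_eq (Eventually.of_forall fun ω => ?_)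
  simp

lemma tendsto_mono_p [IsProbabilityMeasure P] {p q : ℝ≥0∞} (hpq : p ≤ q) {f : ℕ → Ω → ℝ}
    (hf : ∀ i, AEStronglyMeasurable (f i) P)
    (h : Tendsto (fun i => eLpNorm (f i) q P) atTop (𝓝 0)) :
    Tendsto (fun i => eLpNorm (f i) p P) atTop (𝓝 0) :=
  tendsto_of_tendsto_of_tendsto_of_le_of_le tendsto_const_nhds h (fun _ => zero_le)
    fun i => eLpNorm_le_eLpNorm_of_exponent_le hpq (hf i)

lemma tendsto_unique_lim {p : ℝ≥0∞} (hp : 1 ≤ p) {f : ℕ → Ω → ℝ}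
    (hf : ∀ i, AEStronglyMeasurable (f i) P) {Z Z' : Ω → ℝ} (hZ : AEStronglyMeasurable Z P)
    (hZ' : AEStronglyMeasurable Z' P)
    (h : Tendsto (fun i => eLpNorm (fun ω => f i ω - Z ω) p P) atTop (𝓝 0))
    (h' : Tendsto (fun i => eLpNorm (fun ω => f i ω - Z' ω) p P) atTop (𝓝 0)) : Z =ᵐ[P] Z' := by
  have h1 : eLpNorm (fun ω => Z ω - Z' ω) p P ≤ 0 := by
    have h2 := h.add h'
    rw [add_zero] at h2
    refine ge_of_tendsto' h2 fun i => ?_
    have h3 : (fun ω => Z ω - Z' ω) = (-(fun ω => f i ω - Z ω)) + fun ω => f i ω - Z' ω := by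
      funext ω
      simp only [Pi.add_apply, Pi.neg_apply]
      ring
    rw [h3]
    refine (eLpNorm_add_le ((hf i).sub hZ).neg ((hf i).sub hZ') hp).trans ?_
    rw [eLpNorm_neg]
    exact le_rfl
  have h4 := (eLpNorm_eq_zero_iff (hZ.sub hZ') (by
    intro h0; rw [h0] at hp; exact absurd hp (by norm_num))).1 (le_antisymm h1 zero_le)
  filter_upwards [h4] with ω hω
  have : Z ω - Z' ω = 0 := hω
  linarith

lemma tendsto_add_lim {p : ℝ≥0∞} (hp : 1 ≤ p) {f g : ℕ → Ω → ℝ}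
    (hf : ∀ i, AEStronglyMeasurable (f i) P) (hg : ∀ i, AEStronglyMeasurable (g i) P)
    {Z Z' : Ω → ℝ} (hZ : AEStronglyMeasurable Z P) (hZ' : AEStronglyMeasurable Z' P)
    (h : Tendsto (fun i => eLpNorm (fun ω => f i ω - Z ω) p P) atTop (𝓝 0))
    (h' : Tendsto (fun i => eLpNorm (fun ω => g i ω - Z' ω) p P) atTop (𝓝 0)) :
    Tendsto (fun i => eLpNorm (fun ω => (f i ω + g i ω) - (Z ω + Z' ω)) p P) atTop (𝓝 0) := by
  have h2 := h.add h'
  rw [add_zero] at h2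
  refine tendsto_of_tendsto_of_tendsto_of_le_of_le tendsto_const_nhds h2 (fun _ => zero_le)
    fun i => ?_
  have h3 : (fun ω => (f i ω + g i ω) - (Z ω + Z' ω)) =
      (fun ω => f i ω - Z ω) + fun ω => g i ω - Z' ω := by
    funext ω
    simp only [Pi.add_apply]
    ring
  simp only [h3]
  exact eLpNorm_add_le ((hf i).sub hZ) ((hg i).sub hZ') hp

lemma tendsto_smul_lim {p : ℝ≥0∞} (c : ℝ) {f : ℕ → Ω → ℝ} {Z : Ω → ℝ}
    (h : Tendsto (fun i => eLpNorm (fun ω => f i ω - Z ω) p P) atTop (𝓝 0)) :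
    Tendsto (fun i => eLpNorm (fun ω => c * f i ω - c * Z ω) p P) atTop (𝓝 0) := by
  have h2 : Tendsto (fun i => ‖c‖ₑ * eLpNorm (fun ω => f i ω - Z ω) p P) atTop (𝓝 0) := by
    have := ENNReal.Tendsto.const_mul h (a := ‖c‖ₑ) (Or.inr enorm_ne_top)
    rwa [mul_zero] at this
  refine h2.congr fun i => ?_
  rw [← eLpNorm_const_smul]
  refine eLpNorm_congr_ae (Eventually.of_forall fun ω => ?_)
  simp only [Pi.smul_apply, smul_eq_mul]
  ring

/-- products of convergent sequences -/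
lemma tendsto_mul_lim {p : ℝ≥0} (hp : 1 ≤ p) {f g : ℕ → Ω → ℝ}
    (hf : ∀ i, MemLp (f i) (2 * p : ℝ≥0) P) (hg : ∀ i, MemLp (g i) (2 * p : ℝ≥0) P)
    {Z Z' : Ω → ℝ} (hZ : AEStronglyMeasurable Z P) (hZ' : AEStronglyMeasurable Z' P)
    (h : Tendsto (fun i => eLpNorm (fun ω => f i ω - Z ω) (2 * p : ℝ≥0) P) atTop (𝓝 0))
    (h' : Tendsto (fun i => eLpNorm (fun ω => g i ω - Z' ω) (2 * p : ℝ≥0) P) atTop (𝓝 0)) :
    Tendsto (fun i => eLpNorm (fun ω => f i ω * g i ω - Z ω * Z' ω) p P) atTop (𝓝 0) := by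
  have hZm := memLp_of_tendsto hf hZ h
  have hZm' := memLp_of_tendsto hg hZ' h'
  have h2p : (1 : ℝ≥0∞) ≤ ((2 * p : ℝ≥0) : ℝ≥0∞) := by
    have : (1 : ℝ≥0) ≤ 2 * p := hp.trans (le_mul_of_one_le_left zero_le one_le_two)
    exact_mod_cast this
  have hb : ∀ i, eLpNorm (fun ω => f i ω * g i ω - Z ω * Z' ω) p P ≤
      eLpNorm (fun ω => f i ω - Z ω) (2 * p : ℝ≥0) P *
        (eLpNorm (fun ω => g i ω - Z' ω) (2 * p : ℝ≥0) P + eLpNorm Z' (2 * p : ℝ≥0) P) +
      eLpNorm Z (2 * p : ℝ≥0) P * eLpNorm (fun ω => g i ω - Z' ω) (2 * p : ℝ≥0) P := by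
    intro i
    have h3 : (fun ω => f i ω * g i ω - Z ω * Z' ω) =
        (fun ω => (f i ω - Z ω) * g i ω) + fun ω => Z ω * (g i ω - Z' ω) := by
      funext ω
      simp only [Pi.add_apply]
      ring
    rw [h3]
    refine (eLpNorm_add_le (((hf i).1.sub hZ).mul (hg i).1) (hZ.mul ((hg i).1.sub hZ'))
      (by exact_mod_cast hp)).trans ?_
    refine add_le_add ((eLpNorm_mul_two ((hf i).1.sub hZ) (hg i).1 p).trans ?_)
      (eLpNorm_mul_two hZ ((hg i).1.sub hZ') p)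
    refine mul_le_mul_right ?_ _
    have h4 : g i = (fun ω => g i ω - Z' ω) + Z' := by
      funext ω
      simp
    conv_lhs => rw [h4]
    exact eLpNorm_add_le ((hg i).1.sub hZ') hZ' h2p
  have h5 : Tendsto (fun i => eLpNorm (fun ω => f i ω - Z ω) (2 * p : ℝ≥0) P *
        (eLpNorm (fun ω => g i ω - Z' ω) (2 * p : ℝ≥0) P + eLpNorm Z' (2 * p : ℝ≥0) P) +
      eLpNorm Z (2 * p : ℝ≥0) P * eLpNorm (fun ω => g i ω - Z' ω) (2 * p : ℝ≥0) P) atTop
      (𝓝 0) := by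
    have e1 : Tendsto (fun i => eLpNorm (fun ω => f i ω - Z ω) (2 * p : ℝ≥0) P *
        (eLpNorm (fun ω => g i ω - Z' ω) (2 * p : ℝ≥0) P + eLpNorm Z' (2 * p : ℝ≥0) P)) atTop
        (𝓝 (0 * (0 + eLpNorm Z' (2 * p : ℝ≥0) P))) := by
      refine ENNReal.Tendsto.mul h (Or.inr (by rw [zero_add]; exact hZm'.2.ne))
        (h'.add tendsto_const_nhds) (Or.inr (by simp))
    have e2 : Tendsto (fun i => eLpNorm Z (2 * p : ℝ≥0) P *
        eLpNorm (fun ω => g i ω - Z' ω) (2 * p : ℝ≥0) P) atTop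
        (𝓝 (eLpNorm Z (2 * p : ℝ≥0) P * 0)) :=
      ENNReal.Tendsto.const_mul h' (Or.inr hZm.2.ne)
    have e3 := e1.add e2
    simpa using e3
  exact tendsto_of_tendsto_of_tendsto_of_le_of_le tendsto_const_nhds h5 (fun _ => zero_le) hb

end general

variable {H : Type*} [NormedAddCommGroup H] [InnerProductSpace ℝ H]
  {Ω : Type*} [MeasurableSpace Ω] {P : Measure Ω}
  {W : Isonormal H P} {J : H →ₗ[ℝ] H}

lemma Approx.congr {p : ℝ≥0} {r : ℕ} {F F' : Ω → ℝ} (h : F =ᵐ[P] F') {u : ℕ → MvPolynomial H ℝ}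
    (hu : Approx W p r F u) : Approx W p r F' u := by
  refine ⟨hu.1, hu.2.congr fun i => eLpNorm_congr_ae ?_⟩
  filter_upwards [h] with ω hω
  rw [hω]

lemma InDinf.congr {F F' : Ω → ℝ} (h : F =ᵐ[P] F') (hF : InDinf W F) : InDinf W F' :=
  fun p hp r hr => (hF p hp r hr).imp fun _ hu => hu.congr h

variable [IsProbabilityMeasure P] (hJ : IsJ J)

lemma Approx.mono {p p' : ℝ≥0} (hp : p ≤ p') {r r' : ℕ} (hr : r ≤ r') {F : Ω → ℝ}
    (hF : AEStronglyMeasurable F P) {u : ℕ → MvPolynomial H ℝ}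
    (hu : Approx W p' r' F u) : Approx W p r F u := by
  refine ⟨fun ε hε => ?_, ?_⟩
  · obtain ⟨N, hN⟩ := hu.1 ε hε
    exact ⟨N, fun i hi j hj => ((sob_mono_p _ hp r).trans (sob_mono_r _ p' hr)).trans
      (hN i hi j hj)⟩
  · exact tendsto_mono_p (by exact_mod_cast hp)
      (fun i => (aestronglyMeasurable_ev (u i)).sub hF) hu.2

variable (W) in
lemma sob_zero (p : ℝ≥0) (r : ℕ) : sob W p r 0 = 0 := by
  have := sob_smul W 0 (0 : MvPolynomial H ℝ) p r
  simpa using this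

variable (W) in
lemma Approx.const (f : MvPolynomial H ℝ) (p : ℝ≥0) (r : ℕ) :
    Approx W p r (ev W f) fun _ => f := by
  refine ⟨fun ε hε => ⟨0, fun i _ j _ => ?_⟩, ?_⟩
  · rw [sub_self, sob_zero W]
    exact zero_le
  · simp

variable (W) in
lemma InDinf.ev (f : MvPolynomial H ℝ) : InDinf W (ev W f) :=
  fun p _ r _ => ⟨_, Approx.const W f p r⟩

variable (W) in
lemma Approx.add {p : ℝ≥0} (hp : 1 ≤ p) {r : ℕ} {F G : Ω → ℝ} (hF : AEStronglyMeasurable F P)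
    (hG : AEStronglyMeasurable G P) {u v : ℕ → MvPolynomial H ℝ}
    (hu : Approx W p r F u) (hv : Approx W p r G v) :
    Approx W p r (fun ω => F ω + G ω) fun i => u i + v i := by
  refine ⟨fun ε hε => ?_, ?_⟩
  · obtain ⟨N, hN⟩ := hu.1 (ε / 2) (ENNReal.half_pos hε.ne')
    obtain ⟨M, hM⟩ := hv.1 (ε / 2) (ENNReal.half_pos hε.ne')
    refine ⟨max N M, fun i hi j hj => ?_⟩
    have h1 : u i + v i - (u j + v j) = (u i - u j) + (v i - v j) := by ring
    rw [h1]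
    refine (sob_add W _ _ hp r).trans ?_
    rw [← ENNReal.add_halves ε]
    exact add_le_add (hN i (le_of_max_le_left hi) j (le_of_max_le_left hj))
      (hM i (le_of_max_le_right hi) j (le_of_max_le_right hj))
  · simp only [ev_add]
    exact tendsto_add_lim (by exact_mod_cast hp) (fun i => aestronglyMeasurable_ev _)
      (fun i => aestronglyMeasurable_ev _) hF hG hu.2 hv.2

variable (W) in
lemma Approx.smul (c : ℝ) {p : ℝ≥0} {r : ℕ} {F : Ω → ℝ}
    {u : ℕ → MvPolynomial H ℝ} (hu : Approx W p r F u) :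
    Approx W p r (fun ω => c * F ω) fun i => c • u i := by
  refine ⟨fun ε hε => ?_, ?_⟩
  · rcases eq_or_ne c 0 with h | h
    · subst h
      refine ⟨0, fun i _ j _ => ?_⟩
      simp only [zero_smul, sub_self, sob_zero W]
      exact zero_le
    · have hc : ‖c‖ₑ ≠ 0 := by simpa using h
      obtain ⟨N, hN⟩ := hu.1 (ε / ‖c‖ₑ) (ENNReal.div_pos hε.ne' enorm_ne_top)
      refine ⟨N, fun i hi j hj => ?_⟩
      rw [← smul_sub, sob_smul W]
      refine (mul_le_mul_right (hN i hi j hj) _).trans ?_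
      exact ENNReal.mul_div_le
  · simp only [ev_smul]
    exact tendsto_smul_lim c hu.2

variable (W) in
lemma Approx.bdd {p : ℝ≥0} (hp : 1 ≤ p) {r : ℕ} {F : Ω → ℝ}
    {u : ℕ → MvPolynomial H ℝ} (hu : Approx W p r F u) :
    ∃ M : ℝ≥0∞, M ≠ ∞ ∧ ∃ N, ∀ i ≥ N, sob W p r (u i) ≤ M := by
  obtain ⟨N, hN⟩ := hu.1 1 one_pos
  refine ⟨1 + sob W p r (u N), ENNReal.add_ne_top.2 ⟨ENNReal.one_ne_top,
    (sob_lt_top W _ _ _).ne⟩, N, fun i hi => ?_⟩
  have h1 : u i = (u i - u N) + u N := by ring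
  conv_lhs => rw [h1]
  exact (sob_add W _ _ hp r).trans (add_le_add (hN i hi N le_rfl) le_rfl)

variable (W) in
lemma Approx.mul {p : ℝ≥0} (hp : 1 ≤ p) {r : ℕ} {F G : Ω → ℝ} (hF : AEStronglyMeasurable F P)
    (hG : AEStronglyMeasurable G P) {u v : ℕ → MvPolynomial H ℝ}
    (hu : Approx W (2 * p) r F u) (hv : Approx W (2 * p) r G v) :
    Approx W p r (fun ω => F ω * G ω) fun i => u i * v i := by
  have h2p : (1 : ℝ≥0) ≤ 2 * p := hp.trans (le_mul_of_one_le_left zero_le one_le_two)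
  refine ⟨fun ε hε => ?_, ?_⟩
  · obtain ⟨M1, hM1, N1, hN1⟩ := hu.bdd W h2p
    obtain ⟨M2, hM2, N2, hN2⟩ := hv.bdd W h2p
    set K : ℝ≥0∞ := (((r + 1) * 2 ^ r : ℕ) : ℝ≥0∞) with hK
    set M : ℝ≥0∞ := K * (M1 + M2) + 1 with hM
    have hMt : M ≠ ∞ := by
      rw [hM]
      exact ENNReal.add_ne_top.2 ⟨ENNReal.mul_ne_top (ENNReal.natCast_ne_top _)
        (ENNReal.add_ne_top.2 ⟨hM1, hM2⟩), ENNReal.one_ne_top⟩
    have hM0 : M ≠ 0 := by rw [hM]; simp
    have hε' : 0 < ε / M / 2 := ENNReal.half_pos (ENNReal.div_pos hε.ne' hMt).ne'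
    obtain ⟨N3, hN3⟩ := hu.1 _ hε'
    obtain ⟨N4, hN4⟩ := hv.1 _ hε'
    refine ⟨max (max N1 N2) (max N3 N4), fun i hi j hj => ?_⟩
    have hi1 : i ≥ N1 := (le_max_left _ _).trans ((le_max_left _ _).trans hi)
    have hi2 : i ≥ N2 := (le_max_right _ _).trans ((le_max_left _ _).trans hi)
    have hi3 : i ≥ N3 := (le_max_left _ _).trans ((le_max_right _ _).trans hi)
    have hi4 : i ≥ N4 := (le_max_right _ _).trans ((le_max_right _ _).trans hi)
    have hj1 : j ≥ N1 := (le_max_left _ _).trans ((le_max_left _ _).trans hj)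
    have hj3 : j ≥ N3 := (le_max_left _ _).trans ((le_max_right _ _).trans hj)
    have hj4 : j ≥ N4 := (le_max_right _ _).trans ((le_max_right _ _).trans hj)
    have h1 : u i * v i - u j * v j = (u i - u j) * v i + u j * (v i - v j) := by ring
    rw [h1]
    refine (sob_add W _ _ hp r).trans ?_
    have e1 : sob W p r ((u i - u j) * v i) ≤ K * ((ε / M / 2) * M2) :=
      (sob_mul W _ _ hp r).trans (mul_le_mul_right (mul_le_mul' (hN3 i hi3 j hj3) (hN2 i hi2)) _)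
    have e2 : sob W p r (u j * (v i - v j)) ≤ K * (M1 * (ε / M / 2)) :=
      (sob_mul W _ _ hp r).trans (mul_le_mul_right (mul_le_mul' (hN1 j hj1) (hN4 i hi4 j hj4)) _)
    refine (add_le_add e1 e2).trans ?_
    calc K * ((ε / M / 2) * M2) + K * (M1 * (ε / M / 2)) = (ε / M / 2) * (K * (M1 + M2)) := by ring
      _ ≤ (ε / M) * M := by
          refine mul_le_mul' ENNReal.half_le_self ?_
          rw [hM]
          exact le_self_add
      _ = ε := ENNReal.div_mul_cancel hM0 hMt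
  · simp only [ev_mul]
    exact tendsto_mul_lim hp (fun i => memLp_ev W _ _) (fun i => memLp_ev W _ _) hF hG hu.2 hv.2

/-- `Z` is the image of `F` under the closure of the derivation -/
def IsDer (W : Isonormal H P) (J : H →ₗ[ℝ] H) (F Z : Ω → ℝ) : Prop :=
  ∃ u : ℕ → MvPolynomial H ℝ,
    Tendsto (fun i => eLpNorm (fun ω => ev W (u i) ω - F ω) 2 P) atTop (𝓝 0) ∧
    Tendsto (fun i => eLpNorm (fun ω => ev W (der J (u i)) ω - Z ω) 2 P) atTop (𝓝 0)

variable (W) in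
lemma memLp_ev_two (f : MvPolynomial H ℝ) : MemLp (ev W f) 2 P := by
  have := memLp_ev W f 2
  exact_mod_cast this

variable (W) in
/-- the class of a smooth functional in `L²` -/
def evL (f : MvPolynomial H ℝ) : Lp ℝ 2 P := (memLp_ev_two W f).toLp _

variable (W) in
lemma evL_sub (f g : MvPolynomial H ℝ) : evL W (f - g) = evL W f - evL W g := by
  unfold evL
  rw [← MemLp.toLp_sub]
  congr 1
  funext ω
  exact ev_sub f g ω

variable (W) in
lemma tendsto_evL {u : ℕ → MvPolynomial H ℝ} {F : Ω → ℝ} (hF : MemLp F 2 P) :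
    Tendsto (fun i => evL W (u i)) atTop (𝓝 (hF.toLp F)) ↔
      Tendsto (fun i => eLpNorm (fun ω => ev W (u i) ω - F ω) 2 P) atTop (𝓝 0) :=
  Lp.tendsto_Lp_iff_tendsto_eLpNorm'' _ _ _ _

variable (W) in
include hJ in
lemma inner_evL_der (f g : MvPolynomial H ℝ) :
    ⟪evL W (der J f), evL W g⟫ = -⟪evL W f, evL W (der J g)⟫ := by
  have h := integral_der_anti W hJ f g
  have h1 : ∀ a b : MvPolynomial H ℝ, ⟪evL W a, evL W b⟫ = ∫ ω, ev W a ω * ev W b ω ∂P := by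
    intro a b
    rw [L2.inner_def]
    refine integral_congr_ae ?_
    filter_upwards [(memLp_ev_two W a).coeFn_toLp, (memLp_ev_two W b).coeFn_toLp] with ω ha hb
    unfold evL
    rw [ha, hb]
    simp [mul_comm]
  rw [h1, h1, h]

variable (W) in
include hJ in
/-- uniqueness -/
lemma IsDer.unique {F Z Z' : Ω → ℝ} (hF : AEStronglyMeasurable F P)
    (hZ : AEStronglyMeasurable Z P) (hZ' : AEStronglyMeasurable Z' P)
    (h : IsDer W J F Z) (h' : IsDer W J F Z') : Z =ᵐ[P] Z' := by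
  obtain ⟨u, hu1, hu2⟩ := h
  obtain ⟨v, hv1, hv2⟩ := h'
  have mF : MemLp F 2 P := memLp_of_tendsto (fun i => memLp_ev_two W _) hF hu1
  have mZ : MemLp Z 2 P := memLp_of_tendsto (fun i => memLp_ev_two W _) hZ hu2
  have mZ' : MemLp Z' 2 P := memLp_of_tendsto (fun i => memLp_ev_two W _) hZ' hv2
  have a1 := (tendsto_evL W mF).2 hu1
  have a2 := (tendsto_evL W mZ).2 hu2
  have a3 := (tendsto_evL W mF).2 hv1
  have a4 := (tendsto_evL W mZ').2 hv2
  set Y : Lp ℝ 2 P := mZ.toLp Z - mZ'.toLp Z' with hY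
  have b1 : Tendsto (fun i => evL W (u i - v i)) atTop (𝓝 0) := by
    have := a1.sub a3
    rw [sub_self] at this
    refine this.congr fun i => ?_
    rw [evL_sub]
  have b2 : Tendsto (fun i => evL W (der J (u i - v i))) atTop (𝓝 Y) := by
    refine (a2.sub a4).congr fun i => ?_
    rw [map_sub, evL_sub]
  have c1 : ∀ g : MvPolynomial H ℝ, ⟪Y, evL W g⟫ = 0 := by
    intro g
    have d1 : Tendsto (fun i => ⟪evL W (der J (u i - v i)), evL W g⟫) atTop
        (𝓝 ⟪Y, evL W g⟫) := b2.inner tendsto_const_nhds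
    have d2 : Tendsto (fun i => ⟪evL W (der J (u i - v i)), evL W g⟫) atTop (𝓝 0) := by
      have d3 : Tendsto (fun i => -⟪evL W (u i - v i), evL W (der J g)⟫) atTop
          (𝓝 (-⟪(0 : Lp ℝ 2 P), evL W (der J g)⟫)) := (b1.inner tendsto_const_nhds).neg
      rw [inner_zero_left, neg_zero] at d3
      exact d3.congr fun i => (inner_evL_der W hJ _ _).symm
    exact tendsto_nhds_unique d1 d2
  have c2 : ⟪Y, Y⟫ = 0 := by
    have d1 : Tendsto (fun i => ⟪Y, evL W (der J (u i - v i))⟫) atTop (𝓝 ⟪Y, Y⟫) :=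
      tendsto_const_nhds.inner b2
    refine tendsto_nhds_unique d1 ?_
    simp only [c1]
    exact tendsto_const_nhds
  have c3 : mZ.toLp Z = mZ'.toLp Z' := sub_eq_zero.1 (inner_self_eq_zero.1 c2)
  exact (MemLp.toLp_eq_toLp_iff mZ mZ').1 c3

lemma IsDer.add {F F' Z Z' : Ω → ℝ} (hF : AEStronglyMeasurable F P)
    (hF' : AEStronglyMeasurable F' P)
    (hZ : AEStronglyMeasurable Z P) (hZ' : AEStronglyMeasurable Z' P)
    (h : IsDer W J F Z) (h' : IsDer W J F' Z') :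
    IsDer W J (fun ω => F ω + F' ω) (fun ω => Z ω + Z' ω) := by
  obtain ⟨u, hu1, hu2⟩ := h
  obtain ⟨v, hv1, hv2⟩ := h'
  refine ⟨fun i => u i + v i, ?_, ?_⟩
  · simp only [ev_add]
    exact tendsto_add_lim one_le_two (fun i => aestronglyMeasurable_ev _)
      (fun i => aestronglyMeasurable_ev _) hF hF' hu1 hv1
  · simp only [map_add, ev_add]
    exact tendsto_add_lim one_le_two (fun i => aestronglyMeasurable_ev _)
      (fun i => aestronglyMeasurable_ev _) hZ hZ' hu2 hv2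

lemma IsDer.smul (c : ℝ) {F Z : Ω → ℝ} (h : IsDer W J F Z) :
    IsDer W J (fun ω => c * F ω) (fun ω => c * Z ω) := by
  obtain ⟨u, hu1, hu2⟩ := h
  refine ⟨fun i => c • u i, ?_, ?_⟩
  · simp only [ev_smul]
    exact tendsto_smul_lim c hu1
  · simp only [Derivation.map_smul, ev_smul]
    exact tendsto_smul_lim c hu2

omit [IsProbabilityMeasure P] in
lemma IsDer.congr {F F' Z Z' : Ω → ℝ} (hF : F =ᵐ[P] F') (hZ : Z =ᵐ[P] Z')
    (h : IsDer W J F Z) : IsDer W J F' Z' := by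
  obtain ⟨u, hu1, hu2⟩ := h
  refine ⟨u, hu1.congr fun i => eLpNorm_congr_ae ?_, hu2.congr fun i => eLpNorm_congr_ae ?_⟩
  · filter_upwards [hF] with ω hω
    rw [hω]
  · filter_upwards [hZ] with ω hω
    rw [hω]

variable (W) in
include hJ in
/-- extension of the derivation along a representing sequence -/
lemma der_ext (p : ℝ≥0) (hp : 2 ≤ p) (r : ℕ) : ∃ (p' : ℝ≥0) (r' : ℕ) (C : ℝ≥0), 1 < p' ∧ 1 ≤ r' ∧
    p ≤ p' ∧ r ≤ r' ∧ (∀ f : MvPolynomial H ℝ, sob W p r (der J f) ≤ C * sob W p' r' f) ∧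
    ∀ (F : Ω → ℝ) (u : ℕ → MvPolynomial H ℝ), AEStronglyMeasurable F P → Approx W p' r' F u →
      ∃ Z : Ω → ℝ, MemLp Z p P ∧ IsDer W J F Z ∧ Approx W p r Z fun i => der J (u i) := by
  obtain ⟨p', r', C, h1, h2, h3, h4, hC⟩ := der_bound W hJ p r
  refine ⟨p', r', C, h1, h2, h3, h4, hC, fun F u hF hu => ?_⟩
  have hcau : ∀ ε : ℝ≥0∞, 0 < ε → ∃ N, ∀ i ≥ N, ∀ j ≥ N,
      sob W p r (der J (u i) - der J (u j)) ≤ ε := by
    intro ε hε
    have hC0 : ((C : ℝ≥0∞) + 1) ≠ 0 := by simp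
    have hCt : ((C : ℝ≥0∞) + 1) ≠ ∞ := by simp
    obtain ⟨N, hN⟩ := hu.1 (ε / (C + 1)) (ENNReal.div_pos hε.ne' hCt)
    refine ⟨N, fun i hi j hj => ?_⟩
    rw [← map_sub]
    refine (hC _).trans ?_
    calc (C : ℝ≥0∞) * sob W p' r' (u i - u j) ≤ (C + 1) * (ε / (C + 1)) :=
          mul_le_mul' le_self_add (hN i hi j hj)
      _ = ε := ENNReal.mul_div_cancel hC0 hCt
  have hp1 : 1 ≤ p := one_le_two.trans hp
  obtain ⟨Z, hZ, hZt⟩ := exists_limit hp1 (fun i => ev W (der J (u i)))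
    (fun i => memLp_ev W _ _) (by
      intro ε hε
      obtain ⟨N, hN⟩ := hcau ε hε
      refine ⟨N, fun i hi j hj => ?_⟩
      have : (fun ω => ev W (der J (u i)) ω - ev W (der J (u j)) ω) =
          ev W (der J (u i) - der J (u j)) := by
        funext ω; rw [ev_sub]
      rw [this]
      exact (eLpNorm_ev_le_sob _ p r).trans (hN i hi j hj))
  refine ⟨Z, hZ, ⟨u, ?_, ?_⟩, hcau, hZt⟩
  · exact tendsto_mono_p (by exact_mod_cast hp.trans h3)
      (fun i => (aestronglyMeasurable_ev (u i)).sub hF) hu.2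
  · exact tendsto_mono_p (by exact_mod_cast hp)
      (fun i => (aestronglyMeasurable_ev _).sub hZ.1) hZt

end

end Pool.Agent.Helper49.Mal
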