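import Pool.Agent.Helper49.Mal.SwapDefs

open MeasureTheory ProbabilityTheory MvPolynomial Filter
open scoped ENNReal NNReal RealInnerProductSpace Topology

namespace Pool.Agent.Helper49.Mal

noncomputable section

set_option maxHeartbeats 400000

section

variable {H : Type*} [NormedAddCommGroup H] [InnerProductSpace ℝ H]
  {Ω : Type*} [MeasurableSpace Ω] {P : Measure Ω} [IsProbabilityMeasure P]
  {W : Isonormal H P} {J : H →ₗ[ℝ] H} (hJ : IsJ J)

lemma isDinfDerivation_delta : IsDinfDerivation (W := W) (delta hJ) := by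
  refine ⟨fun p _ r _ => ?_, fun F G => ?_⟩
  · obtain ⟨p', r', C, h1, h2, h3⟩ := der_dNorm W hJ p r
    exact ⟨p', h1, r', h2, C, fun F => h3 _ _ F.meas (delta hJ F).meas (isDer_delta hJ F)⟩
  · have h1 := InDinf.mul W F.meas G.meas F.prop G.prop
    refine ⟨Dinf.of (F.meas.mul G.meas) h1, Dinf.of_fn _ _, ?_⟩
    have h3 := IsDer.mul W hJ F.meas G.meas F.prop G.prop (delta hJ F).meas (delta hJ G).meas
      (isDer_delta hJ F) (isDer_delta hJ G)
    exact IsDer.unique W hJ (Dinf.meas _) (Dinf.meas _)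
      ((F.meas.mul (delta hJ G).meas).add (G.meas.mul (delta hJ F).meas)) (isDer_delta hJ _)
      (h3.congr (Dinf.of_fn _ _).symm EventuallyEq.rfl)

omit [IsProbabilityMeasure P] in
lemma gradPoly_X (h : H) (ω : Ω) : gradPoly W (X h) ω = h := by
  unfold gradPoly
  rw [vars_X, Finset.sum_singleton, pderiv_X_self]
  simp [ev]

lemma isGrad_gauss (h : H) : IsGrad W (Dinf.gauss W h).fn fun _ => h := by
  refine ⟨fun _ => X h, ?_, ?_⟩
  · have : eLpNorm (fun ω => ev W (X h) ω - (Dinf.gauss W h).fn ω) 2 P = 0 := by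
      rw [eLpNorm_congr_ae (g := fun _ => (0 : ℝ)) (by
        filter_upwards [Dinf.gauss_fn (W := W) h] with ω hω
        rw [hω, ev_X, sub_self])]
      simp
    simp [this]
  · simp [gradPoly_X]

lemma mom_zero : mom 0 = 1 := by
  unfold mom
  simp

variable (W) in
lemma integral_W_sq {h : H} (hh : ‖h‖ = 1) : ∫ ω, W h ω * W h ω ∂P = 1 := by
  have h1 := W.law h
  have h2 : ‖h‖₊ = 1 := by ext; exact hh
  rw [h2, one_pow] at h1
  have h3 : ∫ x : ℝ, x * x ∂(gaussianReal 0 1) = 1 := by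
    have := mom_succ 1
    rw [show (1 : ℕ) - 1 = 0 from rfl, mom_zero] at this
    unfold mom at this
    simpa [sq] using this
  rw [← h3, ← h1, integral_map (W.meas h) (by fun_prop)]

lemma memLp_W (h : H) : MemLp (W h) 2 P := by
  have h1 := memLp_ev_two W (X h)
  exact h1.ae_eq (Eventually.of_forall fun ω => ev_X h ω)

end

section

variable {n : ℕ}

/-- the half swap on the Cameron-Martin space -/
def swapCM (n : ℕ) : CM n →ₗ[ℝ] CM n := swap n

lemma isJ_swapCM (n : ℕ) : IsJ (swapCM n) := isJ_swap n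

lemma inner_CM (f g : CM n) : ⟪f, g⟫ = ∫ t, ⟪f.vel t, g.vel t⟫ ∂lam :=
  L2.inner_def (𝕜 := ℝ) (show LL n from f) (show LL n from g)

/-- test directions -/
def hC (n : ℕ) (hn : 0 < n) (k : ℕ) : CM n := hk n hn k

lemma hC_orthonormal (hn : 0 < n) : Orthonormal ℝ (hC n hn) := hk_orthonormal hn

lemma hC_disj (hn : 0 < n) (k : ℕ) : ∀ᵐ t ∂lam, (hC n hn k).vel t = 0 ∨
    (swapCM n (hC n hn k)).vel t = 0 := hk_swap_disj hn k

/-- there is no decomposition for the half swap -/
lemma no_decomposition (hn : 0 < n) {Ω : Type*} [MeasurableSpace Ω] {P : Measure Ω}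
    [IsProbabilityMeasure P] (W : Isonormal (CM n) P) :
    ¬ HasDecomposition (W := W) (delta (isJ_swapCM n)) := by
  rintro ⟨X, A, hX, -, hdec⟩
  have hXi : Integrable (fun ω => ‖X ω‖ ^ 2) P := hX.integrable_norm_pow (by norm_num)
  have hin : ∀ h : CM n, MemLp (fun ω => ⟪h, X ω⟫) 2 P := by
    intro h
    refine (hX.norm.const_mul ‖h‖).mono ((aestronglyMeasurable_const).inner hX.1)
      (Eventually.of_forall fun ω => ?_)
    refine (norm_inner_le_norm _ _).trans (le_of_eq ?_)
    rw [Real.norm_of_nonneg (by positivity)]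
  have key : ∀ k, 3 / 4 ≤ ∫ ω, ⟪hC n hn k, X ω⟫ ^ 2 ∂P := by
    intro k
    set h := hC n hn k with hh
    set g := swapCM n h with hg
    have hnorm : ‖h‖ = 1 := (hC_orthonormal hn).1 k
    have hgn : ‖g‖ = 1 := by
      have h1 := (isJ_swapCM n).inner h h
      rw [real_inner_self_eq_norm_sq, real_inner_self_eq_norm_sq, hnorm] at h1
      have h2 : ‖g‖ ^ 2 = 1 ^ 2 := h1
      exact (sq_eq_sq₀ (norm_nonneg _) zero_le_one).1 h2
    obtain ⟨V, D, hV, hdiv, hδ⟩ := hdec (Dinf.gauss W h) (fun _ => h) aestronglyMeasurable_const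
      (isGrad_gauss h)
    rw [delta_gauss] at hδ
    have hδ' : W g =ᵐ[P] fun ω => ⟪h, X ω⟫ + D ω := (Dinf.gauss_fn g).symm.trans hδ
    have hWg : MemLp (W g) 2 P := memLp_W g
    obtain ⟨-, -, hadj⟩ := hdiv
    obtain ⟨-, hDi, hD⟩ := hadj (MvPolynomial.X g)
    have hevg : ∀ ω, ev W (MvPolynomial.X g) ω = W g ω := fun ω => ev_X g ω
    simp only [gradPoly_X, hevg] at hDi hD
    have hV0 : ∫ ω, ⟪V ω, g⟫ ∂P = 0 := by
      have h1 : ∀ᵐ ω ∂P, ⟪V ω, g⟫ = 0 := by
        filter_upwards [hV] with ω hω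
        rw [inner_CM]
        have h2 : ∀ᵐ t ∂lam, ⟪(V ω).vel t, g.vel t⟫ = 0 := by
          filter_upwards [hω, hC_disj hn k] with t h3 h4
          rcases h4 with h4 | h4
          · have h5 : (V ω).vel t = 0 := by
              ext i
              rw [h3 i, hh, h4]
              simp
            rw [h5, inner_zero_left]
          · rw [hg, hh, h4, inner_zero_right]
        rw [integral_congr_ae h2]
        simp
      rw [integral_congr_ae h1]
      simp
    rw [hV0] at hD
    have hprod : Integrable (fun ω => ⟪h, X ω⟫ * W g ω) P := by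
      have := MemLp.integrable_mul (hin h) hWg
      exact this
    have h5 : ∫ ω, ⟪h, X ω⟫ * W g ω ∂P = 1 := by
      have h6 : ∫ ω, W g ω * W g ω ∂P =
          ∫ ω, (⟪h, X ω⟫ * W g ω + D ω * W g ω) ∂P := by
        refine integral_congr_ae ?_
        filter_upwards [hδ'] with ω hω
        nth_rewrite 1 [hω]
        ring
      rw [integral_W_sq W hgn, integral_add hprod hDi, hD, add_zero] at h6
      exact h6.symm
    have hi1 : Integrable (fun ω => ⟪h, X ω⟫ ^ 2) P := (hin h).integrable_sq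
    have hi2 : Integrable (fun ω => W g ω * W g ω) P := by
      have := MemLp.integrable_mul hWg hWg
      exact this
    have h7 : ∫ ω, ⟪h, X ω⟫ * W g ω ∂P ≤
        ∫ ω, (⟪h, X ω⟫ ^ 2 + 1 / 4 * (W g ω * W g ω)) ∂P := by
      refine integral_mono hprod (hi1.add (hi2.const_mul _)) fun ω => ?_
      simp only
      nlinarith [sq_nonneg (⟪h, X ω⟫ - W g ω / 2)]
    rw [h5, integral_add hi1 (hi2.const_mul _), integral_const_mul, integral_W_sq W hgn] at h7
    linarith
  have hsum : ∀ N : ℕ, (N : ℝ) * (3 / 4) ≤ ∫ ω, ‖X ω‖ ^ 2 ∂P := by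
    intro N
    calc (N : ℝ) * (3 / 4) = ∑ _k ∈ Finset.range N, (3 / 4 : ℝ) := by
          rw [Finset.sum_const, Finset.card_range, nsmul_eq_mul]
      _ ≤ ∑ k ∈ Finset.range N, ∫ ω, ⟪hC n hn k, X ω⟫ ^ 2 ∂P :=
          Finset.sum_le_sum fun k _ => key k
      _ = ∫ ω, ∑ k ∈ Finset.range N, ⟪hC n hn k, X ω⟫ ^ 2 ∂P := by
          rw [integral_finsetSum]
          exact fun k _ => (hin _).integrable_sq
      _ ≤ ∫ ω, ‖X ω‖ ^ 2 ∂P := by
          refine integral_mono (integrable_finsetSum _ fun k _ => (hin _).integrable_sq) hXi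
            fun ω => ?_
          have := (hC_orthonormal hn).sum_inner_products_le (X ω) (s := Finset.range N)
          simpa using this
  obtain ⟨N, hN⟩ := exists_nat_gt ((∫ ω, ‖X ω‖ ^ 2 ∂P) / (3 / 4))
  have := hsum N
  rw [div_lt_iff₀ (by norm_num)] at hN
  linarith

end

end

end Pool.Agent.Helper49.Mal
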