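import Mathlib

open MeasureTheory ProbabilityTheory MvPolynomial
open scoped ENNReal NNReal

namespace Pool.Agent.Helper49.Mal

noncomputable section

/-- the standard Gaussian measure on `ι → ℝ` -/
abbrev gam (ι : Type) [Fintype ι] : Measure (ι → ℝ) := Measure.pi fun _ : ι => gaussianReal 0 1

/-- expectation of a polynomial -/
def ex {ι : Type} [Fintype ι] (g : MvPolynomial ι ℝ) : ℝ := ∫ x, eval x g ∂(gam ι)

lemma integrable_pow_gauss (n : ℕ) : Integrable (fun x : ℝ => x ^ n) (gaussianReal 0 1) := by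
  have h := memLp_id_gaussianReal (μ := 0) (v := 1) (n : ℝ≥0)
  have h2 := h.integrable_norm_rpow'
  refine h2.mono' (by fun_prop) (Filter.Eventually.of_forall fun x => ?_)
  simp

lemma integrable_pow_pdf (n : ℕ) : Integrable (fun x : ℝ => x ^ n * gaussianPDFReal 0 1 x) := by
  have h := integrable_pow_gauss n
  rw [gaussianReal_of_var_ne_zero 0 one_ne_zero,
    integrable_withDensity_iff_integrable_smul' (by fun_prop)
      (Filter.Eventually.of_forall fun x => gaussianPDF_lt_top)] at h
  refine h.congr (Filter.Eventually.of_forall fun x => ?_)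
  simp only [toReal_gaussianPDF, smul_eq_mul]
  ring

/-- Gaussian moments -/
def mom (n : ℕ) : ℝ := ∫ x, x ^ n ∂(gaussianReal 0 1)

lemma mom_eq (n : ℕ) : mom n = ∫ x : ℝ, x ^ n * gaussianPDFReal 0 1 x := by
  unfold mom
  rw [integral_gaussianReal_eq_integral_smul one_ne_zero]
  refine integral_congr_ae (Filter.Eventually.of_forall fun x => ?_)
  simp only [smul_eq_mul]
  ring

lemma hasDerivAt_pdf (x : ℝ) : HasDerivAt (gaussianPDFReal 0 1) (-(x * gaussianPDFReal 0 1 x)) x := by
  have h1 : HasDerivAt (fun x : ℝ => -(x - 0) ^ 2 / (2 * ((1 : ℝ≥0) : ℝ))) (-x) x := by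
    have h2 : HasDerivAt (fun x : ℝ => -(x - 0) ^ 2 / (2 * ((1 : ℝ≥0) : ℝ)))
        (-(2 * (x - 0) ^ 1 * 1) / (2 * ((1 : ℝ≥0) : ℝ))) x := by
      have := ((((hasDerivAt_id x).sub_const 0).pow 2).neg).div_const (2 * ((1 : ℝ≥0) : ℝ))
      simpa using this
    refine h2.congr_deriv ?_
    simp
    ring
  have h3 := (h1.exp).const_mul ((Real.sqrt (2 * Real.pi * ((1 : ℝ≥0) : ℝ)))⁻¹)
  have h4 : HasDerivAt (gaussianPDFReal 0 1) ((Real.sqrt (2 * Real.pi * ((1 : ℝ≥0) : ℝ)))⁻¹ *
      (Real.exp (-(x - 0) ^ 2 / (2 * ((1 : ℝ≥0) : ℝ))) * -x)) x := h3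
  refine h4.congr_deriv ?_
  unfold gaussianPDFReal
  ring

lemma mom_succ (n : ℕ) : mom (n + 1) = n * mom (n - 1) := by
  rw [mom_eq, mom_eq]
  have h := integral_mul_deriv_eq_deriv_mul_of_integrable (u := fun x : ℝ => x ^ n)
    (u' := fun x : ℝ => n * x ^ (n - 1)) (v := fun x => -gaussianPDFReal 0 1 x)
    (v' := fun x => x * gaussianPDFReal 0 1 x)
    (fun x _ => by simpa using hasDerivAt_pow n x)
    (fun x _ => ((hasDerivAt_pdf x).fun_neg).congr_deriv (by ring))
    (by
      refine (integrable_pow_pdf (n + 1)).congr (Filter.Eventually.of_forall fun x => ?_)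
      simp only [Pi.mul_apply]
      ring)
    (by
      refine ((integrable_pow_pdf (n - 1)).const_mul (-(n : ℝ))).congr
        (Filter.Eventually.of_forall fun x => ?_)
      simp only [Pi.mul_apply]
      ring)
    (by
      refine (integrable_pow_pdf n).neg.congr (Filter.Eventually.of_forall fun x => ?_)
      simp only [Pi.mul_apply, Pi.neg_apply]
      ring)
  calc ∫ x : ℝ, x ^ (n + 1) * gaussianPDFReal 0 1 x
      = ∫ x : ℝ, x ^ n * (x * gaussianPDFReal 0 1 x) := by
        refine integral_congr_ae (Filter.Eventually.of_forall fun x => ?_)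
        simp only
        ring
    _ = -∫ x : ℝ, n * x ^ (n - 1) * -gaussianPDFReal 0 1 x := h
    _ = n * ∫ x : ℝ, x ^ (n - 1) * gaussianPDFReal 0 1 x := by
        rw [← integral_const_mul, ← integral_neg]
        refine integral_congr_ae (Filter.Eventually.of_forall fun x => ?_)
        simp only
        ring

variable {ι : Type} [Fintype ι]

/-- polynomials have all moments -/
lemma memLp_eval (g : MvPolynomial ι ℝ) : ∀ p : ℝ≥0, MemLp (fun x => eval x g) p (gam ι) := by
  induction g using MvPolynomial.induction_on with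
  | C a =>
    intro p
    simp only [eval_C]
    exact memLp_const a
  | add g1 g2 h1 h2 =>
    intro p
    simp only [map_add]
    exact (h1 p).add (h2 p)
  | mul_X g i h =>
    intro p
    simp only [map_mul, eval_X]
    have h1 := h (2 * p)
    have h2 : MemLp (fun x : ι → ℝ => x i) (2 * p : ℝ≥0) (gam ι) := by
      have h3 := memLp_id_gaussianReal (μ := 0) (v := 1) (2 * p)
      have h4 : MeasurePreserving (Function.eval i) (gam ι) (gaussianReal 0 1) :=
        measurePreserving_eval (fun _ : ι => gaussianReal 0 1) i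
      exact h3.comp_measurePreserving h4
    refine MemLp.mul' (p := (2 * p : ℝ≥0)) (q := (2 * p : ℝ≥0)) h2 h1 (hpqr := ⟨?_⟩)
    by_cases hp : p = 0
    · subst hp; simp
    · rw [ENNReal.coe_mul, ENNReal.mul_inv (by simp) (by simp), ← add_mul]
      norm_num
      rw [ENNReal.inv_two_add_inv_two, one_mul]

lemma integrable_eval (g : MvPolynomial ι ℝ) : Integrable (fun x => eval x g) (gam ι) := by
  have := memLp_eval g 1
  rw [ENNReal.coe_one] at this
  exact memLp_one_iff_integrable.1 this

lemma ex_add (f g : MvPolynomial ι ℝ) : ex (f + g) = ex f + ex g := by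
  unfold ex
  rw [← integral_add (integrable_eval f) (integrable_eval g)]
  simp

lemma ex_C_mul (c : ℝ) (g : MvPolynomial ι ℝ) : ex (C c * g) = c * ex g := by
  unfold ex
  rw [← integral_const_mul]
  simp

lemma ex_zero : ex (0 : MvPolynomial ι ℝ) = 0 := by
  unfold ex; simp

lemma ex_neg (g : MvPolynomial ι ℝ) : ex (-g) = -ex g := by
  unfold ex
  rw [← integral_neg]
  simp

lemma ex_sub (f g : MvPolynomial ι ℝ) : ex (f - g) = ex f - ex g := by
  rw [sub_eq_add_neg, ex_add, ex_neg]; ring

lemma ex_sum {κ : Type*} (s : Finset κ) (f : κ → MvPolynomial ι ℝ) :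
    ex (∑ k ∈ s, f k) = ∑ k ∈ s, ex (f k) := by
  classical
  induction s using Finset.induction_on with
  | empty => simp [ex_zero]
  | insert a s ha ih => rw [Finset.sum_insert ha, Finset.sum_insert ha, ex_add, ih]

lemma ex_monomial (u : ι →₀ ℕ) (a : ℝ) : ex (monomial u a) = a * ∏ j, mom (u j) := by
  classical
  unfold ex
  have h1 : ∀ x : ι → ℝ, eval x (monomial u a) = a * ∏ j, x j ^ u j := by
    intro x
    rw [eval_monomial, Finsupp.prod_fintype _ _ (fun i => pow_zero _)]
  simp only [h1]
  rw [integral_const_mul]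
  congr 1
  have h2 := integral_fintype_prod_eq_prod (μ := fun _ : ι => gaussianReal 0 1)
    (fun (j : ι) (t : ℝ) => t ^ u j)
  exact h2

/-- Gaussian integration by parts -/
lemma ibp (i : ι) (g : MvPolynomial ι ℝ) : ex (X i * g) = ex (pderiv i g) := by
  classical
  induction g using MvPolynomial.induction_on' with
  | monomial u a =>
    have h1 : X i * monomial u a = monomial (Finsupp.single i 1 + u) a := by
      rw [X, monomial_mul, one_mul]
    rw [h1, pderiv_monomial, ex_monomial, ex_monomial]
    rw [← Finset.mul_prod_erase _ _ (Finset.mem_univ i),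
      ← Finset.mul_prod_erase _ _ (Finset.mem_univ i)]
    have h2 : ∏ x ∈ Finset.univ.erase i, mom ((Finsupp.single i 1 + u : ι →₀ ℕ) x) =
        ∏ x ∈ Finset.univ.erase i, mom (u x) := by
      refine Finset.prod_congr rfl fun j hj => ?_
      have hji : j ≠ i := Finset.ne_of_mem_erase hj
      rw [Finsupp.add_apply, Finsupp.single_eq_of_ne hji, zero_add]
    have h3 : ∏ x ∈ Finset.univ.erase i, mom ((u - Finsupp.single i 1 : ι →₀ ℕ) x) =
        ∏ x ∈ Finset.univ.erase i, mom (u x) := by
      refine Finset.prod_congr rfl fun j hj => ?_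
      have hji : j ≠ i := Finset.ne_of_mem_erase hj
      rw [Finsupp.tsub_apply, Finsupp.single_eq_of_ne hji, Nat.sub_zero]
    rw [h2, h3, Finsupp.add_apply, Finsupp.tsub_apply, Finsupp.single_eq_same, add_comm 1 (u i),
      mom_succ]
    ring
  | add f g hf hg =>
    rw [mul_add, ex_add, hf, hg, map_add, ex_add]

end

end Pool.Agent.Helper49.Mal
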