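import Pool.Agent.Helper49.Mal.Gauss

open MeasureTheory ProbabilityTheory MvPolynomial
open scoped ENNReal NNReal

namespace Pool.Agent.Helper49.Mal

noncomputable section

variable {ι : Type} [Fintype ι]

/-- `NI k F G` is the sum over all words `J` of length `k` of `∂_J F ∂_J G` -/
def NI : ℕ → MvPolynomial ι ℝ → MvPolynomial ι ℝ → MvPolynomial ι ℝ
  | 0, F, G => F * G
  | k + 1, F, G => ∑ j, NI k (pderiv j F) (pderiv j G)

lemma NI_zero (F G : MvPolynomial ι ℝ) : NI 0 F G = F * G := rfl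

lemma NI_succ (k : ℕ) (F G : MvPolynomial ι ℝ) :
    NI (k + 1) F G = ∑ j, NI k (pderiv j F) (pderiv j G) := rfl

lemma NI_add_left (k : ℕ) : ∀ F F' G : MvPolynomial ι ℝ, NI k (F + F') G = NI k F G + NI k F' G := by
  induction k with
  | zero => intro F F' G; simp only [NI_zero]; ring
  | succ k ih =>
    intro F F' G
    simp only [NI_succ, map_add, ih, Finset.sum_add_distrib]

lemma NI_comm (k : ℕ) : ∀ F G : MvPolynomial ι ℝ, NI k F G = NI k G F := by
  induction k with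
  | zero => intro F G; simp only [NI_zero]; ring
  | succ k ih =>
    intro F G
    simp only [NI_succ]
    exact Finset.sum_congr rfl fun j _ => ih _ _

lemma NI_add_right (k : ℕ) (F G G' : MvPolynomial ι ℝ) :
    NI k F (G + G') = NI k F G + NI k F G' := by
  rw [NI_comm, NI_add_left, NI_comm k G, NI_comm k G']

lemma NI_C_mul_left (k : ℕ) : ∀ (c : ℝ) (F G : MvPolynomial ι ℝ), NI k (C c * F) G = C c * NI k F G := by
  induction k with
  | zero => intro c F G; simp only [NI_zero]; ring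
  | succ k ih =>
    intro c F G
    simp only [NI_succ, pderiv_C_mul, ih, Finset.mul_sum]

lemma NI_C_mul_right (k : ℕ) (c : ℝ) (F G : MvPolynomial ι ℝ) :
    NI k F (C c * G) = C c * NI k F G := by
  rw [NI_comm, NI_C_mul_left, NI_comm]

lemma NI_zero_left (k : ℕ) (G : MvPolynomial ι ℝ) : NI k 0 G = 0 := by
  have := NI_C_mul_left k 0 (0 : MvPolynomial ι ℝ) G
  simpa using this

lemma NI_zero_right (k : ℕ) (G : MvPolynomial ι ℝ) : NI k G 0 = 0 := by
  rw [NI_comm, NI_zero_left]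

lemma NI_sum_left (k : ℕ) {κ : Type*} (s : Finset κ) (F : κ → MvPolynomial ι ℝ)
    (G : MvPolynomial ι ℝ) : NI k (∑ c ∈ s, F c) G = ∑ c ∈ s, NI k (F c) G := by
  classical
  induction s using Finset.induction_on with
  | empty => simp [NI_zero_left]
  | insert a s ha ih => rw [Finset.sum_insert ha, Finset.sum_insert ha, NI_add_left, ih]

lemma NI_sum_right (k : ℕ) {κ : Type*} (s : Finset κ) (F : κ → MvPolynomial ι ℝ)
    (G : MvPolynomial ι ℝ) : NI k G (∑ c ∈ s, F c) = ∑ c ∈ s, NI k G (F c) := by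
  rw [NI_comm, NI_sum_left]
  exact Finset.sum_congr rfl fun c _ => NI_comm _ _ _

lemma NI_nonneg (k : ℕ) : ∀ (F : MvPolynomial ι ℝ) (x : ι → ℝ), 0 ≤ eval x (NI k F F) := by
  induction k with
  | zero =>
    intro F x
    simp only [NI_zero, map_mul]
    exact mul_self_nonneg _
  | succ k ih =>
    intro F x
    simp only [NI_succ, map_sum]
    exact Finset.sum_nonneg fun j _ => ih _ _

/-- the pointwise Hilbert norm of the `k`-th derivative of a finite family of polynomials -/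
def T (k : ℕ) {κ : Type} [Fintype κ] (F : κ → MvPolynomial ι ℝ) (x : ι → ℝ) : ℝ :=
  Real.sqrt (∑ c, eval x (NI k (F c) (F c)))

lemma T_nonneg (k : ℕ) {κ : Type} [Fintype κ] (F : κ → MvPolynomial ι ℝ) (x : ι → ℝ) :
    0 ≤ T k F x := Real.sqrt_nonneg _

lemma T_sq (k : ℕ) {κ : Type} [Fintype κ] (F : κ → MvPolynomial ι ℝ) (x : ι → ℝ) :
    T k F x ^ 2 = ∑ c, eval x (NI k (F c) (F c)) :=
  Real.sq_sqrt (Finset.sum_nonneg fun _ _ => NI_nonneg k _ _)

lemma T_zero {κ : Type} [Fintype κ] (F : κ → MvPolynomial ι ℝ) (x : ι → ℝ) :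
    T 0 F x = Real.sqrt (∑ c, (eval x (F c)) ^ 2) := by
  unfold T
  congr 1
  refine Finset.sum_congr rfl fun c _ => ?_
  rw [NI_zero, map_mul, sq]

lemma T_succ (k : ℕ) {κ : Type} [Fintype κ] (F : κ → MvPolynomial ι ℝ) (x : ι → ℝ) :
    T (k + 1) F x = T k (fun p : κ × ι => pderiv p.2 (F p.1)) x := by
  unfold T
  congr 1
  rw [Fintype.sum_prod_type]
  refine Finset.sum_congr rfl fun c _ => ?_
  rw [NI_succ, map_sum]

lemma T_reindex (k : ℕ) {κ κ' : Type} [Fintype κ] [Fintype κ'] (σ : κ' ≃ κ)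
    (F : κ → MvPolynomial ι ℝ) (x : ι → ℝ) : T k (fun c => F (σ c)) x = T k F x := by
  unfold T
  congr 1
  exact Equiv.sum_comp σ fun c => eval x (NI k (F c) (F c))

lemma sqrt_sum_add_sq_le {κ : Type} [Fintype κ] (a b : κ → ℝ) :
    Real.sqrt (∑ c, (a c + b c) ^ 2) ≤ Real.sqrt (∑ c, a c ^ 2) + Real.sqrt (∑ c, b c ^ 2) := by
  have h := norm_add_le (WithLp.toLp 2 a : EuclideanSpace ℝ κ) (WithLp.toLp 2 b)
  simpa [EuclideanSpace.norm_eq] using h

lemma T_add (k : ℕ) : ∀ {κ : Type} [Fintype κ] (F G : κ → MvPolynomial ι ℝ) (x : ι → ℝ),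
    T k (fun c => F c + G c) x ≤ T k F x + T k G x := by
  induction k with
  | zero =>
    intro κ _ F G x
    simp only [T_zero, map_add]
    exact sqrt_sum_add_sq_le _ _
  | succ k ih =>
    intro κ _ F G x
    simp only [T_succ, map_add]
    exact ih _ _ x

lemma T_C_mul (k : ℕ) {κ : Type} [Fintype κ] (a : ℝ) (F : κ → MvPolynomial ι ℝ) (x : ι → ℝ) :
    T k (fun c => C a * F c) x = |a| * T k F x := by
  unfold T
  have h : ∑ c, eval x (NI k (C a * F c) (C a * F c)) = a ^ 2 * ∑ c, eval x (NI k (F c) (F c)) := by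
    rw [Finset.mul_sum]
    refine Finset.sum_congr rfl fun c _ => ?_
    rw [NI_C_mul_left, NI_C_mul_right, map_mul, map_mul, eval_C]
    ring
  rw [h, Real.sqrt_mul (sq_nonneg a), Real.sqrt_sq_eq_abs]

lemma sqrt_contract {α ε β : Type} [Fintype α] [Fintype ε] [Fintype β] (a : α → ε → ℝ)
    (b : ε → β → ℝ) : Real.sqrt (∑ p : α × β, (∑ e, a p.1 e * b e p.2) ^ 2) ≤
      Real.sqrt (∑ p : α × ε, a p.1 p.2 ^ 2) * Real.sqrt (∑ p : ε × β, b p.1 p.2 ^ 2) := by
  rw [← Real.sqrt_mul (Finset.sum_nonneg fun _ _ => sq_nonneg _)]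
  refine Real.sqrt_le_sqrt ?_
  calc ∑ p : α × β, (∑ e, a p.1 e * b e p.2) ^ 2
      ≤ ∑ p : α × β, (∑ e, a p.1 e ^ 2) * ∑ e, b e p.2 ^ 2 :=
        Finset.sum_le_sum fun p _ => Finset.sum_mul_sq_le_sq_mul_sq _ _ _
    _ = (∑ c, ∑ e, a c e ^ 2) * ∑ d, ∑ e, b e d ^ 2 := by
        rw [Fintype.sum_prod_type, Finset.sum_mul]
        refine Finset.sum_congr rfl fun c _ => ?_
        rw [Finset.mul_sum]
    _ = (∑ p : α × ε, a p.1 p.2 ^ 2) * ∑ p : ε × β, b p.1 p.2 ^ 2 := by
        rw [Fintype.sum_prod_type, Fintype.sum_prod_type]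
        congr 1
        exact Finset.sum_comm

/-- the product bound for contractions of families -/
lemma T_contract (k : ℕ) : ∀ {α ε β : Type} [Fintype α] [Fintype ε] [Fintype β]
    (F : α → ε → MvPolynomial ι ℝ) (G : ε → β → MvPolynomial ι ℝ) (x : ι → ℝ) (A B : ℝ),
    (∀ j ≤ k, T j (fun p : α × ε => F p.1 p.2) x ≤ A) →
    (∀ j ≤ k, T j (fun p : ε × β => G p.1 p.2) x ≤ B) →
    T k (fun p : α × β => ∑ e, F p.1 e * G e p.2) x ≤ 2 ^ k * (A * B) := by
  induction k with
  | zero =>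
    intro α ε β _ _ _ F G x A B hA hB
    have hA0 := hA 0 le_rfl
    have hB0 := hB 0 le_rfl
    have h0 : 0 ≤ A := (T_nonneg _ _ _).trans hA0
    rw [T_zero] at hA0 hB0 ⊢
    simp only [map_sum, map_mul, pow_zero, one_mul]
    exact (sqrt_contract (fun a e => eval x (F a e)) (fun e b => eval x (G e b))).trans
      (mul_le_mul hA0 hB0 (Real.sqrt_nonneg _) h0)
  | succ k ih =>
    intro α ε β _ _ _ F G x A B hA hB
    rw [T_succ]
    have h1 : (fun p : (α × β) × ι => pderiv p.2 (∑ e, F p.1.1 e * G e p.1.2)) =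
        fun p : (α × β) × ι => (∑ e, pderiv p.2 (F p.1.1 e) * G e p.1.2) +
          ∑ e, F p.1.1 e * pderiv p.2 (G e p.1.2) := by
      funext p
      rw [map_sum, ← Finset.sum_add_distrib]
      exact Finset.sum_congr rfl fun e _ => pderiv_mul
    rw [h1]
    refine (T_add k _ _ x).trans ?_
    have h2 : T k (fun p : (α × β) × ι => ∑ e, pderiv p.2 (F p.1.1 e) * G e p.1.2) x ≤
        2 ^ k * (A * B) := by
      let σ : (α × β) × ι ≃ (α × ι) × β :=
        ⟨fun p => ((p.1.1, p.2), p.1.2), fun p => ((p.1.1, p.2), p.1.2), fun _ => rfl, fun _ => rfl⟩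
      have := T_reindex k σ
        (fun p : (α × ι) × β => ∑ e, pderiv p.1.2 (F p.1.1 e) * G e p.2) x
      rw [show (fun p : (α × β) × ι => ∑ e, pderiv p.2 (F p.1.1 e) * G e p.1.2) =
        fun c => (fun p : (α × ι) × β => ∑ e, pderiv p.1.2 (F p.1.1 e) * G e p.2) (σ c) from rfl,
        this]
      refine ih (fun (a : α × ι) e => pderiv a.2 (F a.1 e)) G x A B ?_ ?_
      · intro j hj
        have h3 := hA (j + 1) (by omega)
        rw [T_succ] at h3
        let τ : (α × ι) × ε ≃ (α × ε) × ι :=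
          ⟨fun p => ((p.1.1, p.2), p.1.2), fun p => ((p.1.1, p.2), p.1.2), fun _ => rfl,
            fun _ => rfl⟩
        have h4 := T_reindex j τ (fun p : (α × ε) × ι => pderiv p.2 (F p.1.1 p.1.2)) x
        rw [← h4] at h3
        exact h3
      · intro j hj
        exact hB j (by omega)
    have h3 : T k (fun p : (α × β) × ι => ∑ e, F p.1.1 e * pderiv p.2 (G e p.1.2)) x ≤
        2 ^ k * (A * B) := by
      let σ : (α × β) × ι ≃ α × (β × ι) :=
        ⟨fun p => (p.1.1, (p.1.2, p.2)), fun p => ((p.1, p.2.1), p.2.2), fun _ => rfl, fun _ => rfl⟩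
      have := T_reindex k σ
        (fun p : α × (β × ι) => ∑ e, F p.1 e * pderiv p.2.2 (G e p.2.1)) x
      rw [show (fun p : (α × β) × ι => ∑ e, F p.1.1 e * pderiv p.2 (G e p.1.2)) =
        fun c => (fun p : α × (β × ι) => ∑ e, F p.1 e * pderiv p.2.2 (G e p.2.1)) (σ c) from rfl,
        this]
      refine ih F (fun e (b : β × ι) => pderiv b.2 (G e b.1)) x A B ?_ ?_
      · intro j hj
        exact hA j (by omega)
      · intro j hj
        have h3 := hB (j + 1) (by omega)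
        rw [T_succ] at h3
        let τ : ε × (β × ι) ≃ (ε × β) × ι :=
          ⟨fun p => ((p.1, p.2.1), p.2.2), fun p => (p.1.1, (p.1.2, p.2)), fun _ => rfl,
            fun _ => rfl⟩
        have h4 := T_reindex j τ (fun p : (ε × β) × ι => pderiv p.2 (G p.1.1 p.1.2)) x
        rw [← h4] at h3
        exact h3
    calc _ ≤ 2 ^ k * (A * B) + 2 ^ k * (A * B) := add_le_add h2 h3
      _ = 2 ^ (k + 1) * (A * B) := by ring

/-- tensor products -/
lemma T_tensor (k : ℕ) {α β : Type} [Fintype α] [Fintype β]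
    (F : α → MvPolynomial ι ℝ) (G : β → MvPolynomial ι ℝ) (x : ι → ℝ) (A B : ℝ)
    (hA : ∀ j ≤ k, T j F x ≤ A) (hB : ∀ j ≤ k, T j G x ≤ B) :
    T k (fun p : α × β => F p.1 * G p.2) x ≤ 2 ^ k * (A * B) := by
  have h := T_contract k (fun (a : α) (_ : Unit) => F a) (fun (_ : Unit) (b : β) => G b) x A B
    (fun j hj => by
      have h1 := T_reindex j (Equiv.prodUnique α Unit) F x
      exact (le_of_eq h1).trans (hA j hj))
    (fun j hj => by
      have h1 := T_reindex j (Equiv.uniqueProd β Unit) G x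
      exact (le_of_eq h1).trans (hB j hj))
  simpa using h

/-- scalar products -/
lemma T_dot (k : ℕ) {α : Type} [Fintype α]
    (F G : α → MvPolynomial ι ℝ) (x : ι → ℝ) (A B : ℝ)
    (hA : ∀ j ≤ k, T j F x ≤ A) (hB : ∀ j ≤ k, T j G x ≤ B) :
    T k (fun _ : Unit => ∑ a, F a * G a) x ≤ 2 ^ k * (A * B) := by
  have h := T_contract k (fun (_ : Unit) (a : α) => F a) (fun (a : α) (_ : Unit) => G a) x A B
    (fun j hj => by
      have h1 := T_reindex j (Equiv.uniqueProd α Unit) F x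
      exact (le_of_eq h1).trans (hA j hj))
    (fun j hj => by
      have h1 := T_reindex j (Equiv.prodUnique α Unit) G x
      exact (le_of_eq h1).trans (hB j hj))
  have h2 := T_reindex k (Equiv.prodUnique Unit Unit) (fun _ : Unit => ∑ a, F a * G a) x
  rw [← h2]
  exact h

lemma T_smul (k : ℕ) {β : Type} [Fintype β]
    (q : MvPolynomial ι ℝ) (G : β → MvPolynomial ι ℝ) (x : ι → ℝ) (A B : ℝ)
    (hA : ∀ j ≤ k, T j (fun _ : Unit => q) x ≤ A) (hB : ∀ j ≤ k, T j G x ≤ B) :
    T k (fun b => q * G b) x ≤ 2 ^ k * (A * B) := by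
  have h := T_tensor k (fun _ : Unit => q) G x A B hA hB
  have h2 := T_reindex k (Equiv.uniqueProd β Unit) (fun b => q * G b) x
  rw [← h2]
  exact h

/-- the sum of the norms of the first derivatives -/
def S (K : ℕ) {κ : Type} [Fintype κ] (F : κ → MvPolynomial ι ℝ) (x : ι → ℝ) : ℝ :=
  ∑ k ∈ Finset.range (K + 1), T k F x

lemma S_nonneg (K : ℕ) {κ : Type} [Fintype κ] (F : κ → MvPolynomial ι ℝ) (x : ι → ℝ) :
    0 ≤ S K F x := Finset.sum_nonneg fun k _ => T_nonneg k F x

lemma T_le_S {k K : ℕ} (h : k ≤ K) {κ : Type} [Fintype κ] (F : κ → MvPolynomial ι ℝ)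
    (x : ι → ℝ) : T k F x ≤ S K F x :=
  Finset.single_le_sum (f := fun k => T k F x) (fun j _ => T_nonneg j F x)
    (Finset.mem_range.2 (by omega))

lemma S_mono {K K' : ℕ} (h : K ≤ K') {κ : Type} [Fintype κ] (F : κ → MvPolynomial ι ℝ)
    (x : ι → ℝ) : S K F x ≤ S K' F x :=
  Finset.sum_le_sum_of_subset_of_nonneg (Finset.range_mono (by omega))
    fun j _ _ => T_nonneg j F x

lemma S_deriv (K : ℕ) {κ : Type} [Fintype κ] (F : κ → MvPolynomial ι ℝ) (x : ι → ℝ) :
    S K (fun p : κ × ι => pderiv p.2 (F p.1)) x ≤ S (K + 1) F x := by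
  unfold S
  rw [Finset.sum_range_succ' (fun k => T k F x) (K + 1)]
  have h : ∑ k ∈ Finset.range (K + 1), T k (fun p : κ × ι => pderiv p.2 (F p.1)) x =
      ∑ k ∈ Finset.range (K + 1), T (k + 1) F x :=
    Finset.sum_congr rfl fun k _ => (T_succ k F x).symm
  rw [h]
  linarith [T_nonneg 0 F x]

end

end Pool.Agent.Helper49.Mal
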