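import Pool.Agent.Helper49.Mal.Transfer

open MeasureTheory ProbabilityTheory MvPolynomial Filter
open scoped ENNReal NNReal RealInnerProductSpace Topology

namespace Pool.Agent.Helper49.Mal

noncomputable section

set_option maxHeartbeats 400000

variable {H : Type*} [NormedAddCommGroup H] [InnerProductSpace ℝ H]
  {Ω : Type*} [MeasurableSpace Ω] {P : Measure Ω}

/-- complex structures compatible with the scalar product -/
structure IsJ (J : H →ₗ[ℝ] H) : Prop where
  anti : ∀ x y, ⟪J x, y⟫ = -⟪x, J y⟫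
  sq : ∀ x, J (J x) = -x

/-- the derivation `W h ↦ W (J h)` on smooth functionals -/
def der (J : H →ₗ[ℝ] H) : Derivation ℝ (MvPolynomial H ℝ) (MvPolynomial H ℝ) :=
  mkDerivation ℝ fun h => X (J h)

lemma der_X (J : H →ₗ[ℝ] H) (h : H) : der J (X h) = X (J h) := mkDerivation_X _ _ _

lemma exists_onb_sub (V : Submodule ℝ H) [FiniteDimensional ℝ V] :
    ∃ (d : ℕ) (e : Fin d → H), Orthonormal ℝ e ∧ (∀ i, e i ∈ V) ∧
      ∀ h ∈ V, ∑ i, ⟪e i, h⟫ • e i = h := by
  let b := stdOrthonormalBasis ℝ V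
  refine ⟨_, fun i => (b i : H), ?_, fun i => (b i).2, ?_⟩
  · have := b.orthonormal
    exact this.comp_linearIsometry V.subtypeₗᵢ
  · intro h hh
    have h1 := b.sum_repr' ⟨h, hh⟩
    have h2 := congrArg (fun v : V => (v : H)) h1
    simp only [Submodule.coe_sum, Submodule.coe_smul, Submodule.coe_inner] at h2
    exact h2

lemma exists_onb (s : Finset H) : ∃ (d : ℕ) (e : Fin d → H), Orthonormal ℝ e ∧ SpanAt e s := by
  let V : Submodule ℝ H := Submodule.span ℝ (s : Set H)
  have : FiniteDimensional ℝ V := FiniteDimensional.span_finset ℝ s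
  obtain ⟨d, e, he, _, h⟩ := exists_onb_sub V
  exact ⟨d, e, he, fun x hx => h x (Submodule.subset_span hx)⟩

lemma der_supported (J : H →ₗ[ℝ] H) {S : Set H} (hS : ∀ h ∈ S, J h ∈ S) {f : MvPolynomial H ℝ}
    (hf : f ∈ supported ℝ S) : der J f ∈ supported ℝ S := by
  induction hf using Algebra.adjoin_induction with
  | mem x hx =>
    obtain ⟨h, hh, rfl⟩ := hx
    rw [der_X]
    exact X_mem_supported.2 (hS h hh)
  | algebraMap r =>
    rw [Derivation.map_algebraMap]
    exact zero_mem _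
  | add x y _ _ hx hy =>
    rw [map_add]
    exact add_mem hx hy
  | mul x y hx' hy' hx hy =>
    rw [Derivation.leibniz]
    exact add_mem (mul_mem hx' hy) (mul_mem hy' hx)

/-- the matrix of `J` in coordinates -/
def matJ (J : H →ₗ[ℝ] H) {d : ℕ} (e : Fin d → H) (i j : Fin d) : ℝ := ⟪e i, J (e j)⟫

lemma IsJ.inner {J : H →ₗ[ℝ] H} (hJ : IsJ J) (x y : H) : ⟪J x, J y⟫ = ⟪x, y⟫ := by
  rw [hJ.anti, hJ.sq, inner_neg_right, neg_neg]

/-- adapted coordinates -/
lemma exists_onb_J {J : H →ₗ[ℝ] H} (hJ : IsJ J) (f : MvPolynomial H ℝ) :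
    ∃ (d : ℕ) (e : Fin d → H), Orthonormal ℝ e ∧ SpanAt e (f.vars) ∧ SpanAt e (der J f).vars ∧
      IsRot (matJ J e) ∧ ∀ g, cor e (der J g) = rot (matJ J e) (cor e g) := by
  classical
  let s : Finset H := f.vars ∪ f.vars.image J
  let V : Submodule ℝ H := Submodule.span ℝ (s : Set H)
  have : FiniteDimensional ℝ V := FiniteDimensional.span_finset ℝ s
  have hVJ : ∀ h ∈ V, J h ∈ V := by
    intro h hh
    induction hh using Submodule.span_induction with
    | mem x hx =>
      rcases Finset.mem_union.1 (Finset.mem_coe.1 hx) with h1 | h1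
      · exact Submodule.subset_span
          (Finset.mem_coe.2 (Finset.mem_union_right _ (Finset.mem_image_of_mem J h1)))
      · obtain ⟨y, hy, rfl⟩ := Finset.mem_image.1 h1
        rw [hJ.sq]
        exact neg_mem (Submodule.subset_span (Finset.mem_coe.2 (Finset.mem_union_left _ hy)))
    | zero => rw [map_zero]; exact zero_mem _
    | add x y _ _ hx hy => rw [map_add]; exact add_mem hx hy
    | smul a x _ hx => rw [map_smul]; exact Submodule.smul_mem _ _ hx
  obtain ⟨d, e, he, heV, h⟩ := exists_onb_sub V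
  have hJe : ∀ i, ∑ j, ⟪e j, J (e i)⟫ • e j = J (e i) := fun i => h _ (hVJ _ (heV i))
  refine ⟨d, e, he, fun x hx => h x (Submodule.subset_span
    (Finset.mem_coe.2 (Finset.mem_union_left _ hx))), ?_, ?_, ?_⟩
  · intro x hx
    refine h x ?_
    have h1 : f ∈ supported ℝ (V : Set H) := by
      rw [mem_supported]
      intro y hy
      exact Submodule.subset_span (Finset.mem_coe.2 (Finset.mem_union_left _ (Finset.mem_coe.1 hy)))
    have h2 := der_supported J hVJ h1
    rw [mem_supported] at h2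
    exact h2 (Finset.mem_coe.2 hx)
  · refine ⟨?_, ?_, ?_⟩
    · intro i j
      unfold matJ
      rw [← neg_neg ⟪e i, J (e j)⟫, ← hJ.anti, real_inner_comm]
    · intro j
      have h1 : SpanAt e {J (e j)} := by
        intro x hx
        rw [Finset.mem_singleton.1 hx]
        exact hJe j
      have h2 := inner_of_span h1 (h' := J (e j)) (Finset.mem_singleton_self _)
      unfold matJ
      rw [h2, hJ.inner, real_inner_self_eq_norm_sq, he.1 j]
      norm_num
    · intro j k hjk
      have h1 : SpanAt e {J (e j)} := by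
        intro x hx
        rw [Finset.mem_singleton.1 hx]
        exact hJe j
      have h2 := inner_of_span h1 (h' := J (e k)) (Finset.mem_singleton_self _)
      unfold matJ
      rw [h2, hJ.inner, he.2 hjk]
  · intro g
    induction g using MvPolynomial.induction_on with
    | C a => rw [derivation_C, map_zero, cor_C, derivation_C]
    | add f g hf hg => rw [map_add, map_add, map_add, map_add, hf, hg]
    | mul_X f g hf =>
      rw [Derivation.leibniz, map_mul, Derivation.leibniz]
      simp only [smul_eq_mul, map_add, map_mul]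
      rw [hf]
      congr 2
      rw [der_X, cor_X, cor_X, map_sum]
      simp only [rot_C_mul, rot_X, Finset.mul_sum]
      rw [Finset.sum_comm]
      refine Finset.sum_congr rfl fun i _ => ?_
      have h1 : ∀ j, C ⟪e j, g⟫ * (C (matJ J e i j) * X i) =
          (C (⟪e j, g⟫ * matJ J e i j) * X i : MvPolynomial (Fin d) ℝ) := by
        intro j
        rw [map_mul]
        ring
      simp only [h1]
      rw [← Finset.sum_mul, ← map_sum]
      congr 2
      have h2 : ⟪e i, J g⟫ = -⟪J (e i), g⟫ := by rw [hJ.anti, neg_neg]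
      rw [h2, ← hJe i, sum_inner, ← Finset.sum_neg_distrib]
      refine Finset.sum_congr rfl fun j _ => ?_
      rw [real_inner_smul_left]
      unfold matJ
      have h3 : ⟪e i, J (e j)⟫ = -⟪e j, J (e i)⟫ := by
        rw [← neg_neg ⟪e i, J (e j)⟫, ← hJ.anti, real_inner_comm]
      rw [h3]
      ring

section norms

variable {W : Isonormal H P}

lemma aemeasurable_gc (W : Isonormal H P) {d : ℕ} (e : Fin d → H) : AEMeasurable (gc W e) P :=
  aemeasurable_pi_lambda _ fun _ => W.meas _

lemma derivNorm_ae {d : ℕ} {e : Fin d → H} {s : Finset H} (hs : SpanAt e s) (k : ℕ)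
    {f : MvPolynomial H ℝ} (hf : f.vars ⊆ s) :
    derivNorm W k f =ᵐ[P] fun ω => T k (fun _ : Unit => cor e f) (gc W e ω) := by
  filter_upwards [ae_goodAt W hs] with ω hω
  exact derivNorm_eq_of_good W hω hs k hf

lemma ev_ae {d : ℕ} {e : Fin d → H} {s : Finset H} (hs : SpanAt e s)
    {f : MvPolynomial H ℝ} (hf : f.vars ⊆ s) :
    ev W f =ᵐ[P] fun ω => eval (gc W e ω) (cor e f) := by
  filter_upwards [ae_goodAt W hs] with ω hω
  exact ev_eq_of_good W e hω hf

variable [IsProbabilityMeasure P]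

variable (W) in
lemma eLpNorm_gc {d : ℕ} {e : Fin d → H} (he : Orthonormal ℝ e) {g : (Fin d → ℝ) → ℝ}
    (hg : Continuous g) (p : ℝ≥0∞) :
    eLpNorm (fun ω => g (gc W e ω)) p P = eLpNorm g p (gam (Fin d)) := by
  rw [← law_gc W he, eLpNorm_map_measure hg.aestronglyMeasurable (aemeasurable_gc W e)]
  rfl

variable (W) in
lemma integral_gc {d : ℕ} {e : Fin d → H} (he : Orthonormal ℝ e) {g : (Fin d → ℝ) → ℝ}
    (hg : Continuous g) :
    ∫ ω, g (gc W e ω) ∂P = ∫ x, g x ∂(gam (Fin d)) := by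
  rw [← law_gc W he, integral_map (aemeasurable_gc W e) hg.aestronglyMeasurable]

variable (W) in
lemma eLpNorm_derivNorm {d : ℕ} {e : Fin d → H} (he : Orthonormal ℝ e) {s : Finset H}
    (hs : SpanAt e s) (k : ℕ) {f : MvPolynomial H ℝ} (hf : f.vars ⊆ s) (p : ℝ≥0∞) :
    eLpNorm (derivNorm W k f) p P = eLpNorm (T k (fun _ : Unit => cor e f)) p (gam (Fin d)) := by
  rw [eLpNorm_congr_ae (derivNorm_ae hs k hf), eLpNorm_gc W he (continuous_T k _)]

lemma aestronglyMeasurable_ev (f : MvPolynomial H ℝ) : AEStronglyMeasurable (ev W f) P := by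
  obtain ⟨d, e, _, hs⟩ := exists_onb f.vars
  refine AEStronglyMeasurable.congr ?_ (ev_ae hs (Finset.Subset.refl _)).symm
  exact ((MvPolynomial.continuous_eval _).measurable.comp_aemeasurable
    (aemeasurable_gc W e)).aestronglyMeasurable

lemma aestronglyMeasurable_derivNorm (k : ℕ) (f : MvPolynomial H ℝ) :
    AEStronglyMeasurable (derivNorm W k f) P := by
  obtain ⟨d, e, _, hs⟩ := exists_onb f.vars
  refine AEStronglyMeasurable.congr ?_ (derivNorm_ae hs k (Finset.Subset.refl _)).symm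
  exact ((continuous_T k _).measurable.comp_aemeasurable
    (aemeasurable_gc W e)).aestronglyMeasurable

lemma derivNorm_nonneg (k : ℕ) (f : MvPolynomial H ℝ) (ω : Ω) : 0 ≤ derivNorm W k f ω :=
  Real.sqrt_nonneg _

lemma eLpNorm_ev (f : MvPolynomial H ℝ) (p : ℝ≥0∞) :
    eLpNorm (ev W f) p P = eLpNorm (derivNorm W 0 f) p P := by
  refine eLpNorm_congr_norm_ae (Eventually.of_forall fun ω => ?_)
  rw [Real.norm_of_nonneg (derivNorm_nonneg 0 f ω)]
  unfold derivNorm derivInner
  rw [← sq, Real.sqrt_sq_eq_abs, Real.norm_eq_abs]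

lemma eLpNorm_ev_le_sob (f : MvPolynomial H ℝ) (p : ℝ≥0) (r : ℕ) :
    eLpNorm (ev W f) p P ≤ sob W p r f := by
  rw [eLpNorm_ev]
  exact Finset.single_le_sum (f := fun k => eLpNorm (derivNorm W k f) p P)
    (fun _ _ => zero_le) (Finset.mem_range.2 (Nat.succ_pos r))

lemma sob_mono_r (f : MvPolynomial H ℝ) (p : ℝ≥0) {r r' : ℕ} (h : r ≤ r') :
    sob W p r f ≤ sob W p r' f :=
  Finset.sum_le_sum_of_subset (Finset.range_mono (by omega))

lemma sob_mono_p (f : MvPolynomial H ℝ) {p p' : ℝ≥0} (h : p ≤ p') (r : ℕ) :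
    sob W p r f ≤ sob W p' r f :=
  Finset.sum_le_sum fun k _ => eLpNorm_le_eLpNorm_of_exponent_le (by exact_mod_cast h)
    (aestronglyMeasurable_derivNorm k f)

variable (W) in
lemma sob_lt_top (f : MvPolynomial H ℝ) (p : ℝ≥0) (r : ℕ) : sob W p r f < ∞ := by
  unfold sob
  refine ENNReal.sum_lt_top.2 fun k _ => ?_
  obtain ⟨d, e, he, hs⟩ := exists_onb f.vars
  rw [eLpNorm_derivNorm W he hs k (Finset.Subset.refl _)]
  exact (memLp_T k _ p).2

variable (W) in
lemma memLp_ev (f : MvPolynomial H ℝ) (p : ℝ≥0) : MemLp (ev W f) p P :=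
  ⟨aestronglyMeasurable_ev f, (eLpNorm_ev_le_sob f p 0).trans_lt (sob_lt_top W f p 0)⟩

variable (W) in
lemma sob_add (f g : MvPolynomial H ℝ) {p : ℝ≥0} (hp : 1 ≤ p) (r : ℕ) :
    sob W p r (f + g) ≤ sob W p r f + sob W p r g := by
  classical
  obtain ⟨d, e, he, hs⟩ := exists_onb (f.vars ∪ g.vars)
  unfold sob
  rw [← Finset.sum_add_distrib]
  refine Finset.sum_le_sum fun k _ => ?_
  rw [eLpNorm_derivNorm W he hs k Finset.subset_union_left,
    eLpNorm_derivNorm W he hs k Finset.subset_union_right,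
    eLpNorm_derivNorm W he hs k (vars_add_subset f g)]
  refine le_trans ?_ (eLpNorm_add_le (continuous_T k _).aestronglyMeasurable
    (continuous_T k _).aestronglyMeasurable (by exact_mod_cast hp))
  refine eLpNorm_mono_real fun x => ?_
  rw [Real.norm_of_nonneg (T_nonneg k _ x), map_add]
  exact T_add k _ _ x

variable (W) in
lemma sob_smul (c : ℝ) (f : MvPolynomial H ℝ) (p : ℝ≥0) (r : ℕ) :
    sob W p r (c • f) = ‖c‖ₑ * sob W p r f := by
  classical
  obtain ⟨d, e, he, hs⟩ := exists_onb (f.vars)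
  unfold sob
  rw [Finset.mul_sum]
  refine Finset.sum_congr rfl fun k _ => ?_
  have h1 : (c • f).vars ⊆ f.vars := by
    rw [MvPolynomial.smul_eq_C_mul]
    refine (vars_mul _ _).trans ?_
    rw [vars_C, Finset.empty_union]
  rw [eLpNorm_derivNorm W he hs k (Finset.Subset.refl _), eLpNorm_derivNorm W he hs k h1,
    ← eLpNorm_const_smul]
  refine eLpNorm_congr_norm_ae (Eventually.of_forall fun x => ?_)
  rw [map_smul, MvPolynomial.smul_eq_C_mul, T_C_mul]
  simp

variable (W) in
lemma sob_neg (f : MvPolynomial H ℝ) (p : ℝ≥0) (r : ℕ) :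
    sob W p r (-f) = sob W p r f := by
  have := sob_smul W (-1) f p r
  rw [neg_one_smul] at this
  rw [this]
  simp

lemma holder_two (p : ℝ≥0) : ENNReal.HolderTriple ((2 * p : ℝ≥0) : ℝ≥0∞) ((2 * p : ℝ≥0) : ℝ≥0∞) p := by
  refine ⟨?_⟩
  by_cases hp : p = 0
  · subst hp; simp
  · rw [ENNReal.coe_mul, ENNReal.mul_inv (by simp) (by simp), ← add_mul]
    norm_num
    rw [ENNReal.inv_two_add_inv_two, one_mul]

lemma eLpNorm_mul_two {α : Type*} [MeasurableSpace α] {μ : Measure α} {f g : α → ℝ}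
    (hf : AEStronglyMeasurable f μ) (hg : AEStronglyMeasurable g μ) (p : ℝ≥0) :
    eLpNorm (fun x => f x * g x) p μ ≤
      eLpNorm f (2 * p : ℝ≥0) μ * eLpNorm g (2 * p : ℝ≥0) μ := by
  have h := eLpNorm_smul_le_mul_eLpNorm (p := ((2 * p : ℝ≥0) : ℝ≥0∞))
    (q := ((2 * p : ℝ≥0) : ℝ≥0∞)) (r := (p : ℝ≥0∞)) (f := g) (φ := f) hg hf (hpqr := holder_two p)
  exact h

variable (W) in
/-- products -/
lemma sob_mul (f g : MvPolynomial H ℝ) {p : ℝ≥0} (hp : 1 ≤ p) (r : ℕ) :
    sob W p r (f * g) ≤ ((r + 1) * 2 ^ r : ℕ) * (sob W (2 * p) r f * sob W (2 * p) r g) := by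
  classical
  obtain ⟨d, e, he, hs⟩ := exists_onb (f.vars ∪ g.vars)
  have hS : ∀ h : MvPolynomial H ℝ, h.vars ⊆ f.vars ∪ g.vars →
      eLpNorm (S r (fun _ : Unit => cor e h)) (2 * p : ℝ≥0) (gam (Fin d)) ≤ sob W (2 * p) r h := by
    intro h hh
    unfold sob
    have h1 : S r (fun _ : Unit => cor e h) = ∑ k ∈ Finset.range (r + 1),
        T k (fun _ : Unit => cor e h) := by
      funext x
      unfold S
      rw [Finset.sum_apply]
    rw [h1]
    refine (eLpNorm_sum_le (fun k _ => (continuous_T k _).aestronglyMeasurable) ?_).trans ?_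
    · have : (1 : ℝ≥0) ≤ 2 * p := by
        calc (1 : ℝ≥0) ≤ p := hp
          _ ≤ 2 * p := le_mul_of_one_le_left zero_le one_le_two
      exact_mod_cast this
    · refine Finset.sum_le_sum fun k _ => ?_
      rw [eLpNorm_derivNorm W he hs k hh]
  have hk : ∀ k ∈ Finset.range (r + 1), eLpNorm (derivNorm W k (f * g)) p P ≤
      (2 ^ r : ℕ) * (sob W (2 * p) r f * sob W (2 * p) r g) := by
    intro k hk
    have hkr : k ≤ r := by have := Finset.mem_range.1 hk; omega
    rw [eLpNorm_derivNorm W he hs k (vars_mul f g)]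
    have h1 : ∀ x, ‖T k (fun _ : Unit => cor e (f * g)) x‖ ≤
        ‖((2 : ℝ) ^ r • (fun x => S r (fun _ : Unit => cor e f) x *
          S r (fun _ : Unit => cor e g) x)) x‖ := by
      intro x
      have n1 := S_nonneg r (fun _ : Unit => cor e f) x
      have n2 := S_nonneg r (fun _ : Unit => cor e g) x
      rw [Real.norm_of_nonneg (T_nonneg k _ x), Pi.smul_apply, smul_eq_mul,
        Real.norm_of_nonneg (by positivity), map_mul]
      refine (T_smul k (cor e f) (fun _ : Unit => cor e g) x _ _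
        (fun j hj => T_le_S (by omega : j ≤ r) _ x)
        (fun j hj => T_le_S (by omega : j ≤ r) _ x)).trans ?_
      exact mul_le_mul_of_nonneg_right (pow_le_pow_right₀ (by norm_num) hkr)
        (mul_nonneg n1 n2)
    refine (eLpNorm_mono h1).trans ?_
    rw [eLpNorm_const_smul]
    have h2 : ‖(2 : ℝ) ^ r‖ₑ = ((2 ^ r : ℕ) : ℝ≥0∞) := by
      rw [enorm_pow, Real.enorm_of_nonneg (by norm_num), ENNReal.ofReal_ofNat]
      norm_cast
    rw [h2]
    refine mul_le_mul_right ?_ _
    exact (eLpNorm_mul_two (continuous_S _ _).aestronglyMeasurable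
      (continuous_S _ _).aestronglyMeasurable p).trans
      (mul_le_mul' (hS f Finset.subset_union_left) (hS g Finset.subset_union_right))
  calc sob W p r (f * g) ≤ ∑ k ∈ Finset.range (r + 1),
        ((2 ^ r : ℕ) * (sob W (2 * p) r f * sob W (2 * p) r g)) := Finset.sum_le_sum hk
    _ = ((r + 1) * 2 ^ r : ℕ) * (sob W (2 * p) r f * sob W (2 * p) r g) := by
        rw [Finset.sum_const, Finset.card_range, nsmul_eq_mul]
        push_cast
        ring

end norms

end

end Pool.Agent.Helper49.Mal
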