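import Pool.Agent.Helper49.Mal.Series

open MeasureTheory ProbabilityTheory MvPolynomial
open scoped ENNReal NNReal

namespace Pool.Agent.Helper49.Mal

noncomputable section

variable {ι : Type} [Fintype ι]

lemma continuous_T (k : ℕ) {κ : Type} [Fintype κ] (F : κ → MvPolynomial ι ℝ) :
    Continuous (T k F) := by
  unfold T
  refine Real.continuous_sqrt.comp ?_
  exact continuous_finsetSum _ fun c _ => MvPolynomial.continuous_eval _

lemma continuous_S (K : ℕ) {κ : Type} [Fintype κ] (F : κ → MvPolynomial ι ℝ) :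
    Continuous (S K F) := by
  unfold S
  exact continuous_finsetSum _ fun k _ => continuous_T k F

lemma memLp_T (k : ℕ) {κ : Type} [Fintype κ] (F : κ → MvPolynomial ι ℝ) (p : ℝ≥0) :
    MemLp (T k F) p (gam ι) := by
  have h1 := memLp_eval (1 + ∑ c, NI k (F c) (F c)) p
  refine h1.mono (continuous_T k F).aestronglyMeasurable (Filter.Eventually.of_forall fun x => ?_)
  have h2 := T_nonneg k F x
  have h3 := T_sq k F x
  rw [Real.norm_of_nonneg h2]
  simp only [map_add, map_one, map_sum]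
  rw [← h3]
  rw [Real.norm_of_nonneg (by positivity)]
  nlinarith [sq_nonneg (T k F x - 1)]

lemma memLp_S (K : ℕ) {κ : Type} [Fintype κ] (F : κ → MvPolynomial ι ℝ) (p : ℝ≥0) :
    MemLp (S K F) p (gam ι) := by
  unfold S
  exact memLp_finsetSum _ fun k _ => memLp_T k F p

lemma integrable_T_pow (k : ℕ) {κ : Type} [Fintype κ] (F : κ → MvPolynomial ι ℝ) (n : ℕ) :
    Integrable (fun x => T k F x ^ n) (gam ι) := by
  have h := (memLp_T k F (n : ℝ≥0)).integrable_norm_pow'
  refine h.congr (Filter.Eventually.of_forall fun x => ?_)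
  simp only [Real.norm_of_nonneg (T_nonneg k F x)]

lemma integrable_S_pow (K : ℕ) {κ : Type} [Fintype κ] (F : κ → MvPolynomial ι ℝ) (n : ℕ) :
    Integrable (fun x => S K F x ^ n) (gam ι) := by
  have h := (memLp_S K F (n : ℝ≥0)).integrable_norm_pow'
  refine h.congr (Filter.Eventually.of_forall fun x => ?_)
  simp only [Real.norm_of_nonneg (S_nonneg K F x)]

lemma pow_le_one_add_pow {s : ℝ} (hs : 0 ≤ s) {j P : ℕ} (h : j ≤ P) : s ^ j ≤ 1 + s ^ P := by
  rcases le_total s 1 with h1 | h1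
  · have := pow_le_one₀ hs h1 (n := j)
    have h2 := pow_nonneg hs P
    linarith
  · have := pow_le_pow_right₀ h1 h
    linarith

lemma integral_S_pow_le {K : ℕ} {κ : Type} [Fintype κ] (F : κ → MvPolynomial ι ℝ) {j P : ℕ}
    (h : j ≤ P) (hS : ∫ x, S K F x ^ P ∂(gam ι) ≤ 1) : ∫ x, S K F x ^ j ∂(gam ι) ≤ 2 := by
  calc ∫ x, S K F x ^ j ∂(gam ι) ≤ ∫ x, (1 + S K F x ^ P) ∂(gam ι) := by
        refine integral_mono (integrable_S_pow K F j)
          ((integrable_const 1).add (integrable_S_pow K F P)) fun x => ?_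
        exact pow_le_one_add_pow (S_nonneg K F x) h
    _ = 1 + ∫ x, S K F x ^ P ∂(gam ι) := by
        rw [integral_add (integrable_const 1) (integrable_S_pow K F P)]
        simp
    _ ≤ 2 := by linarith

lemma ex_sum_NI (k : ℕ) {κ : Type} [Fintype κ] (F : κ → MvPolynomial ι ℝ) :
    ∑ c, ex (NI k (F c) (F c)) = ∫ x, T k F x ^ 2 ∂(gam ι) := by
  rw [← ex_sum]
  unfold ex
  refine integral_congr_ae (Filter.Eventually.of_forall fun x => ?_)
  simp only [map_sum]
  exact (T_sq k F x).symm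

lemma ex_mul_le' (f g : MvPolynomial ι ℝ) {l : ℝ} (hl : 0 < l) :
    |ex (f * g)| ≤ (l * ex (f * f) + l⁻¹ * ex (g * g)) / 2 := by
  have h0 : ∀ x, |eval x (f * g)| ≤ eval x (C (l / 2) * (f * f) + C (l⁻¹ / 2) * (g * g)) := by
    intro x
    simp only [map_mul, map_add, eval_C]
    have h1 := sq_nonneg (Real.sqrt l * |eval x f| - Real.sqrt l⁻¹ * |eval x g|)
    have h2 : Real.sqrt l * Real.sqrt l⁻¹ = 1 := by
      rw [← Real.sqrt_mul hl.le, mul_inv_cancel₀ hl.ne', Real.sqrt_one]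
    have h3 := Real.sq_sqrt hl.le
    have h4 := Real.sq_sqrt (inv_pos.2 hl).le
    rw [abs_mul]
    have h5 : (Real.sqrt l * |eval x f| - Real.sqrt l⁻¹ * |eval x g|) ^ 2 =
        l * |eval x f| ^ 2 - 2 * (|eval x f| * |eval x g|) + l⁻¹ * |eval x g| ^ 2 := by
      calc (Real.sqrt l * |eval x f| - Real.sqrt l⁻¹ * |eval x g|) ^ 2
          = Real.sqrt l ^ 2 * |eval x f| ^ 2
            - 2 * (Real.sqrt l * Real.sqrt l⁻¹) * (|eval x f| * |eval x g|) +
            Real.sqrt l⁻¹ ^ 2 * |eval x g| ^ 2 := by ring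
        _ = _ := by rw [h2, h3, h4]; ring
    rw [h5, sq_abs, sq_abs] at h1
    nlinarith
  have h1 : |ex (f * g)| ≤ ex (C (l / 2) * (f * f) + C (l⁻¹ / 2) * (g * g)) := by
    unfold ex
    refine (abs_integral_le_integral_abs).trans ?_
    exact integral_mono (integrable_eval _).abs (integrable_eval _) h0
  rw [ex_add, ex_C_mul, ex_C_mul] at h1
  linarith

/-- the two-point functional -/
lemma two_point_base (n P : ℕ) : ∃ c : ℝ, 0 ≤ c ∧ ∀ (ι : Type) [Fintype ι] (A : ι → ι → ℝ),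
    IsRot A → ∀ (E : Type) [Fintype E] (F : E → MvPolynomial ι ℝ),
    ∫ x, S (2 * n) F x ^ P ∂(gam ι) ≤ 1 →
    ∀ (κ : Type) [Fintype κ] (U V : κ → MvPolynomial ι ℝ) (a b : ℕ) (MU MV : ℝ),
      0 < MU → 0 < MV → 2 * a ≤ P → 2 * b ≤ P →
      (∀ x, T 0 U x ≤ MU * S (2 * n) F x ^ a) →
      (∀ k ≤ 2 * n, ∀ x, T k V x ≤ MV * S (2 * n) F x ^ b) →
      |ex (PowerSeries.coeff n (ZZ (rot A) U V))| ≤ c * (MU * MV) := by
  obtain ⟨c1, hc1, h1⟩ := ex_NI_iter n 0
  refine ⟨(1 + c1 * (2 * n + 1)), by positivity, ?_⟩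
  intro ι _ A hA E _ F hS κ _ U V a b MU MV hMU hMV ha hb hU hV
  rw [coeff_ZZ, ex_sum]
  have hfac : (1 : ℝ) ≤ (n.factorial : ℝ) := by exact_mod_cast Nat.one_le_iff_ne_zero.2 (Nat.factorial_ne_zero n)
  have h2 : ∀ c, |ex (U c * dc (rot A) n (V c))| ≤
      (MV / MU * ex (U c * U c) + (MV / MU)⁻¹ * ex ((rot A)^[n] (V c) * (rot A)^[n] (V c))) / 2 := by
    intro c
    have h3 : U c * dc (rot A) n (V c) =
        C ((n.factorial : ℝ)⁻¹) * (U c * (rot A)^[n] (V c)) := by
      unfold dc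
      rw [MvPolynomial.smul_eq_C_mul]
      ring
    rw [h3, ex_C_mul, abs_mul]
    have h4 := ex_mul_le' (U c) ((rot A)^[n] (V c)) (div_pos hMV hMU)
    have h5 : |((n.factorial : ℝ)⁻¹)| ≤ 1 := by
      rw [abs_of_nonneg (by positivity)]
      exact inv_le_one_of_one_le₀ hfac
    calc |((n.factorial : ℝ)⁻¹)| * |ex (U c * (rot A)^[n] (V c))|
        ≤ 1 * |ex (U c * (rot A)^[n] (V c))| := mul_le_mul_of_nonneg_right h5 (abs_nonneg _)
      _ ≤ _ := by rw [one_mul]; exact h4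
  have hUb : ∑ c, ex (U c * U c) ≤ 2 * MU ^ 2 := by
    have h3 := ex_sum_NI 0 U
    simp only [NI_zero] at h3
    rw [h3]
    calc ∫ x, T 0 U x ^ 2 ∂(gam ι) ≤ ∫ x, MU ^ 2 * S (2 * n) F x ^ (2 * a) ∂(gam ι) := by
          refine integral_mono (integrable_T_pow 0 U 2)
            ((integrable_S_pow (2 * n) F (2 * a)).const_mul _) fun x => ?_
          have h4 := pow_le_pow_left₀ (T_nonneg 0 U x) (hU x) 2
          calc T 0 U x ^ 2 ≤ (MU * S (2 * n) F x ^ a) ^ 2 := h4
            _ = MU ^ 2 * S (2 * n) F x ^ (2 * a) := by ring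
      _ = MU ^ 2 * ∫ x, S (2 * n) F x ^ (2 * a) ∂(gam ι) := integral_const_mul _ _
      _ ≤ MU ^ 2 * 2 := mul_le_mul_of_nonneg_left (integral_S_pow_le F ha hS) (by positivity)
      _ = 2 * MU ^ 2 := by ring
  have hVk : ∀ l ∈ Finset.range (0 + 2 * n + 1), ∑ c, ex (NI l (V c) (V c)) ≤ 2 * MV ^ 2 := by
    intro l hl
    rw [ex_sum_NI]
    calc ∫ x, T l V x ^ 2 ∂(gam ι) ≤ ∫ x, MV ^ 2 * S (2 * n) F x ^ (2 * b) ∂(gam ι) := by
          refine integral_mono (integrable_T_pow l V 2)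
            ((integrable_S_pow (2 * n) F (2 * b)).const_mul _) fun x => ?_
          have h4 := pow_le_pow_left₀ (T_nonneg l V x)
            (hV l (by have := Finset.mem_range.1 hl; omega) x) 2
          calc T l V x ^ 2 ≤ (MV * S (2 * n) F x ^ b) ^ 2 := h4
            _ = MV ^ 2 * S (2 * n) F x ^ (2 * b) := by ring
      _ = MV ^ 2 * ∫ x, S (2 * n) F x ^ (2 * b) ∂(gam ι) := integral_const_mul _ _
      _ ≤ MV ^ 2 * 2 := mul_le_mul_of_nonneg_left (integral_S_pow_le F hb hS) (by positivity)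
      _ = 2 * MV ^ 2 := by ring
  have hVb : ∑ c, ex ((rot A)^[n] (V c) * (rot A)^[n] (V c)) ≤
      c1 * ((2 * n + 1) * (2 * MV ^ 2)) := by
    calc ∑ c, ex ((rot A)^[n] (V c) * (rot A)^[n] (V c))
        ≤ ∑ c, c1 * ∑ l ∈ Finset.range (0 + 2 * n + 1), ex (NI l (V c) (V c)) :=
          Finset.sum_le_sum fun c _ => h1 ι A hA (V c)
      _ = c1 * ∑ l ∈ Finset.range (0 + 2 * n + 1), ∑ c, ex (NI l (V c) (V c)) := by
          rw [← Finset.mul_sum, Finset.sum_comm]
      _ ≤ c1 * ∑ l ∈ Finset.range (0 + 2 * n + 1), 2 * MV ^ 2 :=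
          mul_le_mul_of_nonneg_left (Finset.sum_le_sum hVk) hc1
      _ = c1 * ((2 * n + 1) * (2 * MV ^ 2)) := by
          rw [Finset.sum_const, Finset.card_range, nsmul_eq_mul]
          push_cast
          ring
  calc |∑ c, ex (U c * dc (rot A) n (V c))| ≤ ∑ c, |ex (U c * dc (rot A) n (V c))| :=
        Finset.abs_sum_le_sum_abs _ _
    _ ≤ ∑ c, (MV / MU * ex (U c * U c) +
        (MV / MU)⁻¹ * ex ((rot A)^[n] (V c) * (rot A)^[n] (V c))) / 2 :=
        Finset.sum_le_sum fun c _ => h2 c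
    _ = (MV / MU * ∑ c, ex (U c * U c) +
        (MV / MU)⁻¹ * ∑ c, ex ((rot A)^[n] (V c) * (rot A)^[n] (V c))) / 2 := by
        rw [← Finset.sum_div, Finset.sum_add_distrib, ← Finset.mul_sum, ← Finset.mul_sum]
    _ ≤ (MV / MU * (2 * MU ^ 2) + (MV / MU)⁻¹ * (c1 * ((2 * n + 1) * (2 * MV ^ 2)))) / 2 := by
        have h5 := mul_le_mul_of_nonneg_left hUb (div_pos hMV hMU).le
        have h6 := mul_le_mul_of_nonneg_left hVb (inv_pos.2 (div_pos hMV hMU)).le
        linarith
    _ = (1 + c1 * (2 * n + 1)) * (MU * MV) := by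
        field_simp

lemma two_point (n P m : ℕ) : ∃ c : ℝ, 0 ≤ c ∧ ∀ (ι : Type) [Fintype ι] (A : ι → ι → ℝ),
    IsRot A → ∀ (E : Type) [Fintype E] (F : E → MvPolynomial ι ℝ),
    ∫ x, S (2 * n) F x ^ P ∂(gam ι) ≤ 1 →
    ∀ (κ : Type) [Fintype κ] (U V : κ → MvPolynomial ι ℝ) (a b : ℕ) (MU MV : ℝ),
      0 < MU → 0 < MV → 2 * (a + 2 * m) ≤ P → 2 * (b + 2 * m) ≤ P →
      (∀ x, T 0 U x ≤ MU * S (2 * n) F x ^ a) →
      (∀ k ≤ 2 * n, ∀ x, T k V x ≤ MV * S (2 * n) F x ^ b) →
      |ex (PowerSeries.coeff n (PP (rot A) F ^ m * ZZ (rot A) U V))| ≤ c * (MU * MV) := by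
  induction m with
  | zero =>
    obtain ⟨c, hc, h⟩ := two_point_base n P
    refine ⟨c, hc, ?_⟩
    intro ι _ A hA E _ F hS κ _ U V a b MU MV hMU hMV ha hb hU hV
    rw [pow_zero, one_mul]
    exact h ι A hA E F hS κ U V a b MU MV hMU hMV (by omega) (by omega) hU hV
  | succ m ih =>
    obtain ⟨c, hc, h⟩ := ih
    refine ⟨c * (4 ^ (2 * n) + 2 * 2 ^ (2 * n) + 1), by positivity, ?_⟩
    intro ι _ A hA E _ F hS κ _ U V a b MU MV hMU hMV ha hb hU hV
    have hS0 : ∀ x, 0 ≤ S (2 * n) F x := fun x => S_nonneg _ _ _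
    have hq : ∀ j ≤ 2 * n, ∀ x, T j (fun _ : Unit => ∑ e, F e * F e) x ≤
        2 ^ (2 * n) * S (2 * n) F x ^ 2 := by
      intro j hj x
      refine (T_dot j F F x (S (2 * n) F x) (S (2 * n) F x)
        (fun i hi => T_le_S (by omega) F x) (fun i hi => T_le_S (by omega) F x)).trans ?_
      rw [← sq]
      exact mul_le_mul_of_nonneg_right (pow_le_pow_right₀ (by norm_num) hj) (sq_nonneg _)
    have hq0 : ∀ x, T 0 (fun _ : Unit => ∑ e, F e * F e) x ≤ S (2 * n) F x ^ 2 := by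
      intro x
      have := T_dot 0 F F x (S (2 * n) F x) (S (2 * n) F x)
        (fun i hi => T_le_S (by omega) F x) (fun i hi => T_le_S (by omega) F x)
      rw [pow_zero, one_mul, ← sq] at this
      exact this
    have h1 := h ι A hA E F hS κ U (fun c => (∑ e, F e * F e) * V c) a (b + 2) MU
      (4 ^ (2 * n) * MV) hMU (by positivity) (by omega) (by omega) hU (by
        intro k hk x
        refine (T_smul k (∑ e, F e * F e) V x (2 ^ (2 * n) * S (2 * n) F x ^ 2)
          (MV * S (2 * n) F x ^ b) (fun j hj => hq j (by omega) x)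
          (fun j hj => hV j (by omega) x)).trans ?_
        calc 2 ^ k * (2 ^ (2 * n) * S (2 * n) F x ^ 2 * (MV * S (2 * n) F x ^ b))
            ≤ 2 ^ (2 * n) * (2 ^ (2 * n) * S (2 * n) F x ^ 2 * (MV * S (2 * n) F x ^ b)) := by
              refine mul_le_mul_of_nonneg_right (pow_le_pow_right₀ (by norm_num) hk) ?_
              have := hS0 x
              positivity
          _ = 4 ^ (2 * n) * MV * S (2 * n) F x ^ (b + 2) := by
              rw [show (4 : ℝ) = 2 * 2 by norm_num, mul_pow]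
              ring)
    have h2 := h ι A hA E F hS (E × κ) (fun p => F p.1 * U p.2) (fun p => F p.1 * V p.2)
      (a + 1) (b + 1) MU (2 ^ (2 * n) * MV) hMU (by positivity) (by omega) (by omega) (by
        intro x
        refine (T_tensor 0 F U x (S (2 * n) F x) (MU * S (2 * n) F x ^ a)
          (fun j hj => T_le_S (by omega) F x)
          (fun j hj => by rw [Nat.le_zero.1 hj]; exact hU x)).trans (le_of_eq ?_)
        ring) (by
        intro k hk x
        refine (T_tensor k F V x (S (2 * n) F x) (MV * S (2 * n) F x ^ b)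
          (fun j hj => T_le_S (by omega) F x) (fun j hj => hV j (by omega) x)).trans ?_
        calc 2 ^ k * (S (2 * n) F x * (MV * S (2 * n) F x ^ b))
            ≤ 2 ^ (2 * n) * (S (2 * n) F x * (MV * S (2 * n) F x ^ b)) := by
              refine mul_le_mul_of_nonneg_right (pow_le_pow_right₀ (by norm_num) hk) ?_
              have := hS0 x
              positivity
          _ = 2 ^ (2 * n) * MV * S (2 * n) F x ^ (b + 1) := by ring)
    have h3 := h ι A hA E F hS κ (fun c => (∑ e, F e * F e) * U c) V (a + 2) b MU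
      MV hMU hMV (by omega) (by omega) (by
        intro x
        refine (T_smul 0 (∑ e, F e * F e) U x (S (2 * n) F x ^ 2)
          (MU * S (2 * n) F x ^ a) (fun j hj => by rw [Nat.le_zero.1 hj]; exact hq0 x)
          (fun j hj => by rw [Nat.le_zero.1 hj]; exact hU x)).trans (le_of_eq ?_)
        ring) hV
    have h4 : PP (rot A) F ^ (m + 1) * ZZ (rot A) U V =
        PP (rot A) F ^ m * ZZ (rot A) U (fun c => (∑ e, F e * F e) * V c) -
        2 * (PP (rot A) F ^ m *
          ZZ (rot A) (fun p : E × κ => F p.1 * U p.2) (fun p : E × κ => F p.1 * V p.2)) +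
        PP (rot A) F ^ m * ZZ (rot A) (fun c => (∑ e, F e * F e) * U c) V := by
      rw [pow_succ, mul_assoc, PP_mul_ZZ]
      ring
    have h5 : ∀ q : PowerSeries (MvPolynomial ι ℝ), ex (PowerSeries.coeff n (2 * q)) =
        2 * ex (PowerSeries.coeff n q) := by
      intro q
      rw [two_mul, map_add, ex_add]
      ring
    rw [h4, map_add, map_sub, ex_add, ex_sub, h5]
    have e1 := abs_le.1 h1
    have e2 := abs_le.1 h2
    have e3 := abs_le.1 h3
    rw [abs_le]
    constructor <;> linarith [e1.1, e1.2, e2.1, e2.2, e3.1, e3.2]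

lemma T_zero_fam (k : ℕ) {κ : Type} [Fintype κ] (x : ι → ℝ) :
    T k (fun _ : κ => (0 : MvPolynomial ι ℝ)) x = 0 := by
  unfold T
  simp [NI_zero_left]

lemma T_one (k : ℕ) (x : ι → ℝ) : T k (fun _ : Unit => (1 : MvPolynomial ι ℝ)) x ≤ 1 := by
  cases k with
  | zero => rw [T_zero]; simp
  | succ k =>
    rw [T_succ]
    have : (fun p : Unit × ι => pderiv p.2 (1 : MvPolynomial ι ℝ)) = fun _ => 0 := by
      funext p; exact pderiv_one
    rw [this, T_zero_fam]
    exact zero_le_one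

lemma ZZ_one {R : Type*} [CommRing R] [Algebra ℝ R] (D : Derivation ℝ R R) :
    ZZ D (fun _ : Unit => (1 : R)) (fun _ : Unit => (1 : R)) = 1 := by
  ext n
  rw [coeff_ZZ]
  cases n with
  | zero => simp [dc_zero]
  | succ n =>
    have h : D^[n + 1] (1 : R) = 0 := by
      rw [Function.iterate_succ_apply, Derivation.map_one_eq_zero, iter_zero]
    simp [dc, h, PowerSeries.coeff_one]

/-- moment bound for a normalised family -/
lemma rot_moment_norm (m : ℕ) : ∃ c : ℝ, 0 ≤ c ∧ ∀ (ι : Type) [Fintype ι] (A : ι → ι → ℝ),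
    IsRot A → ∀ (E : Type) [Fintype E] (F : E → MvPolynomial ι ℝ),
    ∫ x, S (4 * m) F x ^ (4 * m) ∂(gam ι) ≤ 1 →
      ∫ x, T 0 (fun e => rot A (F e)) x ^ (2 * m) ∂(gam ι) ≤ c := by
  obtain ⟨c, hc, h⟩ := two_point (2 * m) (4 * m) m
  refine ⟨c, hc, ?_⟩
  intro ι _ A hA E _ F hS
  have h1 := h ι A hA E F (by rw [show 2 * (2 * m) = 4 * m by ring]; exact hS) Unit
    (fun _ => 1) (fun _ => 1) 0 0 1 1 one_pos one_pos (by omega) (by omega)
    (fun x => by rw [pow_zero, mul_one]; exact T_one 0 x)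
    (fun k _ x => by rw [pow_zero, mul_one]; exact T_one k x)
  rw [ZZ_one, mul_one, coeff_PP_pow, mul_one, mul_one] at h1
  refine le_trans (le_of_eq ?_) ((le_abs_self _).trans h1)
  unfold ex
  refine integral_congr_ae (Filter.Eventually.of_forall fun x => ?_)
  simp only [map_pow, map_sum]
  rw [pow_mul, T_sq]
  simp only [NI_zero, ← sq, map_pow]

lemma T_scale (k : ℕ) {κ : Type} [Fintype κ] {a : ℝ} (ha : 0 ≤ a) (F : κ → MvPolynomial ι ℝ)
    (x : ι → ℝ) : T k (fun c => C a * F c) x = a * T k F x := by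
  rw [T_C_mul, abs_of_nonneg ha]

lemma S_scale (K : ℕ) {κ : Type} [Fintype κ] {a : ℝ} (ha : 0 ≤ a) (F : κ → MvPolynomial ι ℝ)
    (x : ι → ℝ) : S K (fun c => C a * F c) x = a * S K F x := by
  unfold S
  rw [Finset.mul_sum]
  exact Finset.sum_congr rfl fun k _ => T_scale k ha F x

lemma rot_C_mul (A : ι → ι → ℝ) (a : ℝ) (g : MvPolynomial ι ℝ) :
    rot A (C a * g) = C a * rot A g := by
  rw [← MvPolynomial.smul_eq_C_mul, ← MvPolynomial.smul_eq_C_mul, Derivation.map_smul]

/-- moment bound -/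
lemma rot_moment (m : ℕ) : ∃ c : ℝ, 0 ≤ c ∧ ∀ (ι : Type) [Fintype ι] (A : ι → ι → ℝ),
    IsRot A → ∀ (E : Type) [Fintype E] (F : E → MvPolynomial ι ℝ) (μ : ℝ), 0 < μ →
    ∫ x, S (4 * m) F x ^ (4 * m) ∂(gam ι) ≤ μ ^ (4 * m) →
      ∫ x, T 0 (fun e => rot A (F e)) x ^ (2 * m) ∂(gam ι) ≤ c * μ ^ (2 * m) := by
  obtain ⟨c, hc, h⟩ := rot_moment_norm m
  refine ⟨c, hc, ?_⟩
  intro ι _ A hA E _ F μ hμ hS
  have hi : 0 ≤ μ⁻¹ := (inv_pos.2 hμ).le
  have h1 := h ι A hA E (fun e => C μ⁻¹ * F e) (by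
    simp only [S_scale _ hi, mul_pow]
    rw [integral_const_mul, inv_pow, inv_mul_le_iff₀ (by positivity), mul_one]
    exact hS)
  simp only [rot_C_mul, T_scale _ hi, mul_pow] at h1
  rw [integral_const_mul, inv_pow, inv_mul_le_iff₀ (by positivity)] at h1
  rw [mul_comm c]
  exact h1

/-- all derivatives -/
theorem rot_bound (m k : ℕ) : ∃ c : ℝ, 0 ≤ c ∧ ∀ (ι : Type) [Fintype ι] (A : ι → ι → ℝ),
    IsRot A → ∀ (E : Type) [Fintype E] (F : E → MvPolynomial ι ℝ) (μ : ℝ), 0 < μ →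
    ∫ x, S (4 * m + k) F x ^ (4 * m) ∂(gam ι) ≤ μ ^ (4 * m) →
      ∫ x, T k (fun e => rot A (F e)) x ^ (2 * m) ∂(gam ι) ≤ c * μ ^ (2 * m) := by
  induction k with
  | zero => exact rot_moment m
  | succ k ih =>
    obtain ⟨c, hc, h⟩ := ih
    refine ⟨2 ^ (2 * m) * (2 + c), by positivity, ?_⟩
    intro ι _ A hA E _ F μ hμ hS
    have h1 : ∀ x, T (k + 1) (fun e => rot A (F e)) x ≤ S (4 * m + (k + 1)) F x +
        T k (fun p : E × ι => rot A (pderiv p.2 (F p.1))) x := by
      intro x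
      rw [T_succ]
      have h2 : (fun p : E × ι => pderiv p.2 (rot A (F p.1))) =
          fun p => rv A (F p.1) p.2 + rot A (pderiv p.2 (F p.1)) := by
        funext p; exact pderiv_rot A _ _
      rw [h2]
      refine (T_add k _ _ x).trans ?_
      refine add_le_add ?_ le_rfl
      have h3 : T k (fun p : E × ι => rv A (F p.1) p.2) x = T (k + 1) F x := by
        unfold T
        congr 1
        rw [Fintype.sum_prod_type]
        refine Finset.sum_congr rfl fun e _ => ?_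
        rw [← sum_NI_rv hA k (F e), map_sum]
      rw [h3]
      exact T_le_S (by omega) F x
    have h2 := h ι A hA (E × ι) (fun p => pderiv p.2 (F p.1)) μ hμ (by
      refine le_trans ?_ hS
      refine integral_mono (integrable_S_pow _ _ _) (integrable_S_pow _ _ _) fun x => ?_
      exact pow_le_pow_left₀ (S_nonneg _ _ _) (S_deriv (4 * m + k) F x) _)
    have h3 : ∫ x, S (4 * m + (k + 1)) F x ^ (2 * m) ∂(gam ι) ≤ 2 * μ ^ (2 * m) := by
      have hi : 0 ≤ μ⁻¹ := (inv_pos.2 hμ).le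
      have h4 := integral_S_pow_le (K := 4 * m + (k + 1)) (fun e => C μ⁻¹ * F e)
        (j := 2 * m) (P := 4 * m) (by omega) (by
          simp only [S_scale _ hi, mul_pow]
          rw [integral_const_mul, inv_pow, inv_mul_le_iff₀ (by positivity), mul_one]
          exact hS)
      simp only [S_scale _ hi, mul_pow] at h4
      rw [integral_const_mul, inv_pow, inv_mul_le_iff₀ (by positivity)] at h4
      linarith
    calc ∫ x, T (k + 1) (fun e => rot A (F e)) x ^ (2 * m) ∂(gam ι)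
        ≤ ∫ x, 2 ^ (2 * m) * (S (4 * m + (k + 1)) F x ^ (2 * m) +
            T k (fun p : E × ι => rot A (pderiv p.2 (F p.1))) x ^ (2 * m)) ∂(gam ι) := by
          refine integral_mono (integrable_T_pow _ _ _)
            (((integrable_S_pow _ _ _).add (integrable_T_pow _ _ _)).const_mul _) fun x => ?_
          have h5 := pow_le_pow_left₀ (T_nonneg _ _ _) (h1 x) (2 * m)
          have h6 := add_pow_le (S_nonneg (4 * m + (k + 1)) F x)
            (T_nonneg k (fun p : E × ι => rot A (pderiv p.2 (F p.1))) x) (2 * m)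
          refine h5.trans (h6.trans ?_)
          refine mul_le_mul_of_nonneg_right (pow_le_pow_right₀ (by norm_num) (by omega)) ?_
          have := S_nonneg (4 * m + (k + 1)) F x
          have := T_nonneg k (fun p : E × ι => rot A (pderiv p.2 (F p.1))) x
          positivity
      _ = 2 ^ (2 * m) * (∫ x, S (4 * m + (k + 1)) F x ^ (2 * m) ∂(gam ι) +
            ∫ x, T k (fun p : E × ι => rot A (pderiv p.2 (F p.1))) x ^ (2 * m) ∂(gam ι)) := by
          rw [integral_const_mul, integral_add (integrable_S_pow _ _ _) (integrable_T_pow _ _ _)]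
      _ ≤ 2 ^ (2 * m) * (2 * μ ^ (2 * m) + c * μ ^ (2 * m)) :=
          mul_le_mul_of_nonneg_left (add_le_add h3 h2) (by positivity)
      _ = 2 ^ (2 * m) * (2 + c) * μ ^ (2 * m) := by ring

end

end Pool.Agent.Helper49.Mal
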