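import Pool.Agent.Helper49.Mal.Norms

open MeasureTheory ProbabilityTheory MvPolynomial
open scoped ENNReal NNReal

namespace Pool.Agent.Helper49.Mal

noncomputable section

variable {ι : Type} [Fintype ι]

/-- the derivation with `X_j ↦ ∑ i, A i j X_i` -/
def rot (A : ι → ι → ℝ) : Derivation ℝ (MvPolynomial ι ℝ) (MvPolynomial ι ℝ) :=
  mkDerivation ℝ fun j => ∑ i, C (A i j) * X i

/-- antisymmetric orthogonal matrices -/
structure IsRot (A : ι → ι → ℝ) : Prop where
  anti : ∀ i j, A i j = -A j i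
  diag : ∀ j, ∑ i, A i j * A i j = 1
  off : ∀ j k, j ≠ k → ∑ i, A i j * A i k = 0

lemma rot_X (A : ι → ι → ℝ) (j : ι) : rot A (X j) = ∑ i, C (A i j) * X i :=
  mkDerivation_X _ _ _

lemma derivation_sum_apply {R : Type*} [CommRing R] [Algebra ℝ R] {κ : Type*} (s : Finset κ)
    (D : κ → Derivation ℝ R R) (g : R) : (∑ j ∈ s, D j) g = ∑ j ∈ s, D j g := by
  classical
  induction s using Finset.induction_on with
  | empty => simp
  | insert a s ha ih => rw [Finset.sum_insert ha, Finset.sum_insert ha, Derivation.add_apply, ih]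

lemma rot_apply (A : ι → ι → ℝ) (g : MvPolynomial ι ℝ) :
    rot A g = ∑ j, (∑ i, C (A i j) * X i) * pderiv j g := by
  classical
  have h : rot A = ∑ j, (∑ i, C (A i j) * X i) • pderiv j := by
    refine derivation_ext fun k => ?_
    rw [rot_X, derivation_sum_apply]
    simp only [Derivation.smul_apply, smul_eq_mul]
    symm
    rw [Finset.sum_eq_single k]
    · rw [pderiv_X_self, mul_one]
    · intro j _ hjk
      rw [pderiv_X_of_ne (Ne.symm hjk), mul_zero]
    · intro h; exact absurd (Finset.mem_univ k) h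
  rw [h, derivation_sum_apply]
  simp only [Derivation.smul_apply, smul_eq_mul]

/-- the vector field `A ∇ g` -/
def rv (A : ι → ι → ℝ) (g : MvPolynomial ι ℝ) (i : ι) : MvPolynomial ι ℝ :=
  ∑ j, C (A i j) * pderiv j g

lemma rot_eq (A : ι → ι → ℝ) (g : MvPolynomial ι ℝ) : rot A g = ∑ i, X i * rv A g i := by
  rw [rot_apply]
  unfold rv
  simp only [Finset.sum_mul, Finset.mul_sum]
  rw [Finset.sum_comm]
  refine Finset.sum_congr rfl fun i _ => Finset.sum_congr rfl fun j _ => ?_
  ring

omit [Fintype ι] in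
lemma pderiv_comm (i j : ι) (g : MvPolynomial ι ℝ) :
    pderiv i (pderiv j g) = pderiv j (pderiv i g) := by
  classical
  have h : ⁅(pderiv i : Derivation ℝ (MvPolynomial ι ℝ) (MvPolynomial ι ℝ)),
      (pderiv j : Derivation ℝ (MvPolynomial ι ℝ) (MvPolynomial ι ℝ))⁆ = 0 := by
    refine derivation_ext fun k => ?_
    rw [Derivation.commutator_apply, pderiv_X, pderiv_X]
    simp only [Pi.single_apply]
    split_ifs <;> simp
  have h2 := congrArg (fun D => D g) h
  simp only [Derivation.commutator_apply, Derivation.coe_zero, Pi.zero_apply] at h2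
  exact sub_eq_zero.1 h2

lemma pderiv_rot (A : ι → ι → ℝ) (k : ι) (g : MvPolynomial ι ℝ) :
    pderiv k (rot A g) = rv A g k + rot A (pderiv k g) := by
  classical
  rw [rot_eq, rot_eq, map_sum]
  have h1 : ∀ i, pderiv k (X i * rv A g i) =
      (if i = k then rv A g i else 0) + X i * rv A (pderiv k g) i := by
    intro i
    rw [pderiv_mul, pderiv_X, Pi.single_apply]
    have h2 : pderiv k (rv A g i) = rv A (pderiv k g) i := by
      unfold rv
      rw [map_sum]
      refine Finset.sum_congr rfl fun j _ => ?_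
      rw [pderiv_C_mul, pderiv_comm]
    rw [h2]
    split_ifs <;> simp
  simp only [h1]
  rw [Finset.sum_add_distrib, Finset.sum_ite_eq' Finset.univ k]
  simp

lemma pderiv_rv (A : ι → ι → ℝ) (k i : ι) (g : MvPolynomial ι ℝ) :
    pderiv k (rv A g i) = rv A (pderiv k g) i := by
  unfold rv
  rw [map_sum]
  refine Finset.sum_congr rfl fun j _ => ?_
  rw [pderiv_C_mul, pderiv_comm]

lemma div_rv {A : ι → ι → ℝ} (hA : IsRot A) (g : MvPolynomial ι ℝ) :
    ∑ i, pderiv i (rv A g i) = 0 := by
  have h1 : ∑ i, pderiv i (rv A g i) = ∑ i, ∑ j, C (A i j) * pderiv i (pderiv j g) := by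
    refine Finset.sum_congr rfl fun i _ => ?_
    rw [pderiv_rv]
    unfold rv
    exact Finset.sum_congr rfl fun j _ => by rw [pderiv_comm]
  have h2 : ∑ i, ∑ j, C (A i j) * pderiv i (pderiv j g) =
      -∑ i, ∑ j, C (A i j) * pderiv i (pderiv j g) := by
    conv_lhs => rw [Finset.sum_comm]
    rw [← Finset.sum_neg_distrib]
    refine Finset.sum_congr rfl fun i _ => ?_
    rw [← Finset.sum_neg_distrib]
    refine Finset.sum_congr rfl fun j _ => ?_
    rw [hA.anti j i, pderiv_comm, map_neg]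
    ring
  rw [h1]
  have h3 := eq_neg_iff_add_eq_zero.1 h2
  have h4 : (2 : MvPolynomial ι ℝ) * ∑ i, ∑ j, C (A i j) * pderiv i (pderiv j g) = 0 := by
    rw [two_mul]; exact h3
  rcases mul_eq_zero.1 h4 with h5 | h5
  · exact absurd h5 two_ne_zero
  · exact h5

/-- integration by parts for the rotation derivation against a vector field -/
lemma ex_dot_rv {A : ι → ι → ℝ} (hA : IsRot A) (U g : MvPolynomial ι ℝ) :
    ex (U * rot A g) = ∑ i, ex (pderiv i U * rv A g i) := by
  rw [rot_eq, Finset.mul_sum, ex_sum]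
  have h1 : ∀ i, ex (U * (X i * rv A g i)) =
      ex (pderiv i U * rv A g i) + ex (U * pderiv i (rv A g i)) := by
    intro i
    rw [show U * (X i * rv A g i) = X i * (U * rv A g i) by ring, ibp, pderiv_mul, ex_add]
  simp only [h1]
  rw [Finset.sum_add_distrib, ← ex_sum Finset.univ fun i => U * pderiv i (rv A g i),
    ← Finset.mul_sum, div_rv hA, mul_zero, ex_zero, add_zero]

lemma ex_rot {A : ι → ι → ℝ} (hA : IsRot A) (g : MvPolynomial ι ℝ) : ex (rot A g) = 0 := by
  have h := ex_dot_rv hA 1 g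
  simpa [ex_zero] using h

lemma ex_rot_anti {A : ι → ι → ℝ} (hA : IsRot A) (U g : MvPolynomial ι ℝ) :
    ex (rot A U * g) = -ex (U * rot A g) := by
  have h := ex_rot hA (U * g)
  rw [Derivation.leibniz, ex_add] at h
  simp only [smul_eq_mul] at h
  rw [mul_comm (rot A U) g]
  linarith

/-- orthogonality: the matrix acts isometrically on families -/
lemma NI_orth {A : ι → ι → ℝ} (hA : IsRot A) (a : ℕ) (u : ι → MvPolynomial ι ℝ) :
    ∑ k, NI a (∑ j, C (A k j) * u j) (∑ j, C (A k j) * u j) = ∑ j, NI a (u j) (u j) := by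
  classical
  have horth : ∀ j j', ∑ k, A k j * A k j' = if j = j' then 1 else 0 := by
    intro j j'
    split_ifs with h
    · rw [← h]; exact hA.diag j
    · exact hA.off j j' h
  calc ∑ k, NI a (∑ j, C (A k j) * u j) (∑ j, C (A k j) * u j)
      = ∑ k, ∑ j, ∑ j', C (A k j * A k j') * NI a (u j) (u j') := by
        refine Finset.sum_congr rfl fun k _ => ?_
        rw [NI_sum_left]
        refine Finset.sum_congr rfl fun j _ => ?_
        rw [NI_sum_right]
        refine Finset.sum_congr rfl fun j' _ => ?_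
        rw [NI_C_mul_left, NI_C_mul_right, map_mul]
        ring
    _ = ∑ j, ∑ j', ∑ k, C (A k j * A k j') * NI a (u j) (u j') := by
        rw [Finset.sum_comm]
        refine Finset.sum_congr rfl fun j _ => ?_
        rw [Finset.sum_comm]
    _ = ∑ j, ∑ j', (if j = j' then NI a (u j) (u j') else 0) := by
        refine Finset.sum_congr rfl fun j _ => Finset.sum_congr rfl fun j' _ => ?_
        rw [← Finset.sum_mul, ← map_sum, horth]
        split_ifs <;> simp
    _ = ∑ j, NI a (u j) (u j) := by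
        refine Finset.sum_congr rfl fun j _ => ?_
        simp

lemma sum_NI_rv {A : ι → ι → ℝ} (hA : IsRot A) (a : ℕ) (g : MvPolynomial ι ℝ) :
    ∑ k, NI a (rv A g k) (rv A g k) = NI (a + 1) g g := NI_orth hA a fun j => pderiv j g

lemma ex_nonneg_of {g : MvPolynomial ι ℝ} (h : ∀ x, 0 ≤ eval x g) : 0 ≤ ex g :=
  integral_nonneg h

lemma ex_mono {g g' : MvPolynomial ι ℝ} (h : ∀ x, eval x g ≤ eval x g') : ex g ≤ ex g' :=
  integral_mono (integrable_eval g) (integrable_eval g') h

lemma ex_NI_nonneg (k : ℕ) (g : MvPolynomial ι ℝ) : 0 ≤ ex (NI k g g) :=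
  ex_nonneg_of (NI_nonneg k g)

lemma ex_mul_le (f g : MvPolynomial ι ℝ) : ex (f * g) ≤ (ex (f * f) + ex (g * g)) / 2 := by
  have h : ex (f * g) ≤ ex (C (1 / 2) * (f * f + g * g)) := by
    refine ex_mono fun x => ?_
    simp only [map_mul, map_add, eval_C]
    nlinarith [sq_nonneg (eval x f - eval x g)]
  rw [ex_C_mul, ex_add] at h
  linarith

/-- the `L²` bound -/
lemma ex_rot_sq {A : ι → ι → ℝ} (hA : IsRot A) (g : MvPolynomial ι ℝ) :
    ex (rot A g * rot A g) ≤ ex (NI 1 g g) + ex (NI 2 g g) := by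
  rw [ex_dot_rv hA]
  have h1 : ∀ i, ex (pderiv i (rot A g) * rv A g i) =
      ex (rv A g i * rv A g i) + ex (rv A g i * rot A (pderiv i g)) := by
    intro i
    rw [pderiv_rot, add_mul, ex_add, mul_comm (rot A (pderiv i g))]
  simp only [h1]
  rw [Finset.sum_add_distrib]
  refine add_le_add (le_of_eq ?_) ?_
  · rw [← ex_sum]
    congr 1
    exact sum_NI_rv hA 0 g
  · have h2 : ∀ i, ex (rv A g i * rot A (pderiv i g)) =
        ∑ k, ex (rv A (pderiv k g) i * rv A (pderiv i g) k) := by
      intro i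
      rw [ex_dot_rv hA]
      simp only [pderiv_rv]
    simp only [h2]
    calc ∑ i, ∑ k, ex (rv A (pderiv k g) i * rv A (pderiv i g) k)
        ≤ ∑ i, ∑ k, (ex (rv A (pderiv k g) i * rv A (pderiv k g) i) +
            ex (rv A (pderiv i g) k * rv A (pderiv i g) k)) / 2 :=
          Finset.sum_le_sum fun i _ => Finset.sum_le_sum fun k _ => ex_mul_le _ _
      _ = ∑ i, ∑ k, ex (rv A (pderiv i g) k * rv A (pderiv i g) k) := by
          have h3 : ∑ i, ∑ k, ex (rv A (pderiv k g) i * rv A (pderiv k g) i) =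
              ∑ i, ∑ k, ex (rv A (pderiv i g) k * rv A (pderiv i g) k) := Finset.sum_comm
          simp only [add_div, Finset.sum_add_distrib, ← Finset.sum_div]
          rw [h3]
          ring
      _ = ex (NI 2 g g) := by
          rw [NI_succ, ex_sum]
          refine Finset.sum_congr rfl fun i _ => ?_
          rw [← ex_sum]
          congr 1
          exact sum_NI_rv hA 0 _

lemma NI_add_le (k : ℕ) (u v : MvPolynomial ι ℝ) (x : ι → ℝ) :
    eval x (NI k (u + v) (u + v)) ≤ 2 * eval x (NI k u u) + 2 * eval x (NI k v v) := by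
  have h := NI_nonneg k (u - v) x
  rw [sub_eq_add_neg, show -v = C (-1) * v by simp] at h
  simp only [NI_add_left, NI_add_right, NI_C_mul_left, NI_C_mul_right, map_add, map_mul,
    eval_C] at h ⊢
  linarith

lemma ex_NI_add_le (k : ℕ) (u v : MvPolynomial ι ℝ) :
    ex (NI k (u + v) (u + v)) ≤ 2 * ex (NI k u u) + 2 * ex (NI k v v) := by
  rw [← ex_C_mul, ← ex_C_mul, ← ex_add]
  refine ex_mono fun x => ?_
  simpa using NI_add_le k u v x

/-- `L²` bounds for all derivatives -/
lemma ex_NI_rot (k : ℕ) : ∃ c : ℝ, 0 ≤ c ∧ ∀ (ι : Type) [Fintype ι] (A : ι → ι → ℝ),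
    IsRot A → ∀ g : MvPolynomial ι ℝ,
      ex (NI k (rot A g) (rot A g)) ≤ c * ∑ l ∈ Finset.range (k + 3), ex (NI l g g) := by
  induction k with
  | zero =>
    refine ⟨1, zero_le_one, fun ι _ A hA g => ?_⟩
    rw [NI_zero, one_mul]
    refine (ex_rot_sq hA g).trans ?_
    rw [Finset.sum_range_succ, Finset.sum_range_succ, Finset.sum_range_succ]
    simp only [Finset.range_zero, Finset.sum_empty]
    linarith [ex_NI_nonneg 0 g]
  | succ k ih =>
    obtain ⟨c, hc, h⟩ := ih
    refine ⟨2 * c + 2, by positivity, fun ι _ A hA g => ?_⟩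
    have h1 : ex (NI (k + 1) (rot A g) (rot A g)) ≤
        ∑ j, (2 * ex (NI k (rv A g j) (rv A g j)) +
          2 * ex (NI k (rot A (pderiv j g)) (rot A (pderiv j g)))) := by
      rw [NI_succ, ex_sum]
      refine Finset.sum_le_sum fun j _ => ?_
      rw [pderiv_rot]
      exact ex_NI_add_le _ _ _
    have h2 : ∑ j, ex (NI k (rv A g j) (rv A g j)) = ex (NI (k + 1) g g) := by
      rw [← ex_sum, sum_NI_rv hA]
    have h3 : ∑ j, ex (NI k (rot A (pderiv j g)) (rot A (pderiv j g))) ≤
        c * ∑ l ∈ Finset.range (k + 3), ex (NI (l + 1) g g) := by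
      calc ∑ j, ex (NI k (rot A (pderiv j g)) (rot A (pderiv j g)))
          ≤ ∑ j, c * ∑ l ∈ Finset.range (k + 3), ex (NI l (pderiv j g) (pderiv j g)) :=
            Finset.sum_le_sum fun j _ => h ι A hA _
        _ = c * ∑ l ∈ Finset.range (k + 3), ex (NI (l + 1) g g) := by
            rw [← Finset.mul_sum, Finset.sum_comm]
            congr 1
            refine Finset.sum_congr rfl fun l _ => ?_
            rw [NI_succ, ex_sum]
    have h4 : ∑ l ∈ Finset.range (k + 3), ex (NI (l + 1) g g) ≤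
        ∑ l ∈ Finset.range (k + 1 + 3), ex (NI l g g) := by
      rw [show k + 1 + 3 = (k + 3) + 1 by ring, Finset.sum_range_succ' (fun l => ex (NI l g g))]
      linarith [ex_NI_nonneg 0 g]
    have h5 : ex (NI (k + 1) g g) ≤ ∑ l ∈ Finset.range (k + 1 + 3), ex (NI l g g) :=
      Finset.single_le_sum (f := fun l => ex (NI l g g)) (fun j _ => ex_NI_nonneg j g)
        (Finset.mem_range.2 (by omega))
    rw [Finset.sum_add_distrib, ← Finset.mul_sum, ← Finset.mul_sum, h2] at h1
    have h6 := mul_le_mul_of_nonneg_left h4 hc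
    have h7 : 0 ≤ ∑ l ∈ Finset.range (k + 1 + 3), ex (NI l g g) :=
      Finset.sum_nonneg fun j _ => ex_NI_nonneg j g
    nlinarith

/-- `L²` bounds for iterates -/
lemma ex_NI_iter (n : ℕ) : ∀ k : ℕ, ∃ c : ℝ, 0 ≤ c ∧ ∀ (ι : Type) [Fintype ι] (A : ι → ι → ℝ),
    IsRot A → ∀ g : MvPolynomial ι ℝ,
      ex (NI k ((rot A)^[n] g) ((rot A)^[n] g)) ≤
        c * ∑ l ∈ Finset.range (k + 2 * n + 1), ex (NI l g g) := by
  induction n with
  | zero =>
    intro k
    refine ⟨1, zero_le_one, fun ι _ A hA g => ?_⟩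
    rw [Function.iterate_zero, id, one_mul]
    exact Finset.single_le_sum (f := fun l => ex (NI l g g)) (fun j _ => ex_NI_nonneg j g)
      (Finset.mem_range.2 (by omega))
  | succ n ih =>
    intro k
    obtain ⟨c1, hc1, h1⟩ := ex_NI_rot k
    choose c hc h using ih
    refine ⟨c1 * ∑ l ∈ Finset.range (k + 3), c l,
      mul_nonneg hc1 (Finset.sum_nonneg fun l _ => hc l), fun ι _ A hA g => ?_⟩
    rw [Function.iterate_succ_apply']
    refine (h1 ι A hA _).trans ?_
    rw [mul_assoc]
    refine mul_le_mul_of_nonneg_left ?_ hc1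
    rw [Finset.sum_mul]
    refine Finset.sum_le_sum fun l hl => ?_
    refine (h l ι A hA g).trans (mul_le_mul_of_nonneg_left ?_ (hc l))
    refine Finset.sum_le_sum_of_subset_of_nonneg (Finset.range_mono ?_)
      fun j _ _ => ex_NI_nonneg j g
    have := Finset.mem_range.1 hl
    omega

end

end Pool.Agent.Helper49.Mal
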