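import Pool.Agent.Helper49.Mal.RotL2

open Finset

namespace Pool.Agent.Helper49.Mal

noncomputable section

variable {R : Type*} [CommRing R] [Algebra ℝ R] (D : Derivation ℝ R R)

/-- normalised iterates -/
def dc (n : ℕ) (a : R) : R := ((n.factorial : ℝ)⁻¹) • (D^[n] a)

lemma dc_zero (a : R) : dc D 0 a = a := by simp [dc]

lemma dc_one (a : R) : dc D 1 a = D a := by simp [dc]

lemma dc_succ (n : ℕ) (a : R) : ((n : ℝ) + 1) • dc D (n + 1) a = D (dc D n a) := by
  unfold dc
  rw [Function.iterate_succ_apply', Derivation.map_smul, smul_smul]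
  congr 1
  rw [Nat.factorial_succ]
  push_cast
  have h1 : (n : ℝ) + 1 ≠ 0 := by positivity
  have h2 : (n.factorial : ℝ) ≠ 0 := by positivity
  field_simp

lemma dc_mul (n : ℕ) (a b : R) :
    dc D n (a * b) = ∑ p ∈ antidiagonal n, dc D p.1 a * dc D p.2 b := by
  induction n with
  | zero => simp [dc_zero]
  | succ n ih =>
    have h1 : (n : ℝ) + 1 ≠ 0 := by positivity
    have h2 : ((n : ℝ) + 1) • dc D (n + 1) (a * b) =
        ((n : ℝ) + 1) • ∑ p ∈ antidiagonal (n + 1), dc D p.1 a * dc D p.2 b := by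
      rw [dc_succ, ih, map_sum]
      have h3 : ∀ p ∈ antidiagonal n, D (dc D p.1 a * dc D p.2 b) =
          ((p.1 : ℝ) + 1) • (dc D (p.1 + 1) a * dc D p.2 b) +
            ((p.2 : ℝ) + 1) • (dc D p.1 a * dc D (p.2 + 1) b) := by
        intro p _
        rw [Derivation.leibniz, ← dc_succ, ← dc_succ]
        simp only [smul_eq_mul, mul_smul_comm]
        rw [mul_comm (dc D p.2 b), add_comm]
      rw [Finset.sum_congr rfl h3, Finset.sum_add_distrib]
      have h4 : ∑ p ∈ antidiagonal (n + 1), (p.1 : ℝ) • (dc D p.1 a * dc D p.2 b) =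
          ∑ p ∈ antidiagonal n, ((p.1 : ℝ) + 1) • (dc D (p.1 + 1) a * dc D p.2 b) := by
        rw [Finset.Nat.sum_antidiagonal_succ]
        simp
      have h5 : ∑ p ∈ antidiagonal (n + 1), (p.2 : ℝ) • (dc D p.1 a * dc D p.2 b) =
          ∑ p ∈ antidiagonal n, ((p.2 : ℝ) + 1) • (dc D p.1 a * dc D (p.2 + 1) b) := by
        rw [Finset.Nat.sum_antidiagonal_succ']
        simp
      rw [← h4, ← h5, ← Finset.sum_add_distrib, Finset.smul_sum]
      refine Finset.sum_congr rfl fun p hp => ?_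
      rw [← add_smul]
      congr 1
      have := mem_antidiagonal.1 hp
      exact_mod_cast this
    have h6 := congrArg (fun z => ((n : ℝ) + 1)⁻¹ • z) h2
    simp only [smul_smul, inv_mul_cancel₀ h1, one_smul] at h6
    exact h6

/-- the exponential series of a derivation -/
def Phi (a : R) : PowerSeries R := PowerSeries.mk fun n => dc D n a

lemma coeff_Phi (n : ℕ) (a : R) : PowerSeries.coeff n (Phi D a) = dc D n a :=
  PowerSeries.coeff_mk _ _

lemma Phi_mul (a b : R) : Phi D (a * b) = Phi D a * Phi D b := by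
  ext n
  rw [coeff_Phi, PowerSeries.coeff_mul, dc_mul]
  simp only [coeff_Phi]

lemma iter_add (n : ℕ) (a b : R) : D^[n] (a + b) = D^[n] a + D^[n] b := by
  induction n with
  | zero => rfl
  | succ n ih => simp only [Function.iterate_succ_apply', ih, map_add]

lemma iter_zero (n : ℕ) : D^[n] (0 : R) = 0 := by
  induction n with
  | zero => rfl
  | succ n ih => rw [Function.iterate_succ_apply', ih, map_zero]

lemma Phi_add (a b : R) : Phi D (a + b) = Phi D a + Phi D b := by
  ext n
  rw [map_add, coeff_Phi, coeff_Phi, coeff_Phi]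
  unfold dc
  rw [iter_add, smul_add]

lemma Phi_zero : Phi D 0 = 0 := by
  ext n
  rw [map_zero, coeff_Phi]
  unfold dc
  rw [iter_zero, smul_zero]

lemma Phi_sum {κ : Type*} (s : Finset κ) (f : κ → R) :
    Phi D (∑ c ∈ s, f c) = ∑ c ∈ s, Phi D (f c) := by
  classical
  induction s using Finset.induction_on with
  | empty => simp [Phi_zero]
  | insert a s ha ih => rw [Finset.sum_insert ha, Finset.sum_insert ha, Phi_add, ih]

variable {E : Type} [Fintype E]

/-- the series `∑ e, (Φ(F e) - F e)^2` -/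
def PP (F : E → R) : PowerSeries R := ∑ e, (Phi D (F e) - PowerSeries.C (F e)) ^ 2

lemma coeff_PP_pow (F : E → R) (m : ℕ) :
    PowerSeries.coeff (2 * m) (PP D F ^ m) = (∑ e, D (F e) ^ 2) ^ m := by
  have h1 : ∀ e, ∃ Q : PowerSeries R, Phi D (F e) - PowerSeries.C (F e) = PowerSeries.X * Q ∧
      PowerSeries.constantCoeff Q = D (F e) := by
    intro e
    have h2 : PowerSeries.X ∣ Phi D (F e) - PowerSeries.C (F e) := by
      rw [PowerSeries.X_dvd_iff, map_sub, ← PowerSeries.coeff_zero_eq_constantCoeff_apply,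
        ← PowerSeries.coeff_zero_eq_constantCoeff_apply, coeff_Phi, dc_zero,
        PowerSeries.coeff_zero_C, sub_self]
    obtain ⟨Q, hQ⟩ := h2
    refine ⟨Q, hQ, ?_⟩
    have h3 := congrArg (PowerSeries.coeff 1) hQ
    rw [map_sub, coeff_Phi, dc_one, mul_comm PowerSeries.X Q,
      show (1 : ℕ) = 0 + 1 from rfl, PowerSeries.coeff_succ_mul_X,
      PowerSeries.coeff_zero_eq_constantCoeff_apply] at h3
    rw [← h3, PowerSeries.coeff_C]
    simp
  choose Q hQ hQ0 using h1
  have h2 : PP D F = PowerSeries.X ^ 2 * ∑ e, Q e ^ 2 := by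
    unfold PP
    rw [Finset.mul_sum]
    refine Finset.sum_congr rfl fun e _ => ?_
    rw [hQ e, mul_pow]
  rw [h2, mul_pow, ← pow_mul, mul_comm (PowerSeries.X ^ (2 * m))]
  have h3 := PowerSeries.coeff_mul_X_pow ((∑ e, Q e ^ 2) ^ m) (2 * m) 0
  rw [zero_add] at h3
  rw [h3, PowerSeries.coeff_zero_eq_constantCoeff_apply, map_pow, map_sum]
  congr 1
  refine Finset.sum_congr rfl fun e _ => ?_
  rw [map_pow, hQ0]

lemma PP_eq (F : E → R) : PP D F = Phi D (∑ e, F e * F e) -
    2 * (∑ e, PowerSeries.C (F e) * Phi D (F e)) + PowerSeries.C (∑ e, F e * F e) := by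
  unfold PP
  rw [Phi_sum, map_sum, Finset.mul_sum, ← Finset.sum_sub_distrib, ← Finset.sum_add_distrib]
  refine Finset.sum_congr rfl fun e _ => ?_
  rw [Phi_mul, map_mul]
  ring

/-- two-point functions -/
def ZZ {κ : Type} [Fintype κ] (U V : κ → R) : PowerSeries R :=
  ∑ c, PowerSeries.C (U c) * Phi D (V c)

lemma coeff_ZZ (n : ℕ) {κ : Type} [Fintype κ] (U V : κ → R) :
    PowerSeries.coeff n (ZZ D U V) = ∑ c, U c * dc D n (V c) := by
  unfold ZZ
  rw [map_sum]
  refine Finset.sum_congr rfl fun c _ => ?_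
  rw [PowerSeries.coeff_C_mul, coeff_Phi]

lemma PP_mul_ZZ (F : E → R) {κ : Type} [Fintype κ] (U V : κ → R) :
    PP D F * ZZ D U V = ZZ D U (fun c => (∑ e, F e * F e) * V c) -
      2 * ZZ D (fun p : E × κ => F p.1 * U p.2) (fun p : E × κ => F p.1 * V p.2) +
      ZZ D (fun c => (∑ e, F e * F e) * U c) V := by
  rw [PP_eq]
  unfold ZZ
  rw [add_mul, sub_mul]
  congr 1
  · congr 1
    · rw [Finset.mul_sum]
      refine Finset.sum_congr rfl fun c _ => ?_
      rw [Phi_mul]
      ring
    · rw [mul_assoc, Fintype.sum_prod_type, Finset.sum_mul]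
      congr 1
      refine Finset.sum_congr rfl fun e _ => ?_
      rw [Finset.mul_sum]
      refine Finset.sum_congr rfl fun c _ => ?_
      rw [Phi_mul, map_mul]
      ring
  · rw [Finset.mul_sum]
    refine Finset.sum_congr rfl fun c _ => ?_
    rw [map_mul]
    ring

end

end Pool.Agent.Helper49.Mal
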