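import Pool.Agent.Helper49.Mal.Delta

open MeasureTheory ProbabilityTheory MvPolynomial Filter
open scoped ENNReal NNReal RealInnerProductSpace Topology

namespace Pool.Agent.Helper49.Mal

noncomputable section

set_option maxHeartbeats 400000

/-- Lebesgue measure on `[0,1]` -/
abbrev lam : Measure ℝ := volume.restrict (Set.Icc (0 : ℝ) 1)

/-- `L²([0,1]; ℝⁿ)` -/
abbrev LL (n : ℕ) := Lp (EuclideanSpace ℝ (Fin n)) 2 lam

/-- exchange of the two halves of `[0,1]` -/
def tau (t : ℝ) : ℝ := if t < 1 / 2 then t + 1 / 2 else t - 1 / 2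

/-- the sign -/
def sg (t : ℝ) : ℝ := if t < 1 / 2 then 1 else -1

lemma measurable_tau : Measurable tau :=
  Measurable.ite measurableSet_Iio (measurable_id.add_const _) (measurable_id.sub_const _)

lemma measurable_sg : Measurable sg :=
  Measurable.ite measurableSet_Iio measurable_const measurable_const

lemma lam_eq : lam = volume.restrict (Set.Ico (0 : ℝ) (1 / 2)) +
    volume.restrict (Set.Ico (1 / 2 : ℝ) 1) := by
  rw [← Measure.restrict_union (by
      rw [Set.disjoint_left]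
      intro x hx hy
      exact absurd hx.2 (not_lt.2 hy.1)) measurableSet_Ico,
    Set.Ico_union_Ico_eq_Ico (by norm_num) (by norm_num)]
  exact (restrict_Ico_eq_restrict_Icc).symm

lemma map_add_half : (volume.restrict (Set.Ico (0 : ℝ) (1 / 2))).map (fun t => t + 1 / 2) =
    volume.restrict (Set.Ico (1 / 2 : ℝ) 1) := by
  have h := (measurePreserving_add_right (volume : Measure ℝ) (1 / 2)).restrict_preimage
    (s := Set.Ico (1 / 2 : ℝ) 1) measurableSet_Ico
  have h2 : (fun t : ℝ => t + 1 / 2) ⁻¹' Set.Ico (1 / 2 : ℝ) 1 = Set.Ico 0 (1 / 2) := by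
    ext t
    simp only [Set.mem_preimage, Set.mem_Ico]
    constructor
    · rintro ⟨h1, h2⟩; constructor <;> linarith
    · rintro ⟨h1, h2⟩; constructor <;> linarith
  rw [h2] at h
  exact h.map_eq

lemma map_sub_half : (volume.restrict (Set.Ico (1 / 2 : ℝ) 1)).map (fun t => t - 1 / 2) =
    volume.restrict (Set.Ico (0 : ℝ) (1 / 2)) := by
  have h := (measurePreserving_sub_right (volume : Measure ℝ) (1 / 2)).restrict_preimage
    (s := Set.Ico (0 : ℝ) (1 / 2)) measurableSet_Ico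
  have h2 : (fun t : ℝ => t - 1 / 2) ⁻¹' Set.Ico (0 : ℝ) (1 / 2) = Set.Ico (1 / 2) 1 := by
    ext t
    simp only [Set.mem_preimage, Set.mem_Ico]
    constructor
    · rintro ⟨h1, h2⟩; constructor <;> linarith
    · rintro ⟨h1, h2⟩; constructor <;> linarith
  rw [h2] at h
  exact h.map_eq

lemma mp_tau : MeasurePreserving tau lam lam := by
  refine ⟨measurable_tau, ?_⟩
  conv_lhs => rw [lam_eq]
  rw [Measure.map_add _ _ measurable_tau, lam_eq, add_comm]
  congr 1
  · rw [← map_sub_half]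
    refine Measure.map_congr ?_
    filter_upwards [ae_restrict_mem measurableSet_Ico] with t ht
    unfold tau
    rw [if_neg (not_lt.2 ht.1)]
  · rw [← map_add_half]
    refine Measure.map_congr ?_
    filter_upwards [ae_restrict_mem measurableSet_Ico] with t ht
    unfold tau
    rw [if_pos ht.2]

lemma ae_Ico : ∀ᵐ t ∂lam, t ∈ Set.Ico (0 : ℝ) 1 := by
  have h : lam = volume.restrict (Set.Ico (0 : ℝ) 1) := (restrict_Ico_eq_restrict_Icc).symm
  rw [h]
  exact ae_restrict_mem measurableSet_Ico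

lemma tau_tau {t : ℝ} (ht : t ∈ Set.Ico (0 : ℝ) 1) : tau (tau t) = t := by
  unfold tau
  split_ifs with h1 h2 h2
  · exfalso; linarith [ht.1]
  · ring
  · ring
  · exfalso; linarith [ht.2]

lemma sg_tau {t : ℝ} (ht : t ∈ Set.Ico (0 : ℝ) 1) : sg (tau t) = -sg t := by
  unfold tau sg
  split_ifs with h1 h2 h2
  · exfalso; linarith [ht.1]
  · rfl
  · norm_num
  · exfalso; linarith [ht.2]

lemma abs_sg (t : ℝ) : |sg t| = 1 := by
  unfold sg
  split_ifs <;> simp

lemma sg_mul_self (t : ℝ) : sg t * sg t = 1 := by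
  unfold sg
  split_ifs <;> norm_num

variable {n : ℕ}

lemma memLp_swap (h : LL n) : MemLp (fun t => sg t • (h : ℝ → EuclideanSpace ℝ (Fin n)) (tau t)) 2
    lam := by
  have h1 : MemLp (fun t => (h : ℝ → EuclideanSpace ℝ (Fin n)) (tau t)) 2 lam :=
    (Lp.memLp h).comp_measurePreserving mp_tau
  refine h1.of_le (measurable_sg.aestronglyMeasurable.smul h1.1)
    (Eventually.of_forall fun t => ?_)
  rw [norm_smul, Real.norm_eq_abs, abs_sg, one_mul]

/-- the half swap as a function -/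
def swFun (h : LL n) : LL n := (memLp_swap h).toLp _

lemma swFun_ae (h : LL n) : ∀ᵐ t ∂lam, (swFun h : ℝ → EuclideanSpace ℝ (Fin n)) t =
    sg t • (h : ℝ → EuclideanSpace ℝ (Fin n)) (tau t) := (memLp_swap h).coeFn_toLp

lemma ae_tau {p : ℝ → Prop} (h : ∀ᵐ t ∂lam, p t) : ∀ᵐ t ∂lam, p (tau t) :=
  mp_tau.quasiMeasurePreserving.ae h

/-- The half swap: `(A₀ h)(t) = h(t + 1/2)` for `t < 1/2` and `-h(t - 1/2)` for `t ≥ 1/2`. -/
def swap (n : ℕ) : LL n →ₗ[ℝ] LL n where
  toFun := swFun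
  map_add' f g := by
    refine Lp.ext ?_
    filter_upwards [swFun_ae (f + g), swFun_ae f, swFun_ae g, Lp.coeFn_add (swFun f) (swFun g),
      ae_tau (Lp.coeFn_add f g)] with t h1 h2 h3 h4 h5
    rw [h1, h4, Pi.add_apply, h2, h3, h5, Pi.add_apply, smul_add]
  map_smul' c f := by
    refine Lp.ext ?_
    filter_upwards [swFun_ae (c • f), swFun_ae f, Lp.coeFn_smul c (swFun f),
      ae_tau (Lp.coeFn_smul c f)] with t h1 h2 h3 h4
    simp only [RingHom.id_apply]
    rw [h1, h3, Pi.smul_apply, h2, h4, Pi.smul_apply, smul_comm]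

lemma swap_ae (h : LL n) : ∀ᵐ t ∂lam, (swap n h : ℝ → EuclideanSpace ℝ (Fin n)) t =
    sg t • (h : ℝ → EuclideanSpace ℝ (Fin n)) (tau t) := swFun_ae h

lemma isJ_swap (n : ℕ) : IsJ (swap n) := by
  refine ⟨fun x y => ?_, fun x => ?_⟩
  · rw [L2.inner_def, L2.inner_def, ← integral_neg]
    have h1 : ∫ t, ⟪(swap n x : ℝ → EuclideanSpace ℝ (Fin n)) t,
        (y : ℝ → EuclideanSpace ℝ (Fin n)) t⟫ ∂lam =
        ∫ t, ⟪(swap n x : ℝ → EuclideanSpace ℝ (Fin n)) (tau t),
        (y : ℝ → EuclideanSpace ℝ (Fin n)) (tau t)⟫ ∂lam := by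
      have h2 := integral_map (μ := lam) (φ := tau) measurable_tau.aemeasurable
        (f := fun t => ⟪(swap n x : ℝ → EuclideanSpace ℝ (Fin n)) t,
        (y : ℝ → EuclideanSpace ℝ (Fin n)) t⟫) (by
          rw [mp_tau.map_eq]
          exact (Lp.aestronglyMeasurable _).inner (Lp.aestronglyMeasurable _))
      rw [mp_tau.map_eq] at h2
      exact h2
    rw [h1]
    refine integral_congr_ae ?_
    filter_upwards [ae_tau (swap_ae x), swap_ae y, ae_Ico] with t h2 h3 h4
    rw [h2, h3, tau_tau h4, sg_tau h4, real_inner_smul_left, real_inner_smul_right]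
    ring
  · refine Lp.ext ?_
    filter_upwards [swap_ae (swap n x), ae_tau (swap_ae x), ae_Ico, Lp.coeFn_neg x]
      with t h1 h2 h3 h4
    rw [h1, h2, tau_tau h3, sg_tau h3, smul_smul, h4, Pi.neg_apply]
    rw [mul_neg, sg_mul_self, neg_one_smul]

/-- disjoint intervals in the first half -/
def iv (k : ℕ) : Set ℝ := Set.Ioo (1 / ((k : ℝ) + 3)) (1 / ((k : ℝ) + 2))

lemma iv_sub {k : ℕ} {t : ℝ} (h : t ∈ iv k) : 0 < t ∧ t < 1 / 2 := by
  constructor
  · exact lt_trans (by positivity) h.1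
  · refine h.2.trans_le ?_
    have : (0 : ℝ) ≤ k := Nat.cast_nonneg k
    exact one_div_le_one_div_of_le (by norm_num) (by linarith)

lemma iv_disj {k l : ℕ} (h : k < l) {t : ℝ} (hk : t ∈ iv k) (hl : t ∈ iv l) : False := by
  have h1 : (k : ℝ) + 3 ≤ (l : ℝ) + 2 := by
    have : k + 3 ≤ l + 2 := by omega
    exact_mod_cast this
  have h2 : 1 / ((l : ℝ) + 2) ≤ 1 / ((k : ℝ) + 3) :=
    one_div_le_one_div_of_le (by positivity) h1
  have := hk.1
  have := hl.2
  linarith

lemma lam_iv_ne (k : ℕ) : lam (iv k) ≠ 0 := by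
  have h1 : iv k ⊆ Set.Icc 0 1 := by
    intro t ht
    have := iv_sub ht
    constructor <;> linarith [this.1, this.2]
  have h3 : lam (iv k) = volume (iv k ∩ Set.Icc 0 1) :=
    Measure.restrict_apply (measurableSet_Ioo : MeasurableSet (iv k))
  rw [h3, Set.inter_eq_left.2 h1]
  unfold iv
  rw [Real.volume_Ioo]
  have h2 : 1 / ((k : ℝ) + 3) < 1 / ((k : ℝ) + 2) :=
    one_div_lt_one_div_of_lt (by positivity) (by linarith)
  simp only [ne_eq, ENNReal.ofReal_eq_zero, not_le]
  linarith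

lemma lam_iv_top (k : ℕ) : lam (iv k) ≠ ∞ := measure_ne_top _ _

/-- unnormalised test directions -/
def ek (n : ℕ) (hn : 0 < n) (k : ℕ) : LL n :=
  indicatorConstLp 2 (measurableSet_Ioo : MeasurableSet (iv k)) (lam_iv_top k)
    (EuclideanSpace.single ⟨0, hn⟩ (1 : ℝ))

lemma ek_norm_pos (hn : 0 < n) (k : ℕ) : 0 < ‖ek n hn k‖ := by
  unfold ek
  rw [norm_indicatorConstLp (by norm_num) (by norm_num)]
  have h1 : 0 < lam.real (iv k) :=
    ENNReal.toReal_pos (lam_iv_ne k) (lam_iv_top k)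
  have h2 : ‖(EuclideanSpace.single ⟨0, hn⟩ (1 : ℝ) : EuclideanSpace ℝ (Fin n))‖ = 1 := by simp
  rw [h2, one_mul]
  exact Real.rpow_pos_of_pos h1 _

/-- orthonormal test directions -/
def hk (n : ℕ) (hn : 0 < n) (k : ℕ) : LL n := ‖ek n hn k‖⁻¹ • ek n hn k

lemma hk_ae (hn : 0 < n) (k : ℕ) : ∀ᵐ t ∂lam, t ∉ iv k →
    (hk n hn k : ℝ → EuclideanSpace ℝ (Fin n)) t = 0 := by
  filter_upwards [Lp.coeFn_smul (‖ek n hn k‖⁻¹) (ek n hn k),
    indicatorConstLp_coeFn_notMem (p := 2) (hs := (measurableSet_Ioo : MeasurableSet (iv k)))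
      (hμs := lam_iv_top k) (c := (EuclideanSpace.single ⟨0, hn⟩ (1 : ℝ) :
        EuclideanSpace ℝ (Fin n)))] with t h1 h2 ht
  unfold hk
  rw [h1, Pi.smul_apply]
  have h3 : (ek n hn k : ℝ → EuclideanSpace ℝ (Fin n)) t = 0 := h2 ht
  rw [h3, smul_zero]

lemma hk_orthonormal (hn : 0 < n) : Orthonormal ℝ (hk n hn) := by
  constructor
  · intro k
    unfold hk
    rw [norm_smul, norm_inv, norm_norm, inv_mul_cancel₀ (ek_norm_pos hn k).ne']
  · intro k l hkl
    rw [L2.inner_def]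
    have h0 : ∀ᵐ t ∂lam, ⟪(hk n hn k : ℝ → EuclideanSpace ℝ (Fin n)) t,
        (hk n hn l : ℝ → EuclideanSpace ℝ (Fin n)) t⟫ = 0 := by
      filter_upwards [hk_ae hn k, hk_ae hn l] with t h1 h2
      by_cases hk' : t ∈ iv k
      · have hl' : t ∉ iv l := by
          intro hl'
          rcases lt_or_gt_of_ne hkl with h | h
          · exact iv_disj h hk' hl'
          · exact iv_disj h hl' hk'
        rw [h2 hl', inner_zero_right]
      · rw [h1 hk', inner_zero_left]
    rw [integral_congr_ae h0]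
    simp

/-- the supports of `h` and of its swap are disjoint -/
lemma hk_swap_disj (hn : 0 < n) (k : ℕ) : ∀ᵐ t ∂lam,
    (hk n hn k : ℝ → EuclideanSpace ℝ (Fin n)) t = 0 ∨
      (swap n (hk n hn k) : ℝ → EuclideanSpace ℝ (Fin n)) t = 0 := by
  filter_upwards [hk_ae hn k, ae_tau (hk_ae hn k), swap_ae (hk n hn k)] with t h1 h2 h3
  by_cases ht : t ∈ iv k
  · right
    rw [h3, h2, smul_zero]
    intro h4
    have h5 := iv_sub ht
    have h6 := iv_sub h4
    unfold tau at h6
    rw [if_pos h5.2] at h6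
    linarith [h5.1, h6.2]
  · left; exact h1 ht

end

end Pool.Agent.Helper49.Mal
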