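import Pool.Agent.Helper49.Mal.Swap

/-!
The Cameron-Martin space, derivations of `D^∞` and the decomposition asked for in the problem.
-/

open MeasureTheory ProbabilityTheory MvPolynomial Filter
open scoped ENNReal NNReal RealInnerProductSpace Topology

namespace Pool.Agent.Helper49.Mal

noncomputable section

/-- The Cameron-Martin space of the `n`-dimensional Wiener space on `[0,1]`, a path `h` being
represented by its derivative in `L²([0,1]; ℝⁿ)`. -/
def CM (n : ℕ) : Type := LL n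

instance (n : ℕ) : NormedAddCommGroup (CM n) := Lp.instNormedAddCommGroup

instance (n : ℕ) : InnerProductSpace ℝ (CM n) := L2.innerProductSpace

/-- The derivative of a path of the Cameron-Martin space. -/
def CM.vel {n : ℕ} (h : CM n) : ℝ → EuclideanSpace ℝ (Fin n) := (show LL n from h)

/-- A `D^∞`-derivation: a linear map from `D^∞` to itself which is continuous for the family of
norms `‖·‖_{p,r}` and satisfies the Leibniz rule (the product of two elements of `D^∞` being again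
in `D^∞`). -/
structure IsDinfDerivation {H : Type*} [NormedAddCommGroup H] [InnerProductSpace ℝ H]
    {Ω : Type*} [MeasurableSpace Ω] {P : Measure Ω} [IsProbabilityMeasure P]
    {W : Isonormal H P} (δ : Dinf W →ₗ[ℝ] Dinf W) : Prop where
  cont : ∀ p : ℝ≥0, 1 < p → ∀ r : ℕ, 1 ≤ r →
    ∃ p' : ℝ≥0, 1 < p' ∧ ∃ r' : ℕ, 1 ≤ r' ∧ ∃ C : ℝ≥0, ∀ F : Dinf W,
      dNorm W p r (δ F).fn ≤ C * dNorm W p' r' F.fn
  leibniz : ∀ F G : Dinf W, ∃ K : Dinf W, (K.fn =ᵐ[P] fun ω => F.fn ω * G.fn ω) ∧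
    ((δ K).fn =ᵐ[P] fun ω => F.fn ω * (δ G).fn ω + G.fn ω * (δ F).fn ω)

/-- The decomposition asked for in the problem (in a weak form): there are a square integrable
field `X` and a process `A(ω, t)` of antisymmetric matrices such that for every `F ∈ D^∞` with
(measurable) gradient `G`, the field `V` with `V'(t) = A(t) G'(t)` has a divergence `D` and
`δ F = ⟪G, X⟫ + D`. -/
def HasDecomposition {n : ℕ} {Ω : Type*} [MeasurableSpace Ω] {P : Measure Ω}
    [IsProbabilityMeasure P] {W : Isonormal (CM n) P} (δ : Dinf W →ₗ[ℝ] Dinf W) : Prop :=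
  ∃ (X : Ω → CM n) (A : Ω → ℝ → Fin n → Fin n → ℝ), MemLp X 2 P ∧
    (∀ ω t i j, A ω t i j = -A ω t j i) ∧
    ∀ (F : Dinf W) (G : Ω → CM n), AEStronglyMeasurable G P → IsGrad W F.fn G →
      ∃ (V : Ω → CM n) (D : Ω → ℝ),
        (∀ᵐ ω ∂P, ∀ᵐ t ∂lam, ∀ i, (V ω).vel t i = ∑ j, A ω t i j * (G ω).vel t j) ∧
        IsDiv W V D ∧ ((δ F).fn =ᵐ[P] fun ω => ⟪G ω, X ω⟫ + D ω)

end

end Pool.Agent.Helper49.Mal
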