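import Pool.Agent.Helper49.Mal.RotBound
import Pool.Agent.Helper49.Mal.Defs

open MeasureTheory ProbabilityTheory MvPolynomial Filter
open scoped ENNReal NNReal RealInnerProductSpace Topology

namespace Pool.Agent.Helper49.Mal

noncomputable section

variable {H : Type*} [NormedAddCommGroup H] [InnerProductSpace ℝ H]
  {Ω : Type*} [MeasurableSpace Ω] {P : Measure Ω}

lemma vars_pderiv_subset {σ : Type*} (i : σ) (f : MvPolynomial σ ℝ) :
    (pderiv i f).vars ⊆ f.vars := by
  classical
  intro j hj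
  obtain ⟨m, hm, hjm⟩ := (mem_vars_iff_mem_support j).1 hj
  rw [mem_support_iff, coeff_pderiv] at hm
  refine (mem_vars_iff_mem_support j).2 ⟨m + Finsupp.single i 1, ?_, ?_⟩
  · rw [mem_support_iff]
    intro h
    rw [h] at hm
    simp at hm
  · rw [Finsupp.mem_support_iff] at hjm ⊢
    simp only [Finsupp.add_apply]
    omega

/-- coordinates: `X h ↦ ∑ i, ⟪e i, h⟫ X i` -/
def cor {d : ℕ} (e : Fin d → H) : MvPolynomial H ℝ →ₐ[ℝ] MvPolynomial (Fin d) ℝ :=
  aeval fun h => ∑ i, C ⟪e i, h⟫ * X i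

lemma cor_X {d : ℕ} (e : Fin d → H) (h : H) : cor e (X h) = ∑ i, C ⟪e i, h⟫ * X i := aeval_X _ _

lemma cor_C {d : ℕ} (e : Fin d → H) (a : ℝ) : cor e (C a) = C a := by
  unfold cor
  rw [MvPolynomial.aeval_C]
  rfl

/-- chain rule -/
lemma pderiv_cor {d : ℕ} (e : Fin d → H) (j : Fin d) (f : MvPolynomial H ℝ) :
    pderiv j (cor e f) = ∑ h ∈ f.vars, C ⟪e j, h⟫ * cor e (pderiv h f) := by
  classical
  have key : ∀ f : MvPolynomial H ℝ, ∃ s0 : Finset H, ∀ s, s0 ⊆ s →
      pderiv j (cor e f) = ∑ h ∈ s, C ⟪e j, h⟫ * cor e (pderiv h f) := by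
    intro f
    induction f using MvPolynomial.induction_on with
    | C a => exact ⟨∅, fun s _ => by simp [cor_C]⟩
    | add f g hf hg =>
      obtain ⟨s1, h1⟩ := hf
      obtain ⟨s2, h2⟩ := hg
      refine ⟨s1 ∪ s2, fun s hs => ?_⟩
      rw [map_add, map_add, h1 s (Finset.union_subset_left hs), h2 s (Finset.union_subset_right hs),
        ← Finset.sum_add_distrib]
      refine Finset.sum_congr rfl fun h _ => ?_
      rw [map_add, map_add, mul_add]
    | mul_X f g hf =>
      obtain ⟨s1, h1⟩ := hf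
      refine ⟨insert g s1, fun s hs => ?_⟩
      have hs1 : s1 ⊆ s := (Finset.subset_insert g s1).trans hs
      have hg : g ∈ s := hs (Finset.mem_insert_self g s1)
      rw [map_mul, pderiv_mul, h1 s hs1]
      have h2 : pderiv j (cor e (X g)) = C ⟪e j, g⟫ := by
        rw [cor_X, map_sum]
        rw [Finset.sum_eq_single j]
        · rw [pderiv_C_mul, pderiv_X_self, mul_one]
        · intro i _ hij
          rw [pderiv_C_mul, pderiv_X_of_ne hij, mul_zero]
        · intro h; exact absurd (Finset.mem_univ j) h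
      rw [h2]
      have h3 : ∀ h ∈ s, C ⟪e j, h⟫ * cor e (pderiv h (f * X g)) =
          C ⟪e j, h⟫ * cor e (pderiv h f) * cor e (X g) +
            if h = g then C ⟪e j, g⟫ * cor e f else 0 := by
        intro h _
        rw [pderiv_mul, map_add, map_mul, map_mul]
        by_cases hh : h = g
        · subst hh
          rw [pderiv_X_self, if_pos rfl, map_one]
          ring
        · rw [pderiv_X_of_ne (Ne.symm hh), if_neg hh, map_zero]
          ring
      rw [Finset.sum_congr rfl h3, Finset.sum_add_distrib, ← Finset.sum_mul,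
        Finset.sum_ite_eq' s g, if_pos hg]
      ring
  obtain ⟨s0, h0⟩ := key f
  rw [h0 (s0 ∪ f.vars) Finset.subset_union_left]
  symm
  refine Finset.sum_subset Finset.subset_union_right fun h _ hh => ?_
  rw [pderiv_eq_zero_of_notMem_vars hh, map_zero, mul_zero]

/-- the coordinates of a good sample point -/
def GoodAt (W : Isonormal H P) {d : ℕ} (e : Fin d → H) (s : Finset H) (ω : Ω) : Prop :=
  ∀ h ∈ s, W h ω = ∑ i, ⟪e i, h⟫ * W (e i) ω

/-- the Gaussian coordinates -/
def gc (W : Isonormal H P) {d : ℕ} (e : Fin d → H) (ω : Ω) : Fin d → ℝ :=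
  fun i => W (e i) ω

lemma ev_eq_of_good (W : Isonormal H P) {d : ℕ} (e : Fin d → H) {s : Finset H} {ω : Ω}
    (hω : GoodAt W e s ω) {f : MvPolynomial H ℝ} (hf : f.vars ⊆ s) :
    ev W f ω = eval (gc W e ω) (cor e f) := by
  unfold ev
  have h1 : eval (gc W e ω) (cor e f) =
      eval (fun h => ∑ i, ⟪e i, h⟫ * W (e i) ω) f := by
    unfold cor
    have h2 : (eval (gc W e ω)).comp
        (aeval (R := ℝ) (fun h : H => ∑ i, C ⟪e i, h⟫ * (X i : MvPolynomial (Fin d) ℝ))).toRingHom =
        eval (fun h => ∑ i, ⟪e i, h⟫ * W (e i) ω) := by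
      apply MvPolynomial.ringHom_ext
      · intro r
        simp
      · intro h
        simp [gc]
    exact congrArg (fun g => g f) h2
  rw [h1]
  refine eval₂Hom_congr' rfl (fun h hh _ => ?_) rfl
  exact hω h (hf hh)

/-- Parseval on the span -/
def SpanAt {d : ℕ} (e : Fin d → H) (s : Finset H) : Prop :=
  ∀ h ∈ s, ∑ i, ⟪e i, h⟫ • e i = h

lemma inner_of_span {d : ℕ} {e : Fin d → H} {s : Finset H} (hs : SpanAt e s) {h h' : H}
    (hh : h ∈ s) : ∑ i, ⟪e i, h⟫ * ⟪e i, h'⟫ = ⟪h, h'⟫ := by
  conv_rhs => rw [← hs h hh, sum_inner]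
  exact Finset.sum_congr rfl fun i _ => (real_inner_smul_left _ _ _).symm

lemma derivInner_eq_of_good (W : Isonormal H P) {d : ℕ} {e : Fin d → H} {s : Finset H} {ω : Ω}
    (hω : GoodAt W e s ω) (hs : SpanAt e s) (k : ℕ) : ∀ {f g : MvPolynomial H ℝ},
    f.vars ⊆ s → g.vars ⊆ s →
    derivInner W k f g ω = eval (gc W e ω) (NI k (cor e f) (cor e g)) := by
  induction k with
  | zero =>
    intro f g hf hg
    rw [NI_zero, map_mul, ← ev_eq_of_good W e hω hf, ← ev_eq_of_good W e hω hg]
    rfl
  | succ k ih =>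
    intro f g hf hg
    have h1 : NI (k + 1) (cor e f) (cor e g) = ∑ h ∈ f.vars, ∑ h' ∈ g.vars,
        C ⟪h, h'⟫ * NI k (cor e (pderiv h f)) (cor e (pderiv h' g)) := by
      rw [NI_succ]
      calc ∑ j, NI k (pderiv j (cor e f)) (pderiv j (cor e g))
          = ∑ j, ∑ h ∈ f.vars, ∑ h' ∈ g.vars, C (⟪e j, h⟫ * ⟪e j, h'⟫) *
              NI k (cor e (pderiv h f)) (cor e (pderiv h' g)) := by
            refine Finset.sum_congr rfl fun j _ => ?_
            rw [pderiv_cor, pderiv_cor, NI_sum_left]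
            refine Finset.sum_congr rfl fun h _ => ?_
            rw [NI_sum_right]
            refine Finset.sum_congr rfl fun h' _ => ?_
            rw [NI_C_mul_left, NI_C_mul_right, map_mul]
            ring
        _ = ∑ h ∈ f.vars, ∑ h' ∈ g.vars, ∑ j, C (⟪e j, h⟫ * ⟪e j, h'⟫) *
              NI k (cor e (pderiv h f)) (cor e (pderiv h' g)) := by
            rw [Finset.sum_comm]
            refine Finset.sum_congr rfl fun h _ => ?_
            rw [Finset.sum_comm]
        _ = _ := by
            refine Finset.sum_congr rfl fun h hh => Finset.sum_congr rfl fun h' _ => ?_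
            rw [← Finset.sum_mul, ← map_sum, inner_of_span hs (hf hh)]
    rw [h1, map_sum]
    simp only [derivInner, map_sum, map_mul, eval_C]
    refine Finset.sum_congr rfl fun h _ => Finset.sum_congr rfl fun h' _ => ?_
    rw [ih ((vars_pderiv_subset h f).trans hf) ((vars_pderiv_subset h' g).trans hg)]

lemma derivNorm_eq_of_good (W : Isonormal H P) {d : ℕ} {e : Fin d → H} {s : Finset H} {ω : Ω}
    (hω : GoodAt W e s ω) (hs : SpanAt e s) (k : ℕ) {f : MvPolynomial H ℝ} (hf : f.vars ⊆ s) :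
    derivNorm W k f ω = T k (fun _ : Unit => cor e f) (gc W e ω) := by
  unfold derivNorm T
  rw [derivInner_eq_of_good W hω hs k hf hf]
  simp

lemma ae_W_sum (W : Isonormal H P) {κ : Type*} (s : Finset κ) (c : κ → ℝ) (v : κ → H) :
    ∀ᵐ ω ∂P, W (∑ i ∈ s, c i • v i) ω = ∑ i ∈ s, c i * W (v i) ω := by
  classical
  induction s using Finset.induction_on with
  | empty =>
    have h1 := W.smul 0 0
    rw [zero_smul] at h1
    filter_upwards [h1] with ω hω
    rw [Finset.sum_empty, Finset.sum_empty, hω, zero_mul]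
  | insert a s ha ih =>
    rw [Finset.sum_insert ha]
    filter_upwards [ih, W.add (c a • v a) (∑ i ∈ s, c i • v i), W.smul (c a) (v a)]
      with ω h1 h2 h3
    rw [h2, h1, h3, Finset.sum_insert ha]

lemma ae_goodAt (W : Isonormal H P) {d : ℕ} {e : Fin d → H} {s : Finset H}
    (hs : SpanAt e s) : ∀ᵐ ω ∂P, GoodAt W e s ω := by
  have h1 : ∀ h ∈ s, ∀ᵐ ω ∂P, W h ω = ∑ i, ⟪e i, h⟫ * W (e i) ω := by
    intro h hh
    filter_upwards [ae_W_sum W Finset.univ (fun i => ⟪e i, h⟫) e] with ω hω
    rw [hs h hh] at hω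
    exact hω
  unfold GoodAt
  exact (ae_ball_iff s.countable_toSet).2 h1

lemma law_gc [IsProbabilityMeasure P] (W : Isonormal H P) {d : ℕ}
    {e : Fin d → H} (he : Orthonormal ℝ e) : P.map (gc W e) = gam (Fin d) := by
  have hm : AEMeasurable (gc W e) P := by
    unfold gc
    exact aemeasurable_pi_lambda _ fun i => W.meas _
  have := Measure.isProbabilityMeasure_map hm
  refine (charFun_eq_pi_iff (μ := fun _ : Fin d => gaussianReal 0 1)).1 fun t => ?_
  have h1 : ∀ i, charFun (gaussianReal 0 1) (t i) = Complex.exp (-(t i : ℂ) ^ 2 / 2) := by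
    intro i
    rw [charFun_gaussianReal]
    congr 1
    push_cast
    ring
  simp only [h1]
  rw [← Complex.exp_sum]
  set h : H := ∑ i, t i • e i with hh
  have h2 : charFun (P.map (W h)) 1 = Complex.exp (-(‖h‖ : ℂ) ^ 2 / 2) := by
    rw [W.law h, charFun_gaussianReal]
    congr 1
    push_cast
    ring
  have h3 : (‖h‖ : ℝ) ^ 2 = ∑ i, t i ^ 2 := by
    rw [← real_inner_self_eq_norm_sq, hh, he.inner_sum]
    simp [sq]
  have h4 : charFun ((P.map (gc W e)).map (WithLp.toLp 2)) t = charFun (P.map (W h)) 1 := by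
    rw [charFun_apply, charFun_apply]
    have hmt : Measurable (WithLp.toLp 2 : (Fin d → ℝ) → PiLp 2 fun _ : Fin d => ℝ) := by
      fun_prop
    rw [integral_map hmt.aemeasurable (by fun_prop), integral_map hm (by fun_prop),
      integral_map (W.meas _) (by fun_prop)]
    refine integral_congr_ae ?_
    have h5 : ∀ᵐ ω ∂P, W h ω = ∑ i, t i * W (e i) ω := by
      have h6 : SpanAt e {h} := by
        intro h' hh'
        rw [Finset.mem_singleton.1 hh', hh]
        have : ∀ i, ⟪e i, ∑ j, t j • e j⟫ = t i := by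
          intro i
          exact he.inner_right_fintype t i
        simp only [this]
      filter_upwards [ae_goodAt W h6] with ω hω
      rw [hω h (Finset.mem_singleton_self h)]
      refine Finset.sum_congr rfl fun i _ => ?_
      rw [hh, he.inner_right_fintype]
    filter_upwards [h5] with ω hω
    rw [hω]
    congr 2
    simp [PiLp.inner_apply, gc, mul_comm]
  rw [h4, h2]
  congr 1
  rw [← Finset.sum_div, Finset.sum_neg_distrib]
  congr 2
  exact_mod_cast h3

end

end Pool.Agent.Helper49.Mal
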